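import Pool.Agent.Lib.MP_982bd8_co.Geo

/-! In a dense realisable development some translation is induced by a linear map. -/

namespace Pool.Agent.LinSidon

open Finset Matrix

variable {K : Type*} [Field K] {G : Type} [AddCommGroup G] {S : Finset G} {P L : G → Fin 3 → K}
  {u v : G}

theorem dot3 (a b : Fin 3 → K) : a ⬝ᵥ b = a 0 * b 0 + a 1 * b 1 + a 2 * b 2 := by
  simp [dotProduct, Fin.sum_univ_three]

theorem Ind.not {x y : Fin 3 → K} (h : Ind x y) {s t : K} (hs : s ≠ 0)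
    (h0 : s * x 0 = t * y 0) (h1 : s * x 1 = t * y 1) (h2 : s * x 2 = t * y 2) : False :=
  hs (h s (-t) (funext fun i => by fin_cases i <;> simp [h0, h1, h2])).1

theorem ne3 {x : Fin 3 → K} (h : x ≠ 0) (h0 : x 0 = 0) (h1 : x 1 = 0) (h2 : x 2 = 0) : False :=
  h (funext fun i => by fin_cases i <;> assumption)

/-- A realisation in normal form. -/
structure En (S : Finset G) (P L : G → Fin 3 → K) (u v : G) : Prop where
  E : Emb S P L
  N : Nf P L u v
  hu : u ∈ S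
  hv : v ∈ S
  ne : u ≠ v

namespace En

variable (D : En S P L u v)
include D

theorem l2 : L 0 2 ≠ 0 := ne3 (D.E.ln 0 _ (sub_ne_zero.2 D.ne).symm).ne D.N.l0 D.N.l1

theorem u1 : P u 1 ≠ 0 := fun h => ne3 (D.E.pt _ _ D.ne).ne D.N.u0 h D.N.u2

theorem v0 : P v 0 ≠ 0 := fun h => ne3 (D.E.pt _ _ D.ne.symm).ne h D.N.v1 D.N.v2

theorem line {t : G} (ht : t ≠ 0) (h0 : L t 0 = 0) (h1 : L t 1 = 0) : False :=
  (D.E.ln t 0 ht).not D.l2 (t := L t 2) (by rw [h0, D.N.l0]; ring) (by rw [h1, D.N.l1]; ring)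
    (mul_comm _ _)

theorem lu {σ : G} (h : σ ∈ S) (hσ : σ ≠ u) : L (u - σ) 1 = 0 ∧ L (u - σ) 0 ≠ 0 := by
  have := D.E.inc (u - σ) u (by simpa)
  rw [dot3, D.N.u0, D.N.u2, mul_zero, mul_zero, zero_add, add_zero] at this
  have h1 := (mul_eq_zero.1 this).resolve_right D.u1
  exact ⟨h1, fun h0 => D.line (sub_ne_zero.2 hσ.symm) h0 h1⟩

theorem lv {σ : G} (h : σ ∈ S) (hσ : σ ≠ v) : L (v - σ) 0 = 0 ∧ L (v - σ) 1 ≠ 0 := by
  have := D.E.inc (v - σ) v (by simpa)
  rw [dot3, D.N.v1, D.N.v2, mul_zero, mul_zero, add_zero, add_zero] at this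
  have h1 := (mul_eq_zero.1 this).resolve_right D.v0
  exact ⟨h1, fun h0 => D.line (sub_ne_zero.2 hσ.symm) h1 h0⟩

theorem p2 {m : G} (h : m ∈ S) : P m 2 = 0 := by
  have := D.E.inc 0 m (by simpa)
  rw [dot3, D.N.l0, D.N.l1, zero_mul, zero_mul, zero_add, zero_add] at this
  exact (mul_eq_zero.1 this).resolve_left D.l2

theorem p0 {m : G} (h : m ∈ S) (hm : m ≠ u) : P m 0 ≠ 0 := fun h0 =>
  (D.E.pt m u hm).not D.u1 (t := P m 1) (by rw [h0, D.N.u0]; ring) (mul_comm _ _)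
    (by rw [D.p2 h, D.N.u2]; ring)

theorem p1 {m : G} (h : m ∈ S) (hm : m ≠ v) : P m 1 ≠ 0 := fun h0 =>
  (D.E.pt m v hm).not D.v0 (t := P m 0) (mul_comm _ _) (by rw [h0, D.N.v1]; ring)
    (by rw [D.p2 h, D.N.v2]; ring)

theorem z2 {z : G} (h : Jn S u z) : P z 2 ≠ 0 := fun h0 => by
  obtain ⟨σ, h1, h2, h3, h4⟩ := h
  exact not4 (D.E.ln 0 (u - σ) (sub_ne_zero.2 h2.symm).symm) (D.E.pt z u h4)
    (by rw [dot3, D.N.l0, D.N.l1, h0]; ring) (D.E.inc _ _ (by simpa using D.hu))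
    (D.E.inc _ _ h3) (D.E.inc _ _ (by simpa))

theorem cx {z σ : G} (hz : P z 2 ≠ 0) (h : σ ∈ S) (hσ : σ ≠ u) (h' : z - (u - σ) ∈ S) :
    P z 0 / P z 2 = -L (u - σ) 2 / L (u - σ) 0 := by
  have := D.E.inc _ _ h'
  rw [dot3, (D.lu h hσ).1] at this
  rw [div_eq_div_iff hz (D.lu h hσ).2]
  linear_combination this

theorem cy {z σ : G} (hz : P z 2 ≠ 0) (h : σ ∈ S) (hσ : σ ≠ v) (h' : z - (v - σ) ∈ S) :
    P z 1 / P z 2 = -L (v - σ) 2 / L (v - σ) 1 := by
  have := D.E.inc _ _ h'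
  rw [dot3, (D.lv h hσ).1] at this
  rw [div_eq_div_iff hz (D.lv h hσ).2]
  linear_combination this

theorem cm {z σ m : G} (hz : P z 2 ≠ 0) (hm : m ∈ S) (hu : m ≠ u) (h : σ ∈ S) (hσ : σ ≠ m)
    (h' : z - (m - σ) ∈ S) :
    P z 1 / P z 2 - P m 1 / P m 0 * (P z 0 / P z 2) = -L (m - σ) 2 / L (m - σ) 1 := by
  have h1 := D.E.inc _ _ h'
  have h2 := D.E.inc (m - σ) m (by simpa)
  rw [dot3] at h1 h2
  rw [D.p2 hm, mul_zero, add_zero] at h2
  have h3 := D.p0 hm hu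
  have h4 : L (m - σ) 1 ≠ 0 := fun h4 => D.line (sub_ne_zero.2 hσ.symm) (by
    rw [h4, zero_mul, add_zero] at h2
    exact (mul_eq_zero.1 h2).resolve_right h3) h4
  field_simp
  linear_combination P m 0 * h1 - P z 0 * h2

theorem ax {σ σ' : G} (h : σ ∈ S) (hσ : σ ≠ u) (h' : σ' ∈ S) (hσ' : σ' ≠ u) (ne : σ ≠ σ') :
    -L (u - σ) 2 / L (u - σ) 0 ≠ -L (u - σ') 2 / L (u - σ') 0 := fun e => by
  rw [div_eq_div_iff (D.lu h hσ).2 (D.lu h' hσ').2] at e
  exact (D.E.ln (u - σ) (u - σ') (by simpa using ne)).not (D.lu h' hσ').2 (t := L (u - σ) 0)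
    (mul_comm _ _) (by rw [(D.lu h hσ).1, (D.lu h' hσ').1]; ring) (by linear_combination -e)

theorem sl {m m' : G} (h : m ∈ S) (hm : m ≠ u) (h' : m' ∈ S) (hm' : m' ≠ u)
    (e : P m 1 / P m 0 = P m' 1 / P m' 0) : m = m' := by
  by_contra ne
  rw [div_eq_div_iff (D.p0 h hm) (D.p0 h' hm')] at e
  exact (D.E.pt m m' ne).not (D.p0 h' hm') (t := P m 0) (mul_comm _ _) (by linear_combination e)
    (by rw [D.p2 h, D.p2 h']; ring)

theorem xy {z z' : G} (h : P z 2 ≠ 0) (h' : P z' 2 ≠ 0) (e0 : P z 0 / P z 2 = P z' 0 / P z' 2)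
    (e1 : P z 1 / P z 2 = P z' 1 / P z' 2) : z = z' := by
  by_contra ne
  rw [div_eq_div_iff h h'] at e0 e1
  exact (D.E.pt z z' ne).not h' (t := P z 2) (by linear_combination e0) (by linear_combination e1)
    (mul_comm _ _)

end En

theorem same {R : Type*} [CommRing R] {ι : Type} [Fintype ι] {F : Subring R} {T : Finset R}
    (hT : ∀ f ∈ F, f ∈ T) (hc : T.card < Fintype.card ι) (π : ι → R →+* K) :
    ∃ t t', t ≠ t' ∧ ∀ f ∈ F, π t f = π t' f := by
  by_contra hn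
  push Not at hn
  have inj : Function.Injective fun f : F => (⟨f.1, hT f.1 f.2⟩ : T) := fun f g e =>
    Subtype.ext (congrArg (fun x : T => x.1) e)
  have := Finite.of_injective _ inj
  have := Fintype.ofFinite F
  have h1 := ((linearIndependent_monoidHom F K).comp
    (fun t => ((π t).comp F.subtype).toMonoidHom) fun t t' e => by
      by_contra ne
      obtain ⟨f, hf, h⟩ := hn t t' ne
      exact h (DFunLike.congr_fun e ⟨f, hf⟩)).fintype_card_le_finrank
  rw [Module.finrank_fintype_fun_eq_card] at h1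
  have := Fintype.card_le_of_injective _ inj
  rw [Fintype.card_coe] at this
  omega

theorem aff {κ₁ κ₂ : K} (h1 : κ₁ ≠ 0) (h2 : κ₂ ≠ 0) (a b : K) :
    ∃ N N' : Matrix (Fin 3) (Fin 3) K, N * N' = 1 ∧ ∀ Q : Fin 3 → K, Q 2 ≠ 0 →
      N' *ᵥ Q = Q 2 • ![(Q 0 / Q 2 - a) * κ₁, (Q 1 / Q 2 - b) * κ₂, 1] := by
  refine ⟨!![κ₁⁻¹, 0, a; 0, κ₂⁻¹, b; 0, 0, 1], !![κ₁, 0, -a * κ₁; 0, κ₂, -b * κ₂; 0, 0, 1], ?_,
    fun Q hQ => ?_⟩
  · ext i j
    fin_cases i <;> fin_cases j <;> simp [mul_apply, Fin.sum_univ_three, h1, h2, mul_comm]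
  · ext i
    fin_cases i
    · simp [mulVec, dotProduct, Fin.sum_univ_three]
      field_simp
      ring
    · simp [mulVec, dotProduct, Fin.sum_univ_three]
      field_simp
      ring
    · simp [mulVec, dotProduct, Fin.sum_univ_three]

theorem num1 {k n z i u j : ℕ} (h1 : 200 * n + 600 * (k + 2) ≤ 201 * (k + 2) ^ 2)
    (h2 : 2 * ((k + 1) * (k + 1)) ≤ z + n) (h3 : i + u = z + j) (h4 : u ≤ n)
    (h5 : (k + 1) * (k + 1) ≤ j) : 99 * (k + 2) ^ 2 ≤ 100 * i := by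
  nlinarith

theorem num2 {k n z y w c a a' b b' : ℕ} (_ : 10 ≤ k + 2)
    (h1 : 200 * n + 600 * (k + 2) ≤ 201 * (k + 2) ^ 2) (h2 : 2 * ((k + 1) * (k + 1)) ≤ z + n)
    (h3 : y + w = z) (h4 : w ≤ a * b + a' * b') (h5 : 5 * a * b ≤ (k + 2) * (k + 2))
    (h6 : a' * (10 * b') ≤ (k + 2) * (3 * (k + 2))) (h7 : y + c = n) : c < (k + 1) * k := by
  nlinarith

theorem Emb.act [Fintype G] (E : Emb S P L) (hk : 10 ≤ S.card)
    (h1 : 200 * Fintype.card G + 600 * S.card ≤ 201 * S.card ^ 2)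
    (h2 : 2 * S.card < Fintype.card G) :
    ∃ (g : Matrix (Fin 3) (Fin 3) K) (h : G), h ≠ 0 ∧
      ∀ y, ∃ c : K, c ≠ 0 ∧ g *ᵥ P y = c • P (y + h) := by
  classical
  obtain ⟨u, hu, v, hv, huv⟩ := one_lt_card.1 (show 1 < S.card by omega)
  choose B B' hB hN using fun t => (E.shift t).norm hu hv huv
  set P' : G → G → Fin 3 → K := fun t x => B' t *ᵥ P (x + t) with hP'
  set L' : G → G → Fin 3 → K := fun t x => L (x + t) ᵥ* B t with hL'
  have D : ∀ t, En S (P' t) (L' t) u v := fun t =>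
    ⟨(E.shift t).map (hB t), hN t, hu, hv, huv⟩
  let xy : G → (G → K) × (G → K) := fun z =>
    (fun t => P' t z 0 / P' t z 2, fun t => P' t z 1 / P' t z 2)
  set A := (S.erase u).image fun σ t => -L' t (u - σ) 2 / L' t (u - σ) 0 with hA
  set C := (S.erase v).image fun σ t => -L' t (v - σ) 2 / L' t (v - σ) 1 with hC
  have cA : A.card ≤ S.card := card_image_le.trans (card_erase_le)
  have cC : C.card ≤ S.card := card_image_le.trans (card_erase_le)
  set Z := univ.filter (Jn S u) ∩ univ.filter (Jn S v) with hZ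
  have mZ : ∀ z ∈ Z, Jn S u z ∧ Jn S v z := fun z hz => by simpa [hZ] using hz
  have mem : ∀ z ∈ Z, xy z ∈ A ×ˢ C := fun z hz => by
    obtain ⟨σ, a1, a2, a3, -⟩ := (mZ z hz).1
    obtain ⟨σ', b1, b2, b3, -⟩ := (mZ z hz).2
    exact mem_product.2 ⟨mem_image.2 ⟨σ, mem_erase.2 ⟨a2, a1⟩, funext fun t =>
      ((D t).cx ((D t).z2 (mZ z hz).1) a1 a2 a3).symm⟩, mem_image.2 ⟨σ', mem_erase.2 ⟨b2, b1⟩,
      funext fun t => ((D t).cy ((D t).z2 (mZ z hz).1) b1 b2 b3).symm⟩⟩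
  have inj : Set.InjOn xy Z := fun z hz z' hz' e =>
    (D 0).xy ((D 0).z2 (mZ z hz).1) ((D 0).z2 (mZ z' hz').1) (congrFun (congrArg Prod.fst e) 0)
      (congrFun (congrArg Prod.snd e) 0)
  obtain ⟨k, hk'⟩ : ∃ k, S.card = k + 2 := ⟨S.card - 2, by omega⟩
  have cJ : ∀ m ∈ S, (k + 1) * (k + 1) ≤ (univ.filter (Jn S m)).card := fun m hm => by
    simpa [hk'] using E.card_jn hm
  have cZ : 2 * ((k + 1) * (k + 1)) ≤ Z.card + Fintype.card G := by
    have := card_inter_add_card_union (univ.filter (Jn S u)) (univ.filter (Jn S v))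
    have := card_le_univ (univ.filter (Jn S u) ∪ univ.filter (Jn S v))
    have := cJ u hu
    have := cJ v hv
    rw [hZ]
    omega
  obtain ⟨F, T, A', C', a₀, b₀, κ₁, κ₂, f1, f2, f3, f4, f5, f6, f7, f8, f9, f10⟩ :=
    grid (A := A) (B := C) (M := ((S.erase u).erase v).image fun m t => P' t m 1 / P' t m 0)
      (k := S.card) (by omega) cA cC (by
        rw [card_image_of_injOn fun m hm m' hm' e => by
          have a := mem_erase.1 (mem_erase.1 hm).2
          have b := mem_erase.1 (mem_erase.1 hm').2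
          exact (D 0).sl a.2 a.1 b.2 b.1 (congrFun e 0),
          card_erase_of_mem (mem_erase.2 ⟨huv.symm, hv⟩), card_erase_of_mem hu]
        omega) (fun m' hm' => by
        obtain ⟨m, hm, rfl⟩ := mem_image.1 hm'
        have a := mem_erase.1 (mem_erase.1 hm).2
        exact Pi.isUnit_iff.2 fun t =>
          (div_ne_zero ((D t).p1 a.2 (mem_erase.1 hm).1) ((D t).p0 a.2 a.1)).isUnit)
      (fun a ha a' ha' ne => by
        obtain ⟨σ, h3, rfl⟩ := mem_image.1 ha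
        obtain ⟨σ', h4, rfl⟩ := mem_image.1 ha'
        exact Pi.isUnit_iff.2 fun t => (sub_ne_zero.2 ((D t).ax (mem_erase.1 h3).2
          (mem_erase.1 h3).1 (mem_erase.1 h4).2 (mem_erase.1 h4).1 fun e => ne (e ▸ rfl))).isUnit)
      fun m' hm' => by
        obtain ⟨m, hm, rfl⟩ := mem_image.1 hm'
        have a := mem_erase.1 (mem_erase.1 hm).2
        refine ⟨(S.erase m).image fun σ t => -L' t (m - σ) 2 / L' t (m - σ) 1,
          card_image_le.trans card_erase_le, le_trans ?_ (Nat.mul_le_mul_left 100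
            (card_le_card_of_injOn (s := Z ∩ univ.filter (Jn S m)) xy (fun z hz => ?_)
              (inj.mono (coe_subset.2 inter_subset_left))))⟩
        · rw [hk'] at h1 ⊢
          exact num1 h1 cZ (card_inter_add_card_union Z (univ.filter (Jn S m))) (card_le_univ _)
            (cJ m a.2)
        · obtain ⟨z1, z2⟩ := mem_inter.1 hz
          obtain ⟨σ, b1, b2, b3, -⟩ := (mem_filter.1 z2).2
          exact mem_coe.2 (mem_filter.2 ⟨mem z z1, mem_image.2 ⟨σ, mem_erase.2 ⟨b2, b1⟩,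
            funext fun t => ((D t).cm ((D t).z2 (mZ z z1).1) a.2 a.1 b1 b2 b3).symm⟩⟩)
  obtain ⟨t, t', ne, hF⟩ := same f1 (f2.trans_lt h2) fun t => Pi.evalRingHom (fun _ => K) t
  choose N N' hN1 hN2 using fun t => aff (Pi.isUnit_iff.1 f7 t).ne_zero
    (Pi.isUnit_iff.1 f8 t).ne_zero (a₀ t) (b₀ t)
  have key := ((D t).E.map (hN1 t)).ext ((D t').E.map (hN1 t'))
    (Y := Z.filter fun z => xy z ∈ A' ×ˢ C') (by
      have a1 := card_filter_add_card_filter_not (s := Z) fun z => xy z ∈ A' ×ˢ C'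
      have a2 : (Z.filter fun z => xy z ∉ A' ×ˢ C').card ≤ ((A \ A') ×ˢ C ∪ A ×ˢ (C \ C')).card :=
        card_le_card_of_injOn xy (fun z hz => by
          have b1 := mem_product.1 (mem z (mem_filter.1 hz).1)
          have b2 := (mem_filter.1 hz).2
          simp only [coe_union, coe_product, coe_sdiff, Set.mem_union, Set.mem_prod,
            Set.mem_sdiff, mem_coe, mem_product] at b2 ⊢
          tauto) (inj.mono (coe_subset.2 (filter_subset _ _)))
      have a3 := card_union_le ((A \ A') ×ˢ C) (A ×ˢ (C \ C'))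
      rw [card_product, card_product] at a3
      have a4 := card_sdiff_add_card_eq_card f3
      have a5 := card_sdiff_add_card_eq_card f4
      have a6 := Nat.mul_le_mul (show 5 * (A \ A').card ≤ S.card by omega) cC
      have a7 := Nat.mul_le_mul cA (show 10 * (C \ C').card ≤ 3 * S.card by omega)
      have a8 := card_add_card_compl (Z.filter fun z => xy z ∈ A' ×ˢ C')
      rw [hk'] at h1 a6 a7 hk ⊢
      rw [show k + 2 - 1 = k + 1 from rfl, Nat.add_sub_cancel]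
      exact num2 hk h1 cZ a1 (a2.trans a3) a6 a7 a8) fun z hz => by
      obtain ⟨z1, z2⟩ := mem_filter.1 hz
      have b1 := (D t).z2 (mZ z z1).1
      have b2 := (D t').z2 (mZ z z1).1
      have b3 := hF _ (f9 _ (mem_product.1 z2).1)
      have b4 := hF _ (f10 _ (mem_product.1 z2).2)
      simp only [xy, Pi.evalRingHom_apply, Pi.mul_apply, Pi.sub_apply] at b3 b4
      refine ⟨P' t z 2 / P' t' z 2, div_ne_zero b1 b2, ?_⟩
      rw [hN2 t _ b1, hN2 t' _ b2, b3, b4, smul_smul, div_mul_cancel₀ _ b2]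
  refine ⟨B t' * N t' * (N' t * B' t), t' - t, sub_ne_zero.2 ne.symm, fun y => ?_⟩
  obtain ⟨c, c0, hc⟩ := key (y - t)
  refine ⟨c, c0, ?_⟩
  simp only [hP', sub_add_cancel, mulVec_mulVec] at hc
  rw [← mulVec_mulVec, hc, mulVec_smul, mulVec_mulVec, mul_assoc, ← mul_assoc (N t'), hN1, one_mul,
    hB, one_mulVec, sub_add_eq_add_sub, add_sub_assoc]

end Pool.Agent.LinSidon
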