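import Pool.Agent.Lib.MP_982bd8_co.Many

/-! In a realisable development of density above `1 / 2` some translation is linear. -/

namespace Pool.Agent.LinSidon

open Finset Matrix
open scoped Pointwise

theorem num6 {M N k n y r : ℕ} (h0 : 0 < k) (h1 : k ^ 2 ≤ M * y)
    (h2 : N * n + 8 * k ^ 2 ≤ 2 * N * k ^ 2) (h3 : 2 * N * M * r ≤ k) (h4 : N * M ≤ k) :
    N * n * r ≤ y * k ∧ N * k ≤ y := by
  have M0 : 0 < M := Nat.pos_of_mul_pos_right ((pow_pos h0 2).trans_le h1)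
  have c1 := Nat.mul_le_mul_right (M * r) (Nat.le_of_add_right_le h2)
  have c2 := Nat.mul_le_mul_right (k ^ 2) h3
  have c3 := Nat.mul_le_mul_right k h1
  have c4 := Nat.mul_le_mul_right k h4
  exact ⟨Nat.le_of_mul_le_mul_left (by nlinarith) M0, Nat.le_of_mul_le_mul_left (by nlinarith) M0⟩

theorem num7 {N k n a b t c : ℕ} (h0 : N ≤ k + 2)
    (h1 : N * n + 8 * (k + 2) ^ 2 ≤ 2 * N * (k + 2) ^ 2)
    (h2 : N * (k + 2) ^ 2 ≤ N * t + 3 * (k + 2) ^ 2) (h3 : a + b = k) (h4 : b * (k + 1) ≤ c)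
    (h5 : t + c = n) : k + 2 ≤ N * a := by
  subst h5
  have c1 := Nat.mul_le_mul_left N h4
  have c2 := Nat.mul_le_mul_right (k + 2) h0
  have c3 : N * a * (k + 1) + N * (b * (k + 1)) = N * k * (k + 1) := by
    rw [← h3]
    ring
  exact Nat.le_of_mul_le_mul_right (by nlinarith) (show 0 < k + 1 by omega)

theorem num8 {k n z : ℕ} (h0 : 20 ≤ k + 1) (h1 : n ≤ 2 * (k + 1) ^ 2)
    (h2 : 5 * (k * k) ≤ 3 * z + n * 2) : (k + 1) ^ 2 ≤ 6 * z := by
  nlinarith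

section

variable {K : Type*} [Field K] {G : Type} [AddCommGroup G] [Fintype G] [DecidableEq G]
  {S : Finset G} {P L : G → Fin 3 → K}

open scoped Classical in
theorem Emb.triple (E : Emb S P L) (hk : 20 ≤ S.card) (hn : Fintype.card G ≤ 2 * S.card ^ 2) :
    ∃ u ∈ S, ∃ v ∈ S, ∃ m ∈ S, u ≠ v ∧ u ≠ m ∧ v ≠ m ∧
      S.card ^ 2 ≤ 750 * (univ.filter fun z => Jn S u z ∧ Jn S v z ∧ Jn S m z).card := by
  obtain ⟨U, h1, h2⟩ := exists_subset_card_eq (show 5 ≤ S.card by omega)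
  obtain ⟨k, hk'⟩ : ∃ k, S.card = k + 1 := ⟨S.card - 1, by omega⟩
  set Z := univ.filter fun z => 2 < (U.filter (Jn S · z)).card with hZ
  have c1 : U.card * (k * k) ≤ ∑ u ∈ U, (univ.filter (Jn S u)).card :=
    card_nsmul_le_sum _ _ _ fun u hu => by simpa [hk'] using E.card_jn (h1 hu)
  have c2 : ∑ z, (U.filter (Jn S · z)).card ≤
      ∑ z, (3 * (if 2 < (U.filter (Jn S · z)).card then 1 else 0) + 2) := sum_le_sum fun z _ => by
    have := card_filter_le U (Jn S · z)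
    split_ifs <;> omega
  rw [sum_add_distrib, ← mul_sum, ← card_filter, sum_const, smul_eq_mul, card_univ] at c2
  rw [sum_card_swap, h2] at c1
  rw [hk'] at hk hn
  have c3 : (k + 1) ^ 2 ≤ 6 * Z.card := num8 hk hn (c1.trans c2)
  choose! a b c a1 b1 c1 d1 d2 d3 using fun z (hz : z ∈ Z) => two_lt_card_iff.1 (mem_filter.1 hz).2
  obtain ⟨x, -, c4⟩ := big_fiber (s := Z) (t := U ×ˢ U ×ˢ U) (f := fun z => (a z, b z, c z))
    (card_pos.1 (by simp [h2])) fun z hz => mem_product.2 ⟨(mem_filter.1 (a1 z hz)).1,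
      mem_product.2 ⟨(mem_filter.1 (b1 z hz)).1, (mem_filter.1 (c1 z hz)).1⟩⟩
  rw [card_product, card_product, h2] at c4
  obtain ⟨z, hz⟩ := card_pos.1 (show 0 < (Z.filter fun z => (a z, b z, c z) = x).card by
    have : 0 < (k + 1) ^ 2 := by positivity
    omega)
  obtain ⟨z1, rfl⟩ := mem_filter.1 hz
  refine ⟨_, h1 (mem_filter.1 (a1 z z1)).1, _, h1 (mem_filter.1 (b1 z z1)).1, _,
    h1 (mem_filter.1 (c1 z z1)).1, d1 z z1, d2 z z1, d3 z z1, ?_⟩
  have c5 : (Z.filter fun y => (a y, b y, c y) = (a z, b z, c z)).card ≤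
      (univ.filter fun y => Jn S (a z) y ∧ Jn S (b z) y ∧ Jn S (c z) y).card :=
    card_le_card fun y hy => by
      obtain ⟨y1, y2⟩ := mem_filter.1 hy
      simp only [Prod.mk.injEq] at y2
      rw [← y2.1, ← y2.2.1, ← y2.2.2]
      exact mem_filter.2 ⟨mem_univ _, (mem_filter.1 (a1 y y1)).2, (mem_filter.1 (b1 y y1)).2,
        (mem_filter.1 (c1 y y1)).2⟩
  rw [← hk'] at c3
  omega

theorem Emb.good (E : Emb S P L) {T : Finset G} {N : ℕ} {u v : G} (hu : u ∈ S) (hv : v ∈ S)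
    (huv : u ≠ v) (hk : N ≤ S.card)
    (hp : N * Fintype.card G + 8 * S.card ^ 2 ≤ 2 * N * S.card ^ 2)
    (hT : N * S.card ^ 2 ≤ N * T.card + 3 * S.card ^ 2) :
    S.card ≤ N * (((S.erase u).erase v).filter fun m => ∃ σ ∈ S.erase m, m - σ ∈ T).card := by
  have c1 := card_filter_add_card_filter_not (s := (S.erase u).erase v)
    fun m => ∃ σ ∈ S.erase m, m - σ ∈ T
  rw [card_erase_of_mem (mem_erase.2 ⟨huv.symm, hv⟩), card_erase_of_mem hu] at c1
  set B := ((S.erase u).erase v).filter fun m => ¬ ∃ σ ∈ S.erase m, m - σ ∈ T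
  have mB : ∀ m ∈ B, m ∈ S := fun m hm =>
    mem_of_mem_erase (mem_of_mem_erase (mem_filter.1 hm).1)
  have c2 : (B.sigma fun m => S.erase m).card ≤ Tᶜ.card :=
    card_le_card_of_injOn (fun x => x.1 - x.2) (fun x hx => mem_compl.2 fun h =>
      (mem_filter.1 (mem_sigma.1 hx).1).2 ⟨_, (mem_sigma.1 hx).2, h⟩) fun x hx y hy e => by
      have a := mem_sigma.1 hx
      have b := mem_sigma.1 hy
      have := E.sid (mB _ a.1) (mem_erase.1 a.2).2 (mB _ b.1) (mem_erase.1 b.2).2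
        (mem_erase.1 a.2).1.symm e
      exact Sigma.ext this.1 (heq_of_eq this.2)
  rw [card_sigma, sum_congr rfl fun m hm => card_erase_of_mem (mB m hm), sum_const,
    smul_eq_mul] at c2
  obtain ⟨k, hk'⟩ : ∃ k, S.card = k + 2 := ⟨S.card - 2, by
    have := one_lt_card.2 ⟨u, hu, v, hv, huv⟩
    omega⟩
  rw [hk'] at hk hp hT c1 c2 ⊢
  exact num7 hk hp hT c1 c2 (card_add_card_compl T)

end

theorem act2.{u} {N : ℕ} (hN : 6 ≤ N) : ∃ k₀ : ℕ, ∀ (K : Type u) [Field K] (G : Type)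
    [AddCommGroup G] [Fintype G] (S : Finset G) (P L : G → Fin 3 → K), Emb S P L → k₀ ≤ S.card →
    N * Fintype.card G + 8 * S.card ^ 2 ≤ 2 * N * S.card ^ 2 →
    ∃ (g : Matrix (Fin 3) (Fin 3) K) (h : G), h ≠ 0 ∧
      ∀ y, ∃ c : K, c ≠ 0 ∧ g *ᵥ P y = c • P (y + h) := by
  obtain ⟨M₁, m1, m2, m3⟩ : ∃ M, 4 * 750 ≤ M ∧ 98304 * 750 ^ 5 ≤ M ∧ 64 * 750 ^ 4 ≤ M :=
    ⟨98304 * 750 ^ 5, by norm_num, le_rfl, by norm_num⟩
  obtain ⟨k₀, M', H⟩ := subring.{u} (2 * N * M₁)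
  refine ⟨k₀ + 2 * N * M₁ + 2 * N * (M₁ * M') + M' + 4 * N,
    fun K _ G _ _ S P L E hk hp => ?_⟩
  classical
  have k0 : 0 < S.card := by omega
  obtain ⟨u, hu, v, hv, w, hw, huv, huw, hvw, cZ⟩ := E.triple (by omega)
    (Nat.le_of_mul_le_mul_left ((Nat.le_of_add_right_le hp).trans_eq (by ring))
      (show 0 < N by omega))
  choose B B' hB hN' using fun t => (E.shift t).norm hu hv huv
  set P' : G → G → Fin 3 → K := fun t x => B' t *ᵥ P (x + t) with hP'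
  set L' : G → G → Fin 3 → K := fun t x => L (x + t) ᵥ* B t with hL'
  have D : ∀ t, En S (P' t) (L' t) u v := fun t =>
    ⟨(E.shift t).map (hB t), hN' t, hu, hv, huv⟩
  have μ0 : ∀ m ∈ S, u ≠ m → v ≠ m → ∀ t, P' t m 1 / P' t m 0 ≠ 0 := fun m hm a b t =>
    div_ne_zero ((D t).p1 hm b.symm) ((D t).p0 hm a.symm)
  have w0 := μ0 w hw huw hvw
  let xy : G → (G → K) × (G → K) := fun z =>
    (fun t => P' t w 1 / P' t w 0 * (P' t z 0 / P' t z 2), fun t => P' t z 1 / P' t z 2)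
  set Z := univ.filter fun z => Jn S u z ∧ Jn S v z ∧ Jn S w z
  have z2 : ∀ z ∈ Z, ∀ t, P' t z 2 ≠ 0 := fun z hz t => (D t).z2 (mem_filter.1 hz).2.1
  have pull : ∀ Γ ⊆ Z.image xy, Γ.card ≤ (Z.filter (xy · ∈ Γ)).card := fun Γ h =>
    (card_le_card fun x hx => by
      obtain ⟨z, hz, rfl⟩ := mem_image.1 (h hx)
      exact mem_image_of_mem _ (mem_filter.2 ⟨hz, hx⟩)).trans card_image_le
  obtain ⟨A, a1, b₀, a2, a3, a4⟩ := bsg (N := 750) (Γ := Z.image xy) k0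
    (A := (S.erase u).image fun σ t => P' t w 1 / P' t w 0 * (-L' t (u - σ) 2 / L' t (u - σ) 0))
    (B := (S.erase v).image fun σ t => -L' t (v - σ) 2 / L' t (v - σ) 1)
    (C := (S.erase w).image fun σ t => -L' t (w - σ) 2 / L' t (w - σ) 1)
    (card_image_le.trans card_erase_le) (card_image_le.trans card_erase_le)
    (card_image_le.trans card_erase_le) (image_subset_iff.2 fun z hz => by
      obtain ⟨⟨σ, a1, a2, a3, -⟩, ⟨σ', b1, b2, b3, -⟩, -⟩ := (mem_filter.1 hz).2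
      exact mem_product.2 ⟨mem_image.2 ⟨σ, mem_erase.2 ⟨a2, a1⟩, funext fun t =>
        congrArg _ ((D t).cx (z2 z hz t) a1 a2 a3).symm⟩, mem_image.2 ⟨σ', mem_erase.2 ⟨b2, b1⟩,
        funext fun t => ((D t).cy (z2 z hz t) b1 b2 b3).symm⟩⟩) (fun x hx => by
      obtain ⟨z, hz, rfl⟩ := mem_image.1 hx
      obtain ⟨-, -, σ, a1, a2, a3, -⟩ := (mem_filter.1 hz).2
      exact mem_image.2 ⟨σ, mem_erase.2 ⟨a2, a1⟩, funext fun t =>
        ((D t).cm (z2 z hz t) hw huw.symm a1 a2 a3).symm⟩) (by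
      rwa [card_image_of_injOn fun z hz z' hz' e => (D 0).xy (z2 z hz 0) (z2 z' hz' 0)
        (mul_left_cancel₀ (w0 0) (congrFun (congrArg Prod.fst e) 0))
        (congrFun (congrArg Prod.snd e) 0)])
  set Γ := (Z.image xy).filter fun x => x.1 ∈ A ∧ x.2 - b₀ ∈ A - A
  replace a4 := a4.trans (Nat.mul_le_mul_right _ m3)
  have M0 : 0 < 2 * N * M₁ := Nat.mul_pos (by omega) (by omega)
  have n1 : N * M₁ ≤ 2 * N * M₁ := Nat.mul_le_mul_right _ (by omega)
  have n2 : M₁ ≤ 2 * N * M₁ := Nat.le_mul_of_pos_left _ (by omega)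
  have n3 : N ≤ 2 * N * M₁ := (Nat.le_mul_of_pos_right _ (by omega)).trans n1
  have a5 := num6 k0 (a4.trans (Nat.mul_le_mul_left _ (pull Γ (filter_subset _ _)))) hp
    (Nat.mul_div_le S.card (2 * N * M₁)) (by omega)
  have a6 := E.good hu hv huv (by omega) hp
    (E.many ((Nat.mul_pos (by omega) k0).trans_le a5.2) (by omega) a5.1 a5.2)
  set V := ((S.erase u).erase v).filter fun m => ∃ σ ∈ S.erase m, m - σ ∈ univ.filter fun t =>
    S.card / (2 * N * M₁) < ((Z.filter (xy · ∈ Γ)).filter fun y => y - t ∈ S).card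
  have mV : ∀ m ∈ V, m ∈ S ∧ m ≠ u ∧ m ≠ v := fun m hm => by
    have := mem_erase.1 (mem_filter.1 hm).1
    exact ⟨(mem_erase.1 this.2).2, (mem_erase.1 this.2).1, this.1⟩
  have sl : ∀ m ∈ V, ∀ m' ∈ V, ∀ t, P' t m 1 / P' t m 0 / (P' t w 1 / P' t w 0) =
      P' t m' 1 / P' t m' 0 / (P' t w 1 / P' t w 0) → m = m' := fun m hm m' hm' t e =>
    (D t).sl (mV m hm).1 (mV m hm).2.1 (mV m' hm').1 (mV m' hm').2.1 ((div_left_inj' (w0 t)).1 e)
  obtain ⟨F, T, κ, a₁, b₁, f1, f2, f3, Γ', f4, f5, f6⟩ := H (G → K) A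
    (V.image fun m t => P' t m 1 / P' t m 0 / (P' t w 1 / P' t w 0)) Γ b₀ S.card (by omega)
    ((card_le_card a1).trans (card_image_le.trans card_erase_le))
    (a2.trans (Nat.mul_le_mul_right _ (m1.trans n2)))
    (a3.trans (Nat.mul_le_mul_right _ (m2.trans n2))) (by
      rw [card_image_of_injOn fun m hm m' hm' e => sl m hm m' hm' 0 (congrFun e 0)]
      exact a6.trans (Nat.mul_le_mul_right _ n3))
    (card_pos.1 (Nat.pos_of_mul_pos_left ((pow_pos k0 2).trans_le a4))) (fun a ha a' ha' ne => by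
      obtain ⟨σ, h3, rfl⟩ := mem_image.1 (a1 ha)
      obtain ⟨σ', h4, rfl⟩ := mem_image.1 (a1 ha')
      exact Pi.isUnit_iff.2 fun t => (sub_ne_zero.2 fun e => (D t).ax (mem_erase.1 h3).2
        (mem_erase.1 h3).1 (mem_erase.1 h4).2 (mem_erase.1 h4).1 (fun e => ne (e ▸ rfl))
        (mul_left_cancel₀ (w0 t) e)).isUnit) (fun l hl => by
      obtain ⟨m, hm, rfl⟩ := mem_image.1 hl
      exact Pi.isUnit_iff.2 fun t => (div_ne_zero
        (μ0 m (mV m hm).1 (mV m hm).2.1.symm (mV m hm).2.2.symm t) (w0 t)).isUnit)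
    (fun l hl l' hl' ne => by
      obtain ⟨m, hm, rfl⟩ := mem_image.1 hl
      obtain ⟨m', hm', rfl⟩ := mem_image.1 hl'
      exact Pi.isUnit_iff.2 fun t =>
        (sub_ne_zero.2 fun e => ne (sl m hm m' hm' t e ▸ rfl)).isUnit) (fun l hl => by
      obtain ⟨m, hm, rfl⟩ := mem_image.1 hl
      obtain ⟨σ, s1, s2⟩ := (mem_filter.1 hm).2
      have cm : ∀ z ∈ (Z.filter (xy · ∈ Γ)).filter fun y => y - (m - σ) ∈ S, ∀ t,
          P' t z 1 / P' t z 2 - P' t m 1 / P' t m 0 * (P' t z 0 / P' t z 2) =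
            -L' t (m - σ) 2 / L' t (m - σ) 1 := fun z hz t =>
        (D t).cm (z2 z (mem_filter.1 (mem_filter.1 hz).1).1 t) (mV m hm).1 (mV m hm).2.1
          (mem_erase.1 s1).2 (mem_erase.1 s1).1 (mem_filter.1 hz).2
      refine ⟨((Z.filter (xy · ∈ Γ)).filter fun y => y - (m - σ) ∈ S).image fun z => (xy z).1,
        image_subset_iff.2 fun z hz => (mem_filter.1 (mem_filter.1 (mem_filter.1 hz).1).2).2.1,
        b₀ - fun t => -L' t (m - σ) 2 / L' t (m - σ) 1, ?_, fun a ha => ?_⟩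
      · rw [card_image_of_injOn fun z hz z' hz' e => by
          have e0 := mul_left_cancel₀ (w0 0) (congrFun e 0)
          exact (D 0).xy (z2 z (mem_filter.1 (mem_filter.1 hz).1).1 0)
            (z2 z' (mem_filter.1 (mem_filter.1 hz').1).1 0) e0 (by
              linear_combination cm z hz 0 - cm z' hz' 0 + P' 0 m 1 / P' 0 m 0 * e0)]
        exact (Nat.lt_mul_div_succ _ M0).le.trans (Nat.mul_le_mul_left _ (mem_filter.1 s2).2)
      · obtain ⟨z, hz, rfl⟩ := mem_image.1 ha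
        convert (mem_filter.1 (mem_filter.1 (mem_filter.1 hz).1).2).2.2 using 1
        ext t
        simp only [xy, Pi.sub_apply, Pi.mul_apply]
        rw [← mul_assoc, div_mul_cancel₀ _ (w0 t), ← cm z hz t]
        ring) fun x hx => (mem_filter.1 hx).2
  obtain ⟨t, t', ne, hF⟩ := same f1 (f2.trans_lt (by
    have := (E.card_jn hu).trans (card_le_univ _)
    obtain ⟨k, hk'⟩ : ∃ k, S.card = k + 1 := ⟨S.card - 1, by omega⟩
    rw [hk'] at this ⊢
    have h := Nat.mul_le_mul_right (k + 1) (show M' + 2 ≤ k by omega)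
    rw [Nat.add_sub_cancel] at this
    nlinarith only [this, h])) fun t => Pi.evalRingHom (fun _ => K) t
  choose C C' hC1 hC2 using fun t => aff (mul_ne_zero (w0 t) (Pi.isUnit_iff.1 f3 t).ne_zero)
    (Pi.isUnit_iff.1 f3 t).ne_zero (a₁ t / (P' t w 1 / P' t w 0)) (b₁ t)
  have n4 : N * (M₁ * M') ≤ 2 * N * (M₁ * M') := Nat.mul_le_mul_right _ (by omega)
  have key := ((D t).E.map (hC1 t)).ext2 ((D t').E.map (hC1 t')) hN (by omega) hp
    (Y := Z.filter (xy · ∈ Γ')) (num6 (M := M₁ * M') k0 (a4.trans ((Nat.mul_le_mul_left _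
      (f5.trans (Nat.mul_le_mul_left _ (pull Γ' (f4.trans (filter_subset _ _)))))).trans_eq
        (mul_assoc _ _ _).symm)) hp (by omega) (by omega)) fun z hz => by
      obtain ⟨z1, z3⟩ := mem_filter.1 hz
      have b3 := hF _ (f6 _ z3).1
      have b4 := hF _ (f6 _ z3).2
      have e : ∀ t x, (x - a₁ t / (P' t w 1 / P' t w 0)) * (P' t w 1 / P' t w 0 * κ t) =
          (P' t w 1 / P' t w 0 * x - a₁ t) * κ t := fun t x => by
        rw [← mul_assoc, sub_mul x, div_mul_cancel₀ _ (w0 t), mul_comm x]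
      simp only [xy, Pi.evalRingHom_apply, Pi.mul_apply, Pi.sub_apply] at b3 b4
      refine ⟨P' t z 2 / P' t' z 2, div_ne_zero (z2 z z1 t) (z2 z z1 t'), ?_⟩
      rw [hC2 t _ (z2 z z1 t), hC2 t' _ (z2 z z1 t'), e, e, b3, b4, smul_smul,
        div_mul_cancel₀ _ (z2 z z1 t')]
  refine ⟨B t' * C t' * (C' t * B' t), t' - t, sub_ne_zero.2 ne.symm, fun y => ?_⟩
  obtain ⟨c, c0, hc⟩ := key (y - t)
  refine ⟨c, c0, ?_⟩
  simp only [hP', sub_add_cancel, mulVec_mulVec] at hc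
  rw [← mulVec_mulVec, hc, mulVec_smul, mulVec_mulVec, mul_assoc, ← mul_assoc (C t'), hC1, one_mul,
    hB, one_mulVec, sub_add_eq_add_sub, add_sub_assoc]

end Pool.Agent.LinSidon
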