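import Mathlib

/-! An almost complete grid with many rich directions lies in a finite subring. -/

namespace Pool.Agent.LinSidon

open Finset

variable {R : Type*} [CommRing R] [DecidableEq R]

/-- The overlap of `B` and `B + h`. -/
def ov (B : Finset R) (h : R) : ℕ := (B.filter fun b => b - h ∈ B).card

theorem ov_neg (B : Finset R) (h : R) : ov B (-h) = ov B h :=
  card_nbij' (· + h) (· - h) (fun b hb => by simpa [and_comm] using hb)
    (fun b hb => by simpa [and_comm] using hb) (fun _ _ => by simp) fun _ _ => by simp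

theorem ov_add (B : Finset R) (h h' : R) : ov B h + ov B h' ≤ ov B (h + h') + B.card := by
  rw [← ov_neg B h, ov, ov, ← card_inter_add_card_union]
  refine add_le_add (card_le_card_of_injOn (· + h) (fun b hb => ?_) fun _ _ _ _ e =>
    add_right_cancel e) (card_le_card (union_subset (filter_subset _ _) (filter_subset _ _)))
  simp only [coe_inter, coe_filter, Set.mem_inter_iff, Set.mem_ofPred_eq, sub_neg_eq_add] at hb ⊢
  exact ⟨hb.1.2, by convert hb.2.2 using 1; ring⟩

theorem sum_ov (B T : Finset R) :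
    ∑ h ∈ T, ov B h = ∑ b ∈ B, (T.filter fun h => b - h ∈ B).card := by
  simp only [ov, card_filter]
  exact sum_comm

theorem card_le_ov (B T : Finset R) (b : R) : (T.filter fun h => b - h ∈ B).card ≤ B.card :=
  card_le_card_of_injOn (b - ·) (fun _ hh => (mem_filter.1 hh).2) fun _ _ _ _ e =>
    sub_right_injective e

theorem meet {E T : Finset R} {h e₁ : R} (h1 : ∀ e ∈ E, e - e₁ ∈ T)
    (h2 : ∀ e ∈ E, h + (e - e₁) ∈ T) (hc : T.card < 2 * E.card) :
    ∃ e ∈ E, ∃ e' ∈ E, h = e - e' := by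
  by_contra hn
  have hd : Disjoint (E.image (· - e₁)) (E.image fun e => h + (e - e₁)) := by
    rw [disjoint_left]
    intro x hx hx'
    obtain ⟨e, he, rfl⟩ := mem_image.1 hx
    obtain ⟨e', he', h3⟩ := mem_image.1 hx'
    exact hn ⟨e, he, e', he', by linear_combination h3⟩
  have := card_le_card (union_subset (image_subset_iff.2 h1) (image_subset_iff.2 h2))
  rw [card_union_of_disjoint hd, card_image_of_injective _ (sub_left_injective),
    card_image_of_injective _ fun _ _ e => sub_left_injective (add_left_cancel e)] at this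
  omega

/-- The shifts with overlap at least `c k / 10`. -/
def sy (B : Finset R) (k c : ℕ) : Finset R :=
  ((B ×ˢ B).image fun x => x.1 - x.2).filter fun h => c * k ≤ 10 * ov B h

theorem mem_sy {B : Finset R} {k c : ℕ} (hk : 0 < k) (hc : 0 < c) {h : R} :
    h ∈ sy B k c ↔ c * k ≤ 10 * ov B h := by
  refine mem_filter.trans (and_iff_right_of_imp fun h1 => ?_)
  obtain ⟨b, hb⟩ := card_pos.1 (show 0 < ov B h by have := Nat.mul_pos hc hk; omega)
  exact mem_image.2 ⟨(b, b - h), mem_product.2 (mem_filter.1 hb), by simp⟩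

theorem card_sy {B : Finset R} {k : ℕ} (c : ℕ) (hk : 0 < k) (hB : B.card ≤ k) :
    c * (sy B k c).card ≤ 10 * k := by
  have h1 : (sy B k c).card * (c * k) ≤ ∑ h ∈ sy B k c, 10 * ov B h :=
    card_nsmul_le_sum _ _ _ fun h hh => (mem_filter.1 hh).2
  rw [← mul_sum, sum_ov] at h1
  have h2 : ∑ b ∈ B, ((sy B k c).filter fun h => b - h ∈ B).card ≤ B.card * k :=
    sum_le_card_nsmul _ _ _ fun b _ => (card_le_ov B _ b).trans hB
  have h3 := Nat.mul_le_mul_right k hB
  exact Nat.le_of_mul_le_mul_right (by nlinarith) hk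

theorem rich {A B C : Finset R} {k : ℕ} {m : R} (hk : 0 < k) (hA : A.card ≤ k) (hB : B.card ≤ k)
    (hC : C.card ≤ k) (h : 99 * k ^ 2 ≤ 100 * ((A ×ˢ B).filter fun x => x.2 - m * x.1 ∈ C).card) :
    ∃ A' ⊆ A, 4 * k ≤ 5 * A'.card ∧ ∀ a ∈ A', ∀ a' ∈ A', m * a - m * a' ∈ sy B k 9 := by
  refine ⟨A.filter fun a => 19 * k ≤ 20 * (B.filter fun b => b - m * a ∈ C).card,
    filter_subset _ _, ?_, fun a ha a' ha' => (mem_sy hk (by omega)).2 ?_⟩
  · rw [card_filter, sum_product] at h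
    simp only [← card_filter] at h
    rw [← sum_filter_add_sum_filter_not A
      fun a => 19 * k ≤ 20 * (B.filter fun b => b - m * a ∈ C).card] at h
    have h1 := card_filter_add_card_filter_not (s := A)
      fun a => 19 * k ≤ 20 * (B.filter fun b => b - m * a ∈ C).card
    have h2 := sum_le_card_nsmul (A.filter
      fun a => 19 * k ≤ 20 * (B.filter fun b => b - m * a ∈ C).card)
      (fun a => (B.filter fun b => b - m * a ∈ C).card) k fun a _ => (card_filter_le _ _).trans hB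
    have h3 := sum_le_card_nsmul (A.filter
      fun a => ¬ 19 * k ≤ 20 * (B.filter fun b => b - m * a ∈ C).card)
      (fun a => 20 * (B.filter fun b => b - m * a ∈ C).card) (19 * k)
      fun a ha => (not_le.1 (mem_filter.1 ha).2).le
    rw [← mul_sum] at h3
    simp only [smul_eq_mul] at h2 h3
    have h4 := Nat.mul_le_mul_right k (h1.le.trans hA)
    exact Nat.le_of_mul_le_mul_right (by nlinarith) hk
  · have e : ∀ a, (B.filter fun b => b - m * a ∈ C).card = (C.filter fun c => c + m * a ∈ B).card :=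
      fun a => card_nbij' (· - m * a) (· + m * a) (fun b hb => by simpa [and_comm] using hb)
        (fun b hb => by simpa [and_comm] using hb) (fun _ _ => by simp) fun _ _ => by simp
    have h1 := (mem_filter.1 ha).2
    have h2 := (mem_filter.1 ha').2
    rw [e] at h1 h2
    have h3 := card_inter_add_card_union (C.filter fun c => c + m * a ∈ B)
      (C.filter fun c => c + m * a' ∈ B)
    have h4 := (card_le_card (union_subset (filter_subset (fun c => c + m * a ∈ B) C)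
      (filter_subset (fun c => c + m * a' ∈ B) C))).trans hC
    have h5 : ((C.filter fun c => c + m * a ∈ B) ∩ C.filter fun c => c + m * a' ∈ B).card ≤
        ov B (m * a - m * a') := by
      refine card_le_card_of_injOn (· + m * a) (fun b hb => ?_) fun _ _ _ _ e => add_right_cancel e
      simp only [coe_inter, coe_filter, Set.mem_inter_iff, Set.mem_ofPred_eq] at hb ⊢
      exact ⟨hb.1.2, by convert hb.2.2 using 1; ring⟩
    omega

theorem grid {A B M : Finset R} {k : ℕ} (hk : 5 ≤ k) (hA : A.card ≤ k) (hB : B.card ≤ k)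
    (hM : k ≤ M.card + 2) (uM : ∀ m ∈ M, IsUnit m)
    (uA : ∀ a ∈ A, ∀ a' ∈ A, a ≠ a' → IsUnit (a - a'))
    (h : ∀ m ∈ M, ∃ C : Finset R, C.card ≤ k ∧
      99 * k ^ 2 ≤ 100 * ((A ×ˢ B).filter fun x => x.2 - m * x.1 ∈ C).card) :
    ∃ (F : Subring R) (T A' B' : Finset R) (a₀ b₀ κ₁ κ₂ : R), (∀ f ∈ F, f ∈ T) ∧ T.card ≤ 2 * k ∧
      A' ⊆ A ∧ B' ⊆ B ∧ 4 * k ≤ 5 * A'.card ∧ 7 * k ≤ 10 * B'.card ∧ IsUnit κ₁ ∧ IsUnit κ₂ ∧
      (∀ a ∈ A', (a - a₀) * κ₁ ∈ F) ∧ ∀ b ∈ B', (b - b₀) * κ₂ ∈ F := by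
  have k0 : 0 < k := by omega
  have h' : ∀ m ∈ M, ∃ A' ⊆ A, 4 * k ≤ 5 * A'.card ∧
      ∀ a ∈ A', ∀ a' ∈ A', m * a - m * a' ∈ sy B k 9 := fun m hm => by
    obtain ⟨C, h1, h2⟩ := h m hm
    exact rich k0 hA hB h1 h2
  choose! A' s1 s2 s3 using h'
  obtain ⟨m₀, hm₀⟩ := card_pos.1 (show 0 < M.card by omega)
  obtain ⟨n₀, hn₀⟩ := (uM m₀ hm₀).exists_right_inv
  have c0 := s2 m₀ hm₀
  obtain ⟨a₀, ha₀, a₁, ha₁, h01⟩ := one_lt_card.1 (show 1 < (A' m₀).card by omega)
  have inj : Function.Injective (m₀ * ·) := (uM m₀ hm₀).mul_right_injective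
  have c9 := card_sy 9 k0 hB
  have c7 := card_sy 7 k0 hB
  have neg : ∀ h ∈ sy B k 9, -h ∈ sy B k 9 := fun h hh => by
    rwa [mem_sy k0 (by omega), ov_neg, ← mem_sy k0 (by omega)]
  have add : ∀ h ∈ sy B k 9, ∀ h' ∈ sy B k 9, h + h' ∈ sy B k 9 := fun h hh h' hh' => by
    rw [mem_sy k0 (by omega)] at hh hh'
    obtain ⟨e, he, e', he', h3⟩ := meet (E := (A' m₀).image (m₀ * ·)) (T := sy B k 7)
      (h := h + h') (e₁ := m₀ * a₀) (fun e he => by
        obtain ⟨a, ha, rfl⟩ := mem_image.1 he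
        have := (mem_sy k0 (by omega)).1 (s3 m₀ hm₀ a ha a₀ ha₀)
        rw [mem_sy k0 (by omega)]
        omega) (fun e he => by
        obtain ⟨a, ha, rfl⟩ := mem_image.1 he
        have := (mem_sy k0 (by omega)).1 (s3 m₀ hm₀ a ha a₀ ha₀)
        have := ov_add B h h'
        have := ov_add B (h + h') (m₀ * a - m₀ * a₀)
        rw [mem_sy k0 (by omega)]
        omega) (by rw [card_image_of_injective _ inj]; omega)
    obtain ⟨a, ha, rfl⟩ := mem_image.1 he
    obtain ⟨a', ha', rfl⟩ := mem_image.1 he'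
    exact h3 ▸ s3 m₀ hm₀ a ha a' ha'
  have zero : (0 : R) ∈ sy B k 9 := by simpa using s3 m₀ hm₀ a₀ ha₀ a₀ ha₀
  let F : Subring R :=
    { carrier := {f | ∀ h ∈ sy B k 9, f * h ∈ sy B k 9}
      mul_mem' := fun {a b} ha hb h hh => by rw [mul_assoc]; exact ha _ (hb h hh)
      one_mem' := fun h hh => by rwa [one_mul]
      add_mem' := fun {a b} ha hb h hh => by rw [add_mul]; exact add _ (ha h hh) _ (hb h hh)
      zero_mem' := fun h _ => by rwa [zero_mul]
      neg_mem' := fun {a} ha h hh => by rw [neg_mul]; exact neg _ (ha h hh) }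
  have mF : ∀ m ∈ M, m * n₀ ∈ F := fun m hm h hh => by
    have c1 := s2 m hm
    have c2 := card_inter_add_card_union (A' m₀) (A' m)
    have c3 := (card_le_card (union_subset (s1 m₀ hm₀) (s1 m hm))).trans hA
    obtain ⟨a₂, ha₂⟩ := card_pos.1 (show 0 < (A' m₀ ∩ A' m).card by omega)
    have c4 : ∀ e ∈ (A' m₀ ∩ A' m).image (m₀ * ·), e - m₀ * a₂ ∈ sy B k 9 := fun e he => by
      obtain ⟨a, ha, rfl⟩ := mem_image.1 he
      exact s3 m₀ hm₀ a (mem_inter.1 ha).1 a₂ (mem_inter.1 ha₂).1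
    obtain ⟨e, he, e', he', rfl⟩ := meet c4 (fun e he => add h hh _ (c4 e he))
      (by rw [card_image_of_injective _ inj]; omega)
    obtain ⟨a, ha, rfl⟩ := mem_image.1 he
    obtain ⟨a', ha', rfl⟩ := mem_image.1 he'
    convert s3 m hm a (mem_inter.1 ha).2 a' (mem_inter.1 ha').2 using 1
    linear_combination (m * a - m * a') * hn₀
  have u0 : IsUnit (m₀ * a₀ - m₀ * a₁) := by
    rw [← mul_sub]
    exact (uM m₀ hm₀).mul (uA a₀ (s1 m₀ hm₀ ha₀) a₁ (s1 m₀ hm₀ ha₁) h01)
  have g0 := s3 m₀ hm₀ a₀ ha₀ a₁ ha₁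
  generalize m₀ * a₀ - m₀ * a₁ = h₀ at u0 g0
  obtain ⟨κ, hκ⟩ := u0.exists_right_inv
  have uκ : IsUnit κ := IsUnit.of_mul_eq_one h₀ (by rw [mul_comm, hκ])
  have HF : ∀ h ∈ sy B k 9, h * κ ∈ F := fun h hh => by
    have c4 : ∀ e ∈ M.image (· * (n₀ * h₀)), e - 0 ∈ sy B k 9 := fun e he => by
      obtain ⟨m, hm, rfl⟩ := mem_image.1 he
      rw [sub_zero, ← mul_assoc]
      exact mF m hm h₀ g0
    obtain ⟨e, he, e', he', rfl⟩ := meet c4 (fun e he => add h hh _ (c4 e he)) (by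
      rw [card_image_of_injective _ ((IsUnit.of_mul_eq_one m₀ (by rw [mul_comm, hn₀])).mul
        u0).mul_left_injective]
      omega)
    obtain ⟨m, hm, rfl⟩ := mem_image.1 he
    obtain ⟨m', hm', rfl⟩ := mem_image.1 he'
    convert F.sub_mem (mF m hm) (mF m' hm') using 1
    linear_combination (m * n₀ - m' * n₀) * hκ
  obtain ⟨b₀, -, hb₀⟩ : ∃ b ∈ B, 7 * k ≤ 10 * ((sy B k 9).filter fun h => b - h ∈ B).card := by
    by_contra hn
    push Not at hn
    have h1 : (sy B k 9).card * (9 * k) ≤ ∑ h ∈ sy B k 9, 10 * ov B h :=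
      card_nsmul_le_sum _ _ _ fun h hh => (mem_filter.1 hh).2
    rw [← mul_sum, sum_ov, mul_sum] at h1
    have h2 : ∑ b ∈ B, 10 * ((sy B k 9).filter fun h => b - h ∈ B).card ≤ B.card * (7 * k) :=
      sum_le_card_nsmul _ _ _ fun b hb => (hn b hb).le
    have h3 : (A' m₀).card ≤ (sy B k 9).card := card_le_card_of_injOn (m₀ * · - m₀ * a₀)
      (fun a ha => s3 m₀ hm₀ a ha a₀ ha₀) fun _ _ _ _ e => inj (sub_left_injective e)
    have h4 := Nat.mul_le_mul_right k hB
    have h5 := Nat.mul_le_mul_right k (c0.trans (Nat.mul_le_mul_left 5 h3))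
    nlinarith
  refine ⟨F, (sy B k 9).image (· * κ), A' m₀,
    ((sy B k 9).filter fun h => b₀ - h ∈ B).image (b₀ - ·), a₀, b₀, m₀ * κ, κ, fun f hf =>
    mem_image.2 ⟨f * h₀, hf h₀ g0, by rw [mul_assoc, hκ, mul_one]⟩,
    card_image_le.trans (by omega), s1 m₀ hm₀, image_subset_iff.2 fun h hh => (mem_filter.1 hh).2,
    c0, by rwa [card_image_of_injective _ sub_right_injective], (uM m₀ hm₀).mul uκ, uκ,
    fun a ha => ?_, fun b hb => ?_⟩
  · convert HF _ (s3 m₀ hm₀ a ha a₀ ha₀) using 1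
    ring
  · obtain ⟨h, hh, rfl⟩ := mem_image.1 hb
    convert HF _ (neg h (mem_filter.1 hh).1) using 1
    ring

end Pool.Agent.LinSidon
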