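import Pool.Agent.Lib.MP_982bd8_co.Add

/-! Pigeonhole lemmas and a form of the Balog-Szemeredi-Gowers theorem. -/

namespace Pool.Agent.LinSidon

open Finset
open scoped Pointwise

theorem big_term {β : Type*} {t : Finset β} (ht : t.Nonempty) (g : β → ℕ) :
    ∃ b ∈ t, ∑ x ∈ t, g x ≤ t.card * g b := by
  obtain ⟨b, hb, h⟩ := exists_max_image t g ht
  exact ⟨b, hb, sum_le_card_nsmul _ _ _ h⟩

theorem big_fiber {α β : Type*} [DecidableEq β] {s : Finset α} {t : Finset β} (ht : t.Nonempty)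
    {f : α → β} (h : ∀ x ∈ s, f x ∈ t) : ∃ b ∈ t, s.card ≤ t.card * (s.filter (f · = b)).card := by
  rw [card_eq_sum_card_fiberwise (f := f) (t := t) h]
  exact big_term ht _

theorem fiber_cs {α β : Type*} [DecidableEq β] {s : Finset α} {t : Finset β} {f : α → β}
    (h : ∀ x ∈ s, f x ∈ t) :
    s.card ^ 2 ≤ t.card * ((s ×ˢ s).filter fun x => f x.1 = f x.2).card := by
  rw [card_eq_sum_card_fiberwise (f := f) (t := t) h,
    card_eq_sum_card_fiberwise (f := fun x => f x.1) (t := t) fun x hx =>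
      h _ (mem_product.1 (mem_filter.1 hx).1).1]
  refine sq_sum_le_card_mul_sum_sq.trans (Nat.mul_le_mul_left _ (sum_le_sum fun b _ => ?_))
  rw [sq, ← card_product]
  refine card_le_card fun x hx => ?_
  simp only [mem_product, mem_filter] at hx ⊢
  exact ⟨⟨⟨hx.1.1, hx.2.1⟩, hx.1.2.trans hx.2.2.symm⟩, hx.1.2⟩

theorem sum_card_swap {α β : Type*} (s : Finset α) (t : Finset β) (r : α → β → Prop)
    [∀ a b, Decidable (r a b)] :
    ∑ a ∈ s, (t.filter (r a)).card = ∑ b ∈ t, (s.filter (r · b)).card := by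
  simp only [card_filter]
  exact sum_comm

theorem card_prod_filter {α β : Type*} (s : Finset α) (t : Finset β) (r : α × β → Prop)
    [DecidablePred r] :
    ((s ×ˢ t).filter r).card = ∑ a ∈ s, (t.filter fun b => r (a, b)).card := by
  simp only [card_filter, sum_product]

variable {R : Type*} [CommRing R] [DecidableEq R]

theorem sum_ov_le (B T : Finset R) : ∑ h ∈ T, ov B h ≤ B.card * B.card := by
  rw [sum_ov]
  exact sum_le_card_nsmul _ _ _ fun b _ => card_le_ov B T b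

theorem bsg_core {A B C : Finset R} {Γ : Finset (R × R)} {k N : ℕ} (hk : 0 < k) (hA : A.card ≤ k)
    (hB : B.card ≤ k) (hC : C.card ≤ k) (h1 : ∀ x ∈ Γ, x.2 - x.1 ∈ C)
    (h2 : k ^ 2 ≤ 2 * N * ∑ b ∈ B, (A.filter fun a => (a, b) ∈ Γ).card) :
    ∃ A₀ ⊆ A, k ≤ 4 * N * A₀.card ∧ (A₀ - A₀).card ≤ 98304 * N ^ 5 * k := by
  let bad : R → R → Prop := fun a a' =>
    128 * N ^ 2 * (B.filter fun b => (a, b) ∈ Γ ∧ (a', b) ∈ Γ).card < k
  let nb : R → Finset R := fun b => A.filter fun a => (a, b) ∈ Γ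
  obtain ⟨b, -, hb⟩ : ∃ b ∈ B, k ^ 2 + 128 * N ^ 2 *
      ((nb b ×ˢ nb b).filter fun x => bad x.1 x.2).card ≤ 8 * N ^ 2 * (nb b).card ^ 2 := by
    by_contra hn
    push Not at hn
    have hne : B.Nonempty := nonempty_iff_ne_empty.2 fun h => by
      rw [h, sum_empty] at h2
      have := pow_pos hk 2
      omega
    have a1 := sum_lt_sum_of_nonempty hne hn
    rw [← mul_sum, sum_add_distrib, sum_const, smul_eq_mul, ← mul_sum] at a1
    have a2 : (∑ b ∈ B, (nb b).card) ^ 2 ≤ k * ∑ b ∈ B, (nb b).card ^ 2 :=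
      sq_sum_le_card_mul_sum_sq.trans (Nat.mul_le_mul_right _ hB)
    have a3 : ∑ b ∈ B, ((nb b ×ˢ nb b).filter fun x => bad x.1 x.2).card =
        ∑ x ∈ (A ×ˢ A).filter fun x => bad x.1 x.2,
          (B.filter fun b => (x.1, b) ∈ Γ ∧ (x.2, b) ∈ Γ).card := by
      rw [sum_card_swap]
      refine sum_congr rfl fun b _ => congrArg card ?_
      ext x
      simp only [nb, mem_filter, mem_product]
      tauto
    have a4 : 128 * N ^ 2 * ∑ b ∈ B, ((nb b ×ˢ nb b).filter fun x => bad x.1 x.2).card ≤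
        k * k * k := by
      rw [a3, mul_sum]
      refine (sum_le_card_nsmul _ _ k fun x hx => (mem_filter.1 hx).2.le).trans
        (Nat.mul_le_mul_right k ((card_filter_le _ _).trans ?_))
      rw [card_product]
      exact Nat.mul_le_mul hA hA
    have a5 := Nat.mul_le_mul_right (k ^ 2) hB
    have a6 := Nat.pow_le_pow_left h2 2
    have a7 : k * (2 * k ^ 3) ≤ k * (8 * N ^ 2 * ∑ b ∈ B, (nb b).card ^ 2) := by
      have := Nat.mul_le_mul_left (8 * N ^ 2) a2
      nlinarith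
    have := Nat.le_of_mul_le_mul_left a7 hk
    nlinarith
  have N0 : 0 < N := Nat.pos_of_ne_zero fun h => by
    rw [h] at h2
    have := pow_pos hk 2
    omega
  have b1 : k ≤ 3 * N * (nb b).card := by
    refine (Nat.pow_le_pow_iff_left two_ne_zero).1 ?_
    nlinarith
  have b2 : 16 * ((nb b ×ˢ nb b).filter fun x => bad x.1 x.2).card ≤ (nb b).card ^ 2 :=
    Nat.le_of_mul_le_mul_left (by nlinarith) (show 0 < 8 * N ^ 2 by positivity)
  have sA : nb b ⊆ A := filter_subset _ _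
  generalize nb b = U at b1 b2 sA
  have U0 : 0 < U.card := Nat.pos_of_ne_zero fun h => by rw [h] at b1; omega
  refine ⟨U.filter fun a => 4 * (U.filter (bad a)).card ≤ U.card, (filter_subset _ _).trans sA,
    ?_, ?_⟩
  · have c1 := card_filter_add_card_filter_not (s := U)
      fun a => 4 * (U.filter (bad a)).card ≤ U.card
    have c2 : (U.filter fun a => ¬ 4 * (U.filter (bad a)).card ≤ U.card).card * U.card ≤
        ∑ a ∈ U, 4 * (U.filter (bad a)).card :=
      (card_nsmul_le_sum _ _ _ fun a ha => (not_le.1 (mem_filter.1 ha).2).le).trans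
        (sum_le_sum_of_subset (filter_subset _ _))
    rw [← mul_sum] at c2
    rw [card_prod_filter] at b2
    have c3 : 4 * (U.filter fun a => ¬ 4 * (U.filter (bad a)).card ≤ U.card).card ≤ U.card :=
      Nat.le_of_mul_le_mul_right (by nlinarith) U0
    have c4 : 3 * U.card ≤ 4 * (U.filter fun a => 4 * (U.filter (bad a)).card ≤ U.card).card := by
      omega
    nlinarith
  set A₀ := U.filter fun a => 4 * (U.filter (bad a)).card ≤ U.card with hA₀
  set Q := (C - C).filter fun h => k ≤ 128 * N ^ 2 * ov C h with hQ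
  have q1 : Q.card ≤ 128 * N ^ 2 * k := by
    have c1 : Q.card * k ≤ ∑ h ∈ Q, 128 * N ^ 2 * ov C h :=
      card_nsmul_le_sum _ _ _ fun h hh => (mem_filter.1 hh).2
    rw [← mul_sum] at c1
    have c2 := Nat.mul_le_mul_left (128 * N ^ 2) ((sum_ov_le C Q).trans (Nat.mul_le_mul hC hC))
    exact Nat.le_of_mul_le_mul_right (by nlinarith) hk
  have q2 : ∀ a a', ¬ bad a a' → a' - a ∈ Q := fun a a' h => by
    have c1 : (B.filter fun b => (a, b) ∈ Γ ∧ (a', b) ∈ Γ).card ≤ ov C (a' - a) :=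
      card_le_card_of_injOn (· - a) (fun b hb => mem_coe.2 (mem_filter.2
        ⟨h1 _ (mem_filter.1 hb).2.1, by simpa using h1 _ (mem_filter.1 hb).2.2⟩))
        sub_left_injective.injOn
    have c2 := (not_lt.1 h).trans (Nat.mul_le_mul_left _ c1)
    obtain ⟨c, hc⟩ := card_pos.1 (Nat.pos_of_mul_pos_left (hk.trans_le c2))
    exact mem_filter.2 ⟨mem_sub.2 ⟨c, (mem_filter.1 hc).1, _, (mem_filter.1 hc).2, by ring⟩, c2⟩
  have q3 : (A₀ - A₀).card * U.card ≤ ∑ d ∈ A₀ - A₀, 2 * ov Q d :=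
    card_nsmul_le_sum _ _ _ fun d hd => by
      obtain ⟨a, ha, a', ha', rfl⟩ := mem_sub.1 hd
      have c1 := (mem_filter.1 ha).2
      have c2 := (mem_filter.1 ha').2
      have c3 := card_filter_add_card_filter_not (s := U) fun x => bad a x ∨ bad a' x
      have c4 : (U.filter fun x => bad a x ∨ bad a' x).card ≤
          (U.filter (bad a)).card + (U.filter (bad a')).card := by
        rw [filter_or]
        exact card_union_le _ _
      have c5 : (U.filter fun x => ¬ (bad a x ∨ bad a' x)).card ≤ ov Q (a - a') :=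
        card_le_card_of_injOn (· - a') (fun x hx => mem_coe.2 (mem_filter.2
          ⟨q2 _ _ (not_or.1 (mem_filter.1 hx).2).2,
            by simpa using q2 _ _ (not_or.1 (mem_filter.1 hx).2).1⟩)) sub_left_injective.injOn
      omega
  rw [← mul_sum] at q3
  have q4 := (sum_ov_le Q (A₀ - A₀)).trans (Nat.mul_le_mul q1 q1)
  have q5 := Nat.mul_le_mul_left (A₀ - A₀).card b1
  have q6 := Nat.mul_le_mul_left (3 * N) (q3.trans (Nat.mul_le_mul_left 2 q4))
  exact Nat.le_of_mul_le_mul_right (by nlinarith) hk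

theorem bsg {A B C : Finset R} {Γ : Finset (R × R)} {k N : ℕ} (hk : 0 < k) (hA : A.card ≤ k)
    (hB : B.card ≤ k) (hC : C.card ≤ k) (h0 : Γ ⊆ A ×ˢ B) (h1 : ∀ x ∈ Γ, x.2 - x.1 ∈ C)
    (h2 : k ^ 2 ≤ N * Γ.card) :
    ∃ A₀ ⊆ A, ∃ b₀, k ≤ 4 * N * A₀.card ∧ (A₀ - A₀).card ≤ 98304 * N ^ 5 * k ∧
      k ^ 2 ≤ 64 * N ^ 4 * (Γ.filter fun x => x.1 ∈ A₀ ∧ x.2 - b₀ ∈ A₀ - A₀).card := by
  let P : R → Prop := fun a => k ≤ 2 * N * (B.filter fun b => (a, b) ∈ Γ).card
  have e : Γ.card = ∑ a ∈ A, (B.filter fun b => (a, b) ∈ Γ).card := by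
    rw [← card_prod_filter A B (· ∈ Γ), filter_mem_eq_inter, inter_eq_right.2 h0]
  obtain ⟨A₀, s1, s2, s3⟩ := bsg_core (A := A.filter P) (N := N) hk
    ((card_filter_le _ _).trans hA) hB hC h1 (by
      rw [← sum_card_swap (A.filter P) B fun a b => (a, b) ∈ Γ]
      rw [e, ← sum_filter_add_sum_filter_not A P] at h2
      have c1 : ∑ a ∈ A.filter (¬ P ·), 2 * N * (B.filter fun b => (a, b) ∈ Γ).card ≤ k * k :=
        (sum_le_card_nsmul _ _ k fun a ha => (not_le.1 (mem_filter.1 ha).2).le).trans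
          (Nat.mul_le_mul_right k ((card_filter_le _ _).trans hA))
      rw [← mul_sum] at c1
      nlinarith)
  set Γ₂ := (A₀ ×ˢ B).filter (· ∈ Γ) with hΓ
  have c1 : A₀.card * k ≤ 2 * N * Γ₂.card := by
    rw [hΓ, card_prod_filter, mul_sum]
    exact card_nsmul_le_sum _ _ _ fun a ha => (mem_filter.1 (s1 ha)).2
  have c2 := fiber_cs (s := Γ₂) (t := C) (f := fun x => x.2 - x.1) fun x hx =>
    h1 x (mem_filter.1 hx).2
  have c3 : ((Γ₂ ×ˢ Γ₂).filter fun x => x.1.2 - x.1.1 = x.2.2 - x.2.1).card ≤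
      ((B ×ˢ Γ).filter fun y => y.2.1 ∈ A₀ ∧ y.2.2 - y.1 ∈ A₀ - A₀).card := by
    refine card_le_card_of_injOn (fun x => (x.1.2, x.2)) (fun x hx => ?_) fun x hx y hy e => ?_
    · simp only [hΓ, coe_filter, mem_product, mem_filter, Set.mem_ofPred_eq] at hx ⊢
      exact ⟨⟨hx.1.1.1.2, hx.1.2.2⟩, hx.1.2.1.1,
        mem_sub.2 ⟨_, hx.1.2.1.1, _, hx.1.1.1.1, by linear_combination hx.2⟩⟩
    · have a := (mem_filter.1 hx).2
      have b := (mem_filter.1 hy).2
      obtain ⟨e1, e2⟩ := Prod.mk.inj e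
      rw [e2, ← b, e1] at a
      exact Prod.ext (Prod.ext (sub_right_injective a) e1) e2
  have hne : B.Nonempty := nonempty_iff_ne_empty.2 fun h => by
    rw [e, h] at h2
    have := pow_pos hk 2
    simp at h2
    omega
  obtain ⟨b₀, -, c4⟩ := big_term hne
    fun b => (Γ.filter fun x : R × R => x.1 ∈ A₀ ∧ x.2 - b ∈ A₀ - A₀).card
  rw [card_prod_filter B Γ] at c3
  refine ⟨A₀, s1.trans (filter_subset _ _), b₀, s2, s3, ?_⟩
  have c5 := c2.trans (Nat.mul_le_mul hC ((c3.trans c4).trans (Nat.mul_le_mul_right _ hB)))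
  have c6 : k ^ 2 ≤ 8 * N ^ 2 * Γ₂.card := by
    have := Nat.mul_le_mul_right k s2
    have := Nat.mul_le_mul_left (4 * N) c1
    nlinarith
  have c7 := Nat.pow_le_pow_left c6 2
  have c8 := Nat.mul_le_mul_left (64 * N ^ 4) c5
  exact Nat.le_of_mul_le_mul_left (by nlinarith) (pow_pos hk 2)

end Pool.Agent.LinSidon
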