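import Pool.Agent.Lib.MP_982bd8_co.Lat

/-! The main dichotomy for sums of three geometric progressions. -/

namespace Pool.Agent.LinSidon

open Polynomial Finset

variable {K : Type*} [Field K]

theorem det_eq {p u v α β τ w : ℤ} (hτ : 0 ≤ τ) (hu : 6 * τ + 4 ≤ u) (hv : 6 * τ + 4 ≤ v)
    (hu' : u < w) (hv' : v < w) (hα : |α| ≤ τ) (hβ : |β| ≤ τ) (hw : (w + τ) ^ 2 < 2 * p)
    (h : p ∣ u * v + β * u + β * α) : u * v + β * u + β * α = p := by
  have h1 : |β * α| ≤ τ * τ := by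
    rw [abs_mul]
    exact mul_le_mul hβ hα (abs_nonneg _) hτ
  rw [abs_le] at hα hβ h1
  have h2 : 0 < u * v + β * u + β * α := by nlinarith
  have h3 : u * v + β * u + β * α < 2 * p := by nlinarith
  obtain ⟨k, hk⟩ := h
  have hp : 0 < p := by nlinarith [sq_nonneg (w + τ)]
  rw [hk] at h2 h3 ⊢
  have h4 : 0 < k := (mul_pos_iff_of_pos_left hp).1 h2
  have h5 : k < 2 := by nlinarith
  obtain rfl : k = 1 := by omega
  ring

theorem not_prime {p : ℕ} (hp : p.Prime) {r t : ℤ} (hr : 2 ≤ r) (ht : 2 ≤ t) :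
    (p : ℤ) ≠ r * t := by
  intro h
  lift r to ℕ using by omega
  lift t to ℕ using by omega
  exact Nat.not_prime_mul (a := r) (b := t) (by omega) (by omega) ((by exact_mod_cast h) ▸ hp)

theorem cases27 {p q : ℕ} (hp : p.Prime) (hq : 3 ≤ q) {a₀ a₁ a₂ b₀ b₁ b₂ : ℕ} (u0 : Un a₀ b₀)
    (u1 : Un a₁ b₁) (u2 : Un a₂ b₂)
    (h : (p : ℤ) = (q + a₂ - a₀) * (q + b₂ - b₁) - (a₂ - a₁) * (b₂ - b₀)) :
    p = q ^ 2 + q + 1 := by
  have n1 := not_prime hp (r := q) (t := q) (by omega) (by omega)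
  have n2 := not_prime hp (r := q) (t := q + 1) (by omega) (by omega)
  have n3 := not_prime hp (r := q) (t := q - 1) (by omega) (by omega)
  have n4 := not_prime hp (r := q - 1) (t := q + 1) (by omega) (by omega)
  have n5 := not_prime hp (r := q - 1) (t := q - 1) (by omega) (by omega)
  zify
  rcases u0 with ⟨rfl, rfl⟩ | ⟨rfl, rfl⟩ | ⟨rfl, rfl⟩ <;>
    rcases u1 with ⟨rfl, rfl⟩ | ⟨rfl, rfl⟩ | ⟨rfl, rfl⟩ <;>
    rcases u2 with ⟨rfl, rfl⟩ | ⟨rfl, rfl⟩ | ⟨rfl, rfl⟩ <;> push_cast at h <;>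
    first
      | linear_combination h
      | exact absurd (by linear_combination h) n1
      | exact absurd (by linear_combination h) n2
      | exact absurd (by linear_combination h) n3
      | exact absurd (by linear_combination h) n4
      | exact absurd (by linear_combination h) n5

theorem Dat.core {p : ℕ} {a b c x y z : K} {S : Finset ℕ} (D : Dat p a b c x y z S) {s w : ℕ}
    (hw : 0 < w) (hp : (w + s ^ 2) ^ 2 < 2 * p) (H1 : w + s * p / w + s ^ 2 < s * S.card)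
    (H2 : 7 * s ^ 2 + 4 ≤ S.card) (H3 : w + 3 * s ^ 2 + 1 < 2 * S.card) :
    ∃ q, Fr K q ∧ p = q ^ 2 + q + 1 := by
  obtain ⟨u, e, α, A, A0, u0, u1, hα⟩ := D.strip hw H1
  obtain ⟨v, f, β, B, B0, v0, v1, hβ⟩ := D.rot.strip hw H1
  obtain ⟨t, g, γ, G, G0, t0, t1, hγ⟩ := D.rot.rot.strip hw H1
  generalize s ^ 2 = τ at *
  have low : ∀ {u e α : ℤ}, u + e + α = 0 → 0 ≤ u → |α| ≤ τ →
      |u| ≤ (u.toNat + τ : ℕ) ∧ |e| ≤ (u.toNat + τ : ℕ) ∧ |α| ≤ (u.toNat + τ : ℕ) := by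
    intro u e α h1 h2 h3
    simp only [abs_le] at h3 ⊢
    omega
  have lu := D.lo A A0 (low A.1 u0 hα).1 (low A.1 u0 hα).2.1 (low A.1 u0 hα).2.2
  have lv := D.rot.lo B B0 (low B.1 v0 hβ).1 (low B.1 v0 hβ).2.1 (low B.1 v0 hβ).2.2
  have lt := D.rot.rot.lo G G0 (low G.1 t0 hγ).1 (low G.1 t0 hγ).2.1 (low G.1 t0 hγ).2.2
  obtain rfl : e = -u - α := by have := A.1; omega
  obtain rfl : f = -v - β := by have := B.1; omega
  obtain rfl : g = -t - γ := by have := G.1; omega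
  have hp' : ((w : ℤ) + τ) ^ 2 < 2 * p := by exact_mod_cast hp
  have d1 := det_eq (p := p) (τ := τ) (by omega) (by omega) (by omega) u1 v1 hα hβ hp'
    (by convert D.det A B.rot using 1; ring)
  have d2 := det_eq (p := p) (τ := τ) (by omega) (by omega) (by omega) v1 t1 hβ hγ hp'
    (by convert D.det B.rot G.rot.rot using 1; ring)
  have d3 := det_eq (p := p) (τ := τ) (by omega) (by omega) (by omega) t1 u1 hγ hα hp'
    (by convert D.det G.rot.rot A using 1; ring)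
  have p0 : (p : ℤ) ≠ 0 := by exact_mod_cast D.pr.ne_zero
  have s1 : u + β - t - γ = 0 := mul_left_cancel₀ p0 (by
    linear_combination (-u) * d2 - β * d3 + (t + γ) * d1)
  have s2 : -u - α + v + γ = 0 := mul_left_cancel₀ p0 (by
    linear_combination (u + α) * d2 - v * d3 - γ * d1)
  rw [abs_le] at hα hβ hγ
  obtain ⟨m₀, hm₀⟩ := Int.eq_ofNat_of_zero_le (show 0 ≤ u + τ by omega)
  obtain ⟨m₂, hm₂⟩ := Int.eq_ofNat_of_zero_le (show 0 ≤ τ - β by omega)
  obtain ⟨n₁, hn₁⟩ := Int.eq_ofNat_of_zero_le (show 0 ≤ u + α + τ by omega)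
  obtain ⟨n₂, hn₂⟩ := Int.eq_ofNat_of_zero_le (show 0 ≤ γ + τ by omega)
  rcases D.bd 2 1 (w + 3 * τ) ![m₀, τ, m₂] ![τ, n₁, n₂] ((x / z) ^ m₂ * (y / z) ^ n₂)
    (by simp [sum_range_succ]) (fun j => by fin_cases j <;> simp <;> omega) (fun j => by
      fin_cases j
      · refine (D.la_nat (e₃ := -t) (by simp; omega)).1 ?_
        convert G.rot.rot.neg using 1 <;> simp <;> omega
      · refine (D.la_nat (e₃ := -v - β) (by simp; omega)).1 ?_
        convert B.rot using 1 <;> simp <;> omega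
      · rfl) with h4 | ⟨κ, β', h4, h5, h6, h7⟩
  · omega
  obtain ⟨a', b', q, hu, hq, e1, e2, e3, e4⟩ := lin_rel (B := 2 * τ) h4 h5 h6 (by simp; omega)
    (by simp; omega) (by simp; omega) (by simp; omega) (by simp; omega) (by simp; omega) h7
  simp only [Matrix.cons_val_zero, Matrix.cons_val_one, Matrix.cons_val] at e1 e2 e3 e4
  refine ⟨q, hq, cases27 D.pr ?_ (hu 0) (hu 1) (hu 2) ?_⟩
  · have := hu 1
    have := hu 2
    unfold Un at *
    omega
  · rw [← d1, show (q : ℤ) + a' 2 - a' 0 = u + β by omega, show (q : ℤ) + b' 2 - b' 1 = v by omega,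
      show (a' 2 : ℤ) - a' 1 = β by omega, show (b' 2 : ℤ) - b' 0 = -γ by omega]
    linear_combination (-β) * s2

end Pool.Agent.LinSidon
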