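import Pool.Agent.Lib.MP_982bd8_co.Sub

/-! A positive proportion of a grid with many rich directions lies in a finite subring. -/

namespace Pool.Agent.LinSidon

open Finset
open scoped Pointwise

theorem cm_one {R : Type*} [CommRing R] [DecidableEq R] {A X : Finset R} {M : ℕ} {l x₀ : R}
    (hA : A.Nonempty) (h2 : (A - A).card ≤ M ^ 2 * A.card) (hl : IsUnit l) (hX : X ⊆ A)
    (h3 : A.card ≤ M * X.card) (h4 : ∀ a ∈ X, l * a - x₀ ∈ A - A) : Cm A (M ^ 19 + 3) 1 l := by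
  obtain ⟨a₀, h0⟩ := id hA
  have t := ruzsa_triangle_inequality_sub_sub_sub A (X.image (l * ·)) (A.image (l * ·))
  have c1 := pr8 (T := A - X.image (l * ·)) hA h2 (x₀ - a₀) fun x hx => by
    obtain ⟨a, ha, _, hb', rfl⟩ := mem_sub.1 hx
    obtain ⟨b, hb, rfl⟩ := mem_image.1 hb'
    obtain ⟨a₁, p1, a₂, p2, e⟩ := mem_sub.1 (h4 b hb)
    exact ⟨a, ha, a₂, p2, a₀, h0, a₀, h0, a₁, p1, a₀, h0, a₀, h0, a₀, h0, by
      linear_combination e⟩
  rw [card_dil hl, card_image_of_injective _ hl.mul_right_injective] at t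
  have c2 := t.trans (Nat.mul_le_mul c1 ((card_le_card (sub_subset_sub_left hX)).trans
    (h2.trans (Nat.mul_le_mul_left _ h3))))
  have c3 : 0 < X.card := Nat.pos_of_mul_pos_left (hA.card_pos.trans_le h3)
  refine (Nat.le_of_mul_le_mul_right (c2.trans_eq ?_) c3).trans
    (Nat.mul_le_mul_right _ (show M ^ 19 ≤ (M ^ 19 + 3) ^ 1 by simp))
  ring

theorem pair {α β : Type*} [DecidableEq α] {A : Finset α} {Λ : Finset β} {X : β → Finset α}
    {M k : ℕ} (h1 : A.card ≤ k) (h2 : 2 * M ≤ k) (h3 : Λ.Nonempty) (hk : 0 < k)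
    (hX : ∀ l ∈ Λ, X l ⊆ A ∧ k ≤ M * (X l).card) : ∃ a ∈ A, ∃ a' ∈ A, a ≠ a' ∧
      Λ.card ≤ 2 * M ^ 2 * (Λ.filter fun l => a ∈ X l ∧ a' ∈ X l).card := by
  have c : ∀ l ∈ Λ, k ^ 2 ≤ 2 * M ^ 2 * (A.offDiag.filter fun x => x ∈ (X l).offDiag).card :=
    fun l hl => by
      rw [filter_mem_eq_inter, inter_eq_right.2 (offDiag_mono (hX l hl).1), offDiag_card]
      have := (hX l hl).2
      obtain ⟨n, hn⟩ : ∃ n, (X l).card = n + 2 := ⟨(X l).card - 2, by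
        have : 2 ≤ (X l).card := by
          by_contra h
          have := Nat.mul_le_mul_left M (show (X l).card ≤ 1 by omega)
          omega
        omega⟩
      rw [hn] at this ⊢
      rw [show (n + 2) * (n + 2) - (n + 2) = (n + 2) * (n + 1) from
        Nat.sub_eq_of_eq_add (by ring)]
      have := Nat.pow_le_pow_left this 2
      nlinarith [Nat.zero_le (M ^ 2 * n), Nat.zero_le (M ^ 2 * n ^ 2)]
  obtain ⟨l, hl⟩ := id h3
  have ne : A.offDiag.Nonempty := by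
    have := c l hl
    refine (card_pos.1 ?_).mono (filter_subset (fun x => x ∈ (X l).offDiag) _)
    exact Nat.pos_of_mul_pos_left ((pow_pos hk 2).trans_le this)
  obtain ⟨x, hx, h⟩ := big_term ne fun x => (Λ.filter fun l => x ∈ (X l).offDiag).card
  obtain ⟨x1, x2, x3⟩ := mem_offDiag.1 hx
  refine ⟨x.1, x1, x.2, x2, x3, ?_⟩
  rw [← sum_card_swap Λ A.offDiag fun l x => x ∈ (X l).offDiag] at h
  have c1 := card_nsmul_le_sum _ _ _ c
  rw [← mul_sum, smul_eq_mul] at c1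
  have c2 : A.offDiag.card ≤ k ^ 2 := by
    rw [offDiag_card, sq]
    exact (Nat.sub_le _ _).trans (Nat.mul_le_mul h1 h1)
  have c3 : (Λ.filter fun l => x ∈ (X l).offDiag).card ≤
      (Λ.filter fun l => x.1 ∈ X l ∧ x.2 ∈ X l).card :=
    card_le_card (monotone_filter_right _ fun l _ hl =>
      ⟨(mem_offDiag.1 hl).1, (mem_offDiag.1 hl).2.1⟩)
  refine Nat.le_of_mul_le_mul_right (c1.trans ((Nat.mul_le_mul_left _
    (h.trans (Nat.mul_le_mul c2 c3))).trans_eq (by ring))) (pow_pos hk 2)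

theorem ring_of {R : Type*} [CommRing R] [DecidableEq R] {A Λ : Finset R} {Q : ℕ} {h₀ : R}
    (hA : A.Nonempty) (hQ : 3 ≤ Q) (h1 : Cm A Q 1 1) (u0 : IsUnit h₀) (h2 : Λ.Nonempty)
    (hΛ : ∀ l ∈ Λ, l * h₀ ∈ A - A - (A - A)) (hs : 2 * (Q ^ 265) ^ 8 * A.card ≤ Λ.card ^ 2)
    (h3 : ∀ l ∈ Λ, Cm A Q 1 l) (h4 : ∀ l ∈ Λ, ∀ l' ∈ Λ, l ≠ l' → IsUnit (l - l')) :
    ∃ (F : Subring R) (T : Finset R), (∀ f ∈ F, f ∈ T) ∧ T.card ≤ 2 * (Q ^ 265) ^ 8 * A.card ∧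
      ∀ l ∈ Λ, l ∈ F := by
  classical
  let D := ((Λ ×ˢ Λ) ×ˢ Λ ×ˢ Λ).filter fun x => x.1.2 ≠ x.2.2
  let r : (R × R) × R × R → R := fun x => Ring.inverse (x.1.2 - x.2.2) * (x.1.1 - x.2.1)
  have g : ∀ ξ, Cm A Q 264 ξ →
      Λ.card ^ 4 ≤ 2 * (Q ^ 265) ^ 8 * A.card * (D.filter (r · = ξ)).card := fun ξ h =>
    (gap hA hQ (h1.mono hQ (by omega)) u0 hΛ hs h).trans (Nat.mul_le_mul_left _
      (card_le_card fun x hx => by
        obtain ⟨x1, x2, x3⟩ := mem_filter.1 hx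
        refine mem_filter.2 ⟨mem_filter.2 ⟨x1, x2⟩, ?_⟩
        simp only [mem_product] at x1
        simp only [r]
        rw [x3, mul_comm, mul_assoc, Ring.mul_inverse_cancel _ (h4 _ x1.1.2 _ x1.2.2 x2),
          mul_one]))
  have g1 : ∀ ξ, Cm A Q 264 ξ → ∃ x ∈ D, r x = ξ := fun ξ h => by
    obtain ⟨x, hx⟩ := card_pos.1 (Nat.pos_of_mul_pos_left
      ((pow_pos h2.card_pos 4).trans_le (g ξ h)))
    exact ⟨x, mem_filter.1 hx⟩
  have g2 : ∀ ξ, Cm A Q 264 ξ → Cm A Q 32 ξ ∧ (ξ = 0 ∨ IsUnit ξ) := fun ξ h => by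
    obtain ⟨x, hx, rfl⟩ := g1 ξ h
    obtain ⟨x1, x2⟩ := mem_filter.1 hx
    simp only [mem_product] at x1
    have e := Ring.mul_inverse_cancel _ (h4 _ x1.1.2 _ x1.2.2 x2)
    have u := IsUnit.of_mul_eq_one _ ((mul_comm _ _).trans e)
    refine ⟨Cm.mul hA u (Cm.inv e (Cm.sub hA hQ h1 (h3 _ x1.1.2) (h3 _ x1.2.2)))
      (Cm.sub hA hQ h1 (h3 _ x1.1.1) (h3 _ x1.2.1)), ?_⟩
    by_cases h : x.1.1 = x.2.1
    · exact Or.inl (by simp [r, h])
    · exact Or.inr (u.mul (h4 _ x1.1.1 _ x1.2.1 h))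
  have one := h1.mono hQ (show 1 ≤ 32 by omega)
  have sub : ∀ ξ η, Cm A Q 32 ξ → Cm A Q 32 η → Cm A Q 32 (ξ - η) := fun ξ η a b =>
    (g2 _ (Cm.sub hA hQ one a b)).1
  have zero : Cm A Q 32 0 := by simpa using sub 1 1 one one
  have neg : ∀ ξ, Cm A Q 32 ξ → Cm A Q 32 (-ξ) := fun ξ a => by simpa using sub 0 ξ zero a
  refine ⟨{ carrier := {f | Cm A Q 32 f}
            mul_mem' := fun {a b} ha hb => ?_
            one_mem' := one
            add_mem' := fun {a b} ha hb => by simpa using sub a (-b) ha (neg b hb)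
            zero_mem' := zero
            neg_mem' := fun {a} ha => neg a ha }, (D.image r).filter (Cm A Q 264), fun f hf => ?_,
    ?_, fun l hl => (h3 l hl).mono hQ (by omega)⟩
  · rcases (g2 a (Cm.mono ha hQ (by omega))).2 with rfl | h
    · simpa using zero
    · exact (g2 _ ((Cm.mul hA h ha hb).mono hQ (by omega))).1
  · have := Cm.mono hf hQ (show 32 ≤ 264 by omega)
    exact mem_filter.2 ⟨mem_image.2 (g1 f this), this⟩
  · have c1 := card_nsmul_le_sum _ _ _ fun ξ (h : ξ ∈ (D.image r).filter (Cm A Q 264)) =>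
      g ξ (mem_filter.1 h).2
    rw [← mul_sum, smul_eq_mul] at c1
    have c2 : ∑ ξ ∈ (D.image r).filter (Cm A Q 264), (D.filter (r · = ξ)).card ≤ Λ.card ^ 4 :=
      (sum_le_sum_of_subset (filter_subset _ _)).trans
        ((card_eq_sum_card_image r D).symm.trans_le ((card_filter_le _ _).trans_eq (by
          simp only [card_product]
          ring)))
    exact Nat.le_of_mul_le_mul_right (c1.trans (Nat.mul_le_mul_left _ c2))
      (pow_pos h2.card_pos 4)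

theorem subring.{u} (M : ℕ) : ∃ k₀ M' : ℕ, ∀ (R : Type u) [CommRing R] [DecidableEq R]
    (A Λ : Finset R) (Γ : Finset (R × R)) (b₀ : R) (k : ℕ), k₀ ≤ k → A.card ≤ k →
    k ≤ M * A.card → (A - A).card ≤ M * k → k ≤ M * Λ.card → Γ.Nonempty →
    (∀ a ∈ A, ∀ a' ∈ A, a ≠ a' → IsUnit (a - a')) → (∀ l ∈ Λ, IsUnit l) →
    (∀ l ∈ Λ, ∀ l' ∈ Λ, l ≠ l' → IsUnit (l - l')) →
    (∀ l ∈ Λ, ∃ X ⊆ A, ∃ x₀, k ≤ M * X.card ∧ ∀ a ∈ X, l * a - x₀ ∈ A - A) →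
    (∀ x ∈ Γ, x.1 ∈ A ∧ x.2 - b₀ ∈ A - A) →
    ∃ (F : Subring R) (T : Finset R) (κ a₁ b₁ : R), (∀ f ∈ F, f ∈ T) ∧ T.card ≤ M' * k ∧
      IsUnit κ ∧ ∃ Γ' ⊆ Γ, Γ.card ≤ M' * Γ'.card ∧
        ∀ x ∈ Γ', (x.1 - a₁) * κ ∈ F ∧ (x.2 - b₁) * κ ∈ F := by
  obtain ⟨q, hq⟩ : ∃ q, q = 2 * ((M ^ 19 + 3) ^ 265) ^ 8 := ⟨_, rfl⟩
  refine ⟨(2 * M ^ 3) ^ 2 * q + 2 * M + 1, q + (2 * M ^ 19) ^ 2,
    fun R _ _ A Λ Γ b₀ k h0 h1 h2 h3 h4 hΓ uA uΛ uΛ' hX h5 => ?_⟩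
  classical
  have k0 : 0 < k := by omega
  have hA : A.Nonempty := card_pos.1 (Nat.pos_of_mul_pos_left (k0.trans_le h2))
  have h6 : (A - A).card ≤ M ^ 2 * A.card :=
    h3.trans ((Nat.mul_le_mul_left M h2).trans_eq (by ring))
  choose! X X1 x₀ X2 X3 using hX
  obtain ⟨a, ha, a', ha', ne, h7⟩ := pair (Λ := Λ) (X := X) h1 (show 2 * M ≤ k by omega)
    (card_pos.1 (Nat.pos_of_mul_pos_left (k0.trans_le h4))) k0 fun l hl => ⟨X1 l hl, X2 l hl⟩
  set Λ' := Λ.filter fun l => a ∈ X l ∧ a' ∈ X l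
  have h8 : k ≤ 2 * M ^ 3 * Λ'.card :=
    h4.trans ((Nat.mul_le_mul_left M h7).trans_eq (by ring))
  have h9 : ∀ l ∈ Λ', l * (a - a') ∈ A - A - (A - A) := fun l hl => by
    obtain ⟨l1, l2, l3⟩ := mem_filter.1 hl
    convert sub_mem_sub (X3 l l1 a l2) (X3 l l1 a' l3) using 1
    ring
  have M0 : 0 < M := Nat.pos_of_mul_pos_right (k0.trans_le h2)
  obtain ⟨F, T, f1, f2, f3⟩ := ring_of (Λ := Λ') (Q := M ^ 19 + 3) hA (by omega) (by
      refine le_trans ?_ (h6.trans (Nat.mul_le_mul_right _ ?_))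
      · simp
      · rw [pow_one]
        exact (Nat.pow_le_pow_right M0 (by omega)).trans (Nat.le_add_right _ _))
    (uA a ha a' ha' ne) (card_pos.1 (Nat.pos_of_mul_pos_left (k0.trans_le h8))) h9 (by
      rw [← hq]
      refine Nat.le_of_mul_le_mul_left ?_ (pow_pos (Nat.mul_pos two_pos (pow_pos M0 3)) 2)
      rw [← mul_pow, ← mul_assoc]
      exact (Nat.mul_le_mul (by omega) h1).trans ((sq k).symm.trans_le (Nat.pow_le_pow_left h8 2)))
    (fun l hl => cm_one hA h6 (uΛ l (mem_filter.1 hl).1) (X1 l (mem_filter.1 hl).1)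
      (h1.trans (X2 l (mem_filter.1 hl).1)) (X3 l (mem_filter.1 hl).1))
    fun l hl l' hl' => uΛ' l (mem_filter.1 hl).1 l' (mem_filter.1 hl').1
  rw [← hq] at f2
  obtain ⟨κ, hκ⟩ := (uA a ha a' ha' ne).exists_right_inv
  let W : AddSubgroup R := F.toAddSubgroup.comap (AddMonoidHom.mulRight κ)
  have c1 := cosets (W := W) (E := A - A) (V := Λ'.image (· * (a - a'))) fun v hv => by
    obtain ⟨l, hl, rfl⟩ := mem_image.1 hv
    change l * (a - a') * κ ∈ F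
    rw [mul_assoc, hκ, mul_one]
    exact f3 l hl
  have c2 := pr8 (T := A - A + Λ'.image (· * (a - a'))) hA h6 0 fun x hx => by
    obtain ⟨_, p, _, p', rfl⟩ := mem_add.1 hx
    obtain ⟨l, hl, rfl⟩ := mem_image.1 p'
    have b := h9 l hl
    simp only [mem_sub, exists_exists_and_exists_and_eq_and] at p b
    obtain ⟨a₁, p1, a₂, p2, rfl⟩ := p
    obtain ⟨b₁, q1, b₂, q2, b₃, q3, b₄, q4, b⟩ := b
    exact ⟨_, p1, _, q1, _, q4, a, ha, _, p2, _, q2, _, q3, a, ha, by rw [← b]; ring⟩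
  rw [card_image_of_injective Λ' (uA a ha a' ha' ne).mul_left_injective] at c1
  set E := (A - A).image (QuotientAddGroup.mk : R → R ⧸ W)
  have c3 : E.card ≤ 2 * M ^ 19 := Nat.le_of_mul_le_mul_right ((c1.trans c2).trans
    ((Nat.mul_le_mul_left _ (h1.trans h8)).trans_eq (by ring)))
    (Nat.pos_of_mul_pos_left (k0.trans_le h8))
  have mem : ∀ x ∈ Γ, ((QuotientAddGroup.mk (x.1 - a) : R ⧸ W),
      (QuotientAddGroup.mk (x.2 - b₀) : R ⧸ W)) ∈ E ×ˢ E := fun x hx =>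
    mem_product.2 ⟨mem_image_of_mem _ (sub_mem_sub (h5 x hx).1 ha), mem_image_of_mem _ (h5 x hx).2⟩
  obtain ⟨⟨c, d⟩, -, c4⟩ := big_fiber ⟨_, mem _ hΓ.choose_spec⟩ mem
  obtain ⟨c, rfl⟩ := QuotientAddGroup.mk_surjective c
  obtain ⟨d, rfl⟩ := QuotientAddGroup.mk_surjective d
  refine ⟨F, T, κ, a + c, b₀ + d, f1, f2.trans (Nat.mul_le_mul (Nat.le_add_right _ _) h1),
    IsUnit.of_mul_eq_one _ ((mul_comm _ _).trans hκ), _, filter_subset _ _, c4.trans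
      (Nat.mul_le_mul_right _ ?_), fun x hx => ?_⟩
  · rw [card_product, ← sq]
    exact (Nat.pow_le_pow_left c3 2).trans (Nat.le_add_left _ _)
  · obtain ⟨e1, e2⟩ := Prod.ext_iff.1 (mem_filter.1 hx).2
    rw [← sub_sub, ← sub_sub]
    exact ⟨QuotientAddGroup.eq_iff_sub_mem.1 e1, QuotientAddGroup.eq_iff_sub_mem.1 e2⟩

end Pool.Agent.LinSidon
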