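import Pool.Agent.Lib.MP_982bd8_co.Add

/-! Realisations of the development of a set in a projective plane over a field. -/

namespace Pool.Agent.LinSidon

open Finset Matrix

variable {K : Type*} [Field K] {G : Type} [AddCommGroup G]

/-- Two independent vectors. -/
def Ind (x y : Fin 3 → K) : Prop := ∀ s t : K, s • x + t • y = 0 → s = 0 ∧ t = 0

theorem Ind.ne {x y : Fin 3 → K} (h : Ind x y) : x ≠ 0 := fun h0 =>
  one_ne_zero (h 1 0 (by simp [h0])).1

theorem not4 {l l' Q Q' : Fin 3 → K} (hl : Ind l l') (hQ : Ind Q Q') (h1 : l ⬝ᵥ Q = 0)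
    (h2 : l ⬝ᵥ Q' = 0) (h3 : l' ⬝ᵥ Q = 0) (h4 : l' ⬝ᵥ Q' = 0) : False := by
  have n0 : crossProduct Q Q' ≠ 0 :=
    crossProduct_ne_zero_iff_linearIndependent.2 (LinearIndependent.pair_iff.2 hQ)
  have key : ∀ l : Fin 3 → K, l ⬝ᵥ Q = 0 → l ⬝ᵥ Q' = 0 → ∃ a : K, a • crossProduct Q Q' = l := by
    intro l h1 h2
    by_contra hn
    refine crossProduct_ne_zero_iff_linearIndependent.2
      ((LinearIndependent.pair_iff' n0).2 fun a ha => hn ⟨a, ha⟩) ?_
    rw [cross_cross_eq_smul_sub_smul, dotProduct_comm Q, dotProduct_comm Q', h1, h2]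
    simp
  obtain ⟨a, rfl⟩ := key l h1 h2
  obtain ⟨b, rfl⟩ := key l' h3 h4
  have := hl b (-a) (by rw [smul_smul, smul_smul, ← add_smul]; ring_nf; simp)
  exact hl.ne (by rw [neg_eq_zero.1 this.2, zero_smul])

theorem prop_of {l l' Q Q' : Fin 3 → K} (hl : Ind l l') (h0 : Q ≠ 0) (h0' : Q' ≠ 0)
    (h1 : l ⬝ᵥ Q = 0) (h2 : l ⬝ᵥ Q' = 0) (h3 : l' ⬝ᵥ Q = 0) (h4 : l' ⬝ᵥ Q' = 0) :
    ∃ c : K, c ≠ 0 ∧ Q = c • Q' := by
  by_contra hn
  refine not4 hl (fun s t hst => ?_) h1 h2 h3 h4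
  have hs : s = 0 := by
    by_contra hs
    have e : Q = (-t / s) • Q' := by
      rw [div_eq_inv_mul, ← smul_smul, eq_inv_smul_iff₀ hs, neg_smul]
      exact eq_neg_of_add_eq_zero_left hst
    exact hn ⟨_, fun h => h0 (by rw [e, h, zero_smul]), e⟩
  rw [hs, zero_smul, zero_add] at hst
  exact ⟨hs, (smul_eq_zero.1 hst).resolve_right h0'⟩

theorem sub_of {a b c d z : G} (e : a + (z - b) = c + (z - d)) : a - b = c - d := by
  linear_combination (norm := abel1) e

/-- A realisation of the points `x` and the lines `S + t`. -/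
structure Emb (S : Finset G) (P L : G → Fin 3 → K) : Prop where
  pt : ∀ x y, x ≠ y → Ind (P x) (P y)
  ln : ∀ x y, x ≠ y → Ind (L x) (L y)
  inc : ∀ t x, x - t ∈ S → L t ⬝ᵥ P x = 0

/-- Normal form with respect to the line `0` and the points `u`, `v`. -/
structure Nf (P L : G → Fin 3 → K) (u v : G) : Prop where
  l0 : L 0 0 = 0
  l1 : L 0 1 = 0
  u0 : P u 0 = 0
  u2 : P u 2 = 0
  v1 : P v 1 = 0
  v2 : P v 2 = 0

/-- `z` is joined to `u` by a line different from the line `0`. -/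
def Jn (S : Finset G) (u z : G) : Prop := ∃ σ ∈ S, σ ≠ u ∧ z - (u - σ) ∈ S ∧ z ≠ u

namespace Emb

variable {S : Finset G} {P L : G → Fin 3 → K} (E : Emb S P L)
include E

theorem shift (t : G) : Emb S (fun x => P (x + t)) fun x => L (x + t) :=
  ⟨fun _ _ h => E.pt _ _ (by simpa using h), fun _ _ h => E.ln _ _ (by simpa using h),
    fun _ _ h => E.inc _ _ (by simpa using h)⟩

theorem map {B B' : Matrix (Fin 3) (Fin 3) K} (h : B * B' = 1) :
    Emb S (fun x => B' *ᵥ P x) fun x => L x ᵥ* B :=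
  ⟨fun x y hxy s t e => E.pt x y hxy s t (by
      simpa [mulVec_add, mulVec_smul, h] using congrArg (B *ᵥ ·) e),
    fun x y hxy s t e => E.ln x y hxy s t (by
      simpa [add_vecMul, smul_vecMul, h] using congrArg (· ᵥ* B') e),
    fun t x hx => by
      rw [dotProduct_mulVec, vecMul_vecMul, h, vecMul_one]
      exact E.inc t x hx⟩

theorem sid {s σ s' σ' : G} (h1 : s ∈ S) (h2 : σ ∈ S) (h3 : s' ∈ S) (h4 : σ' ∈ S) (hne : s ≠ σ)
    (e : s - σ = s' - σ') : s = s' ∧ σ = σ' := by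
  have : s = s' := by
    by_contra hn
    refine not4 (E.ln 0 (s - σ) (sub_ne_zero.2 hne).symm) (E.pt s s' hn) (E.inc _ _ (by simpa))
      (E.inc _ _ (by simpa)) (E.inc _ _ (by simpa)) (E.inc _ _ (by rw [e]; simpa))
  exact ⟨this, by simpa [this] using e⟩

theorem off {u v : G} (hu : u ∈ S) (hv : v ∈ S) (huv : u ≠ v) : ∃ z, L 0 ⬝ᵥ P z ≠ 0 := by
  by_contra hn
  push Not at hn
  exact not4 (E.ln 0 (u - v) (sub_ne_zero.2 huv).symm) (E.pt (u + (u - v)) (v + (u - v))
    fun h => huv (add_right_cancel h)) (hn _) (hn _) (E.inc _ _ (by simpa)) (E.inc _ _ (by simpa))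

theorem norm {u v : G} (hu : u ∈ S) (hv : v ∈ S) (huv : u ≠ v) :
    ∃ B B' : Matrix (Fin 3) (Fin 3) K, B * B' = 1 ∧
      Nf (fun x => B' *ᵥ P x) (fun x => L x ᵥ* B) u v := by
  obtain ⟨z, hz⟩ := E.off hu hv huv
  have iu := E.inc 0 u (by simpa)
  have iv := E.inc 0 v (by simpa)
  set B : Matrix (Fin 3) (Fin 3) K := (of ![P v, P u, P z])ᵀ with hB
  have e : ∀ y : Fin 3 → K, B *ᵥ y = y 0 • P v + y 1 • P u + y 2 • P z := fun y => by
    ext i
    simp [hB, mulVec, dotProduct, Fin.sum_univ_three, mul_comm]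
  have hd : IsUnit B.det := by
    refine Ne.isUnit fun h => ?_
    obtain ⟨y, y0, hy⟩ := exists_mulVec_eq_zero_iff.2 h
    rw [e] at hy
    have h2 : y 2 = 0 := by simpa [iu, iv, hz] using congrArg (L 0 ⬝ᵥ ·) hy
    rw [h2, zero_smul, add_zero] at hy
    have := E.pt v u huv.symm _ _ hy
    refine y0 (funext fun i => ?_)
    fin_cases i
    exacts [this.1, this.2, h2]
  have e1 : B⁻¹ *ᵥ P u = ![0, 1, 0] := by
    rw [show P u = B *ᵥ ![0, 1, 0] by simp [e], mulVec_mulVec, nonsing_inv_mul _ hd, one_mulVec]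
  have e2 : B⁻¹ *ᵥ P v = ![1, 0, 0] := by
    rw [show P v = B *ᵥ ![1, 0, 0] by simp [e], mulVec_mulVec, nonsing_inv_mul _ hd, one_mulVec]
  exact ⟨B, B⁻¹, mul_nonsing_inv _ hd, by simpa [hB, vecMul] using iv,
    by simpa [hB, vecMul] using iu, by simp [e1], by simp [e1], by simp [e2], by simp [e2]⟩

open scoped Classical in
theorem card_jn [Fintype G] {u : G} (hu : u ∈ S) :
    (S.card - 1) * (S.card - 1) ≤ (univ.filter (Jn S u)).card := by
  have : (S.card - 1) * (S.card - 1) = ((S.erase u).sigma fun σ => S.erase σ).card := by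
    rw [card_sigma, sum_congr rfl fun σ hσ => card_erase_of_mem (mem_of_mem_erase hσ), sum_const,
      card_erase_of_mem hu, smul_eq_mul]
  rw [this]
  refine card_le_card_of_injOn (fun x => x.2 + (u - x.1)) (fun x hx => ?_) fun x hx y hy e => ?_
  · simp only [coe_sigma, Set.mem_sigma_iff, coe_erase, Set.mem_sdiff, mem_coe,
      Set.mem_singleton_iff] at hx
    exact mem_coe.2 (mem_filter.2 ⟨mem_univ _, x.1, hx.1.1, hx.1.2, by simpa using hx.2.1,
      fun h => hx.2.2 (by simpa [add_sub, sub_eq_iff_eq_add, add_comm] using h)⟩)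
  · simp only [coe_sigma, Set.mem_sigma_iff, coe_erase, Set.mem_sdiff, mem_coe,
      Set.mem_singleton_iff] at hx hy
    have := E.sid hx.2.1 hx.1.1 hy.2.1 hy.1.1 hx.2.2 (sub_of e)
    exact Sigma.ext this.2 (heq_of_eq this.1)

theorem ext [Fintype G] [DecidableEq G] {P' L' : G → Fin 3 → K} (E' : Emb S P' L') {Y : Finset G}
    (hY : Yᶜ.card < (S.card - 1) * (S.card - 2)) (h : ∀ z ∈ Y, ∃ c : K, c ≠ 0 ∧ P z = c • P' z)
    (z : G) : ∃ c : K, c ≠ 0 ∧ P z = c • P' z := by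
  by_cases hc : 1 < (S.filter fun σ => 1 < (S.filter fun s => s + (z - σ) ∈ Y).card).card
  · obtain ⟨σ, h1, σ', h2, h3⟩ := one_lt_card.1 hc
    have key : ∀ σ ∈ S.filter fun σ => 1 < (S.filter fun s => s + (z - σ) ∈ Y).card,
        L' (z - σ) ⬝ᵥ P z = 0 := fun σ hσ => by
      obtain ⟨s, a1, s', a2, a3⟩ := one_lt_card.1 (mem_filter.1 hσ).2
      have b : ∀ s ∈ S.filter fun s => s + (z - σ) ∈ Y,
          P' (s + (z - σ)) ⬝ᵥ L (z - σ) = 0 ∧ P' (s + (z - σ)) ⬝ᵥ L' (z - σ) = 0 := fun s hs => by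
        obtain ⟨c, c0, hc⟩ := h _ (mem_filter.1 hs).2
        have := E.inc (z - σ) (s + (z - σ)) (by simpa using (mem_filter.1 hs).1)
        rw [hc, dotProduct_smul, smul_eq_zero, or_iff_right c0] at this
        exact ⟨by rwa [dotProduct_comm], by
          rw [dotProduct_comm]; exact E'.inc _ _ (by simpa using (mem_filter.1 hs).1)⟩
      have ne : z - σ ≠ z - σ + (s - s') := by simpa [sub_eq_zero] using a3
      obtain ⟨c, -, hc⟩ := prop_of (E'.pt (s + (z - σ)) (s' + (z - σ)) (by simpa using a3))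
        (E'.ln _ _ ne).ne (E.ln _ _ ne).ne (b s a1).2 (b s a1).1 (b s' a2).2 (b s' a2).1
      rw [hc, smul_dotProduct, E.inc _ _ (by simpa using (mem_filter.1 hσ).1), smul_zero]
    have ne : z ≠ z + (σ - σ') := by simpa [sub_eq_zero] using h3
    exact prop_of (E'.ln (z - σ) (z - σ') (by simpa using h3)) (E.pt _ _ ne).ne (E'.pt _ _ ne).ne
      (key σ h1) (E'.inc _ _ (by simpa using (mem_filter.1 h1).1)) (key σ' h2)
      (E'.inc _ _ (by simpa using (mem_filter.1 h2).1))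
  exfalso
  have h1 := card_filter_add_card_filter_not (s := S)
    fun σ => 1 < (S.filter fun s => s + (z - σ) ∈ Y).card
  set N := S.filter fun σ => ¬ 1 < (S.filter fun s => s + (z - σ) ∈ Y).card with hN
  have h2 : (N.sigma fun σ => (S.erase σ).filter fun s => s + (z - σ) ∉ Y).card ≤ Yᶜ.card := by
    refine card_le_card_of_injOn (fun x => x.2 + (z - x.1)) (fun x hx => ?_) fun x hx y hy e => ?_
    · exact mem_coe.2 (mem_compl.2 (mem_filter.1 (mem_sigma.1 hx).2).2)
    · have a := mem_sigma.1 hx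
      have b := mem_sigma.1 hy
      have a2 := mem_erase.1 (mem_filter.1 a.2).1
      have := E.sid a2.2 (mem_filter.1 a.1).1 (mem_erase.1 (mem_filter.1 b.2).1).2
        (mem_filter.1 b.1).1 a2.1 (sub_of e)
      exact Sigma.ext this.2 (heq_of_eq this.1)
  have h3 : N.card * (S.card - 2) ≤
      ∑ σ ∈ N, ((S.erase σ).filter fun s => s + (z - σ) ∉ Y).card :=
    card_nsmul_le_sum _ _ _ fun σ hσ => by
      have a := mem_filter.1 hσ
      have := card_filter_add_card_filter_not (s := S.erase σ) fun s => s + (z - σ) ∈ Y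
      have := card_le_card (filter_subset_filter (fun s => s + (z - σ) ∈ Y) (erase_subset σ S))
      have := card_erase_of_mem a.1
      omega
  rw [card_sigma] at h2
  have := Nat.mul_le_mul_right (S.card - 2) (show S.card - 1 ≤ N.card by omega)
  omega

end Emb

end Pool.Agent.LinSidon
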