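import Pool.Agent.Lib.MP_982bd8_co.Rel

/-! The lattice of multiplicative relations. -/

namespace Pool.Agent.LinSidon

open Polynomial Finset

variable {K : Type*} [Field K]

/-- A set of zeros of a nondegenerate sum of three geometric progressions. -/
structure Dat (p : ℕ) (a b c x y z : K) (S : Finset ℕ) : Prop where
  pr : p.Prime
  a0 : a ≠ 0
  b0 : b ≠ 0
  c0 : c ≠ 0
  x0 : x ≠ 0
  y0 : y ≠ 0
  z0 : z ≠ 0
  xy : x ≠ y
  yz : y ≠ z
  zx : z ≠ x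
  px : x ^ p = z ^ p
  py : y ^ p = z ^ p
  lt : ∀ i ∈ S, i < p
  eq : ∀ i ∈ S, a * x ^ i + b * y ^ i + c * z ^ i = 0

/-- The relation lattice. -/
def La (x y z : K) (e₁ e₂ e₃ : ℤ) : Prop := e₁ + e₂ + e₃ = 0 ∧ x ^ e₁ * y ^ e₂ * z ^ e₃ = 1

theorem La.rot {x y z : K} {e₁ e₂ e₃ : ℤ} (h : La y z x e₁ e₂ e₃) : La x y z e₃ e₁ e₂ :=
  ⟨by linear_combination h.1, by linear_combination h.2⟩

theorem La.neg {x y z : K} {e₁ e₂ e₃ : ℤ} (h : La x y z e₁ e₂ e₃) : La x y z (-e₁) (-e₂) (-e₃) :=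
  ⟨by linear_combination -h.1, by
    rw [zpow_neg, zpow_neg, zpow_neg, ← mul_inv, ← mul_inv, h.2, inv_one]⟩

theorem prim {p : ℕ} (hp : p.Prime) {x z : K} (z0 : z ≠ 0) (h : x ≠ z) (e : x ^ p = z ^ p) :
    IsPrimitiveRoot (x / z) p := by
  have := Fact.mk hp
  have h1 := orderOf_eq_prime (x := x / z) (p := p) (by
    rw [div_pow, e, div_self (pow_ne_zero _ z0)]) fun h' => h ((div_eq_one_iff_eq z0).1 h')
  exact h1 ▸ IsPrimitiveRoot.orderOf (x / z)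

theorem two_rel {c₀ c₁ : K} {A₀ A₁ B₀ B₁ : ℕ} (hc : c₀ ≠ 0 ∨ c₁ ≠ 0)
    (h : mo c₀ A₀ B₀ + mo c₁ A₁ B₁ = 0) : A₀ = A₁ ∧ B₀ = B₁ := by
  have e0 : mo c₀ A₀ B₀ = -mo c₁ A₁ B₁ := by linear_combination h
  have e1 : mo c₁ A₁ B₁ = -mo c₀ A₀ B₀ := by linear_combination h
  have h0 : c₀ ≠ 0 := fun h' => mo_ne (hc.resolve_left fun h'' => h'' h') A₁ B₁ (by
    rw [e1, h']; simp [mo])
  have h1 : c₁ ≠ 0 := fun h' => mo_ne h0 A₀ B₀ (by rw [e0, h']; simp [mo])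
  exact ⟨le_antisymm (le0 (B := B₁) h1 (by rw [e1, dvd_neg]; exact dvd0 _ (Or.inr le_rfl)))
      (le0 (B := B₀) h0 (by rw [e0, dvd_neg]; exact dvd0 _ (Or.inr le_rfl))),
    le_antisymm (le1 (A := A₁) h1 (by rw [e1, dvd_neg]; exact dvd1 _ (Or.inr le_rfl)))
      (le1 (A := A₀) h0 (by rw [e0, dvd_neg]; exact dvd1 _ (Or.inr le_rfl)))⟩

namespace Dat

variable {p : ℕ} {a b c x y z : K} {S : Finset ℕ} (D : Dat p a b c x y z S)
include D

theorem rot : Dat p b c a y z x S :=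
  ⟨D.pr, D.b0, D.c0, D.a0, D.y0, D.z0, D.x0, D.yz, D.zx, D.xy, D.py.trans D.px.symm, D.px.symm,
    D.lt, fun i hi => by linear_combination D.eq i hi⟩

theorem la_iff {e₁ e₂ e₃ : ℤ} (h : e₁ + e₂ + e₃ = 0) :
    La x y z e₁ e₂ e₃ ↔ (x / z) ^ e₁ * (y / z) ^ e₂ = 1 := by
  obtain rfl : e₃ = -(e₁ + e₂) := by omega
  rw [La, and_iff_right h, div_zpow, div_zpow, zpow_neg, zpow_add₀ D.z0, div_mul_div_comm,
    div_eq_mul_inv]

theorem la_nat {m n m' n' : ℕ} {e₃ : ℤ} (h : (m - m' : ℤ) + (n - n') + e₃ = 0) :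
    La x y z (m - m') (n - n') e₃ ↔ (x / z) ^ m * (y / z) ^ n = (x / z) ^ m' * (y / z) ^ n' := by
  have u0 := div_ne_zero D.x0 D.z0
  have w0 := div_ne_zero D.y0 D.z0
  rw [D.la_iff h, zpow_sub₀ u0, zpow_sub₀ w0, div_mul_div_comm, div_eq_one_iff_eq
    (mul_ne_zero (zpow_ne_zero _ u0) (zpow_ne_zero _ w0))]
  simp only [zpow_natCast]

theorem det {e₁ e₂ e₃ f₁ f₂ f₃ : ℤ} (h : La x y z e₁ e₂ e₃) (h' : La x y z f₁ f₂ f₃) :
    (p : ℤ) ∣ e₁ * f₂ - f₁ * e₂ := by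
  have u0 := div_ne_zero D.x0 D.z0
  rw [← (prim D.pr D.z0 D.zx.symm D.px).zpow_eq_one_iff_dvd, zpow_sub₀ u0, zpow_mul, zpow_mul,
    eq_inv_of_mul_eq_one_left ((D.la_iff h.1).1 h), eq_inv_of_mul_eq_one_left ((D.la_iff h'.1).1 h'),
    inv_zpow, inv_zpow, ← zpow_mul, ← zpow_mul, mul_comm e₂, div_self]
  exact inv_ne_zero (zpow_ne_zero _ (div_ne_zero D.y0 D.z0))

theorem bd {ι : Type} [Fintype ι] (s τ δ : ℕ) (m n : ι → ℕ) (ω : K)
    (hc : ∑ r ∈ range s, (τ + r + 1) < Fintype.card ι * (τ + 1)) (hδ : ∀ j, m j + n j ≤ δ)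
    (hω : ∀ j, (x / z) ^ m j * (y / z) ^ n j = ω) :
    s * S.card ≤ δ + τ ∨ ∃ (κ : ι → K) (β : ι → K[X]), (∀ j, κ j ≠ 0) ∧
      (∀ j, (β j).natDegree ≤ τ) ∧ (∃ j, β j ≠ 0) ∧ ∑ j, β j * mo (κ j) (m j) (n j) = 0 := by
  classical
  have a0 : -a / c ≠ 0 := div_ne_zero (neg_ne_zero.2 D.a0) D.c0
  have b0 : b / c ≠ 0 := div_ne_zero D.b0 D.c0
  have hκ : ∀ j, (-a / c) ^ m j * (b / c) ^ n j ≠ 0 := fun j =>
    mul_ne_zero (pow_ne_zero _ a0) (pow_ne_zero _ b0)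
  have := bound s τ δ m n (fun j => ((-a / c) ^ m j * (b / c) ^ n j)⁻¹)
    (S.image fun i => -a / c * (x / z) ^ i) hc hδ fun ξ hξ => by
      obtain ⟨i, hi, rfl⟩ := mem_image.1 hξ
      have e : -a / c * (x / z) ^ i - 1 = b / c * (y / z) ^ i := by
        have := D.c0
        have := D.z0
        rw [div_pow, div_pow]
        field_simp
        linear_combination -D.eq i hi
      refine ⟨mul_ne_zero a0 (pow_ne_zero _ (div_ne_zero D.x0 D.z0)), sub_ne_zero.1 (e ▸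
        mul_ne_zero b0 (pow_ne_zero _ (div_ne_zero D.y0 D.z0))), ω ^ i, fun j => ?_⟩
      rw [e, ← hω j, mul_assoc, inv_mul_eq_iff_eq_mul₀ (hκ j)]
      simp only [mul_pow, ← pow_mul, mul_comm i]
      ring
  rw [card_image_of_injOn fun i hi j hj h => (prim D.pr D.z0 D.zx.symm D.px).pow_inj (D.lt i hi)
    (D.lt j hj) (mul_left_cancel₀ a0 h)] at this
  exact this.imp id fun ⟨β, h⟩ => ⟨_, β, fun j => inv_ne_zero (hκ j), h⟩

theorem lo {e₁ e₂ e₃ : ℤ} (h : La x y z e₁ e₂ e₃) (h0 : e₁ ≠ 0 ∨ e₂ ≠ 0) {d : ℕ}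
    (h1 : |e₁| ≤ d) (h2 : |e₂| ≤ d) (h3 : |e₃| ≤ d) : S.card ≤ d := by
  have hs := h.1
  rw [abs_le] at h1 h2 h3
  rcases D.bd 1 0 d ![e₁.toNat, (-e₁).toNat] ![e₂.toNat, (-e₂).toNat]
    ((x / z) ^ (-e₁).toNat * (y / z) ^ (-e₂).toNat) (by simp)
    (fun j => by fin_cases j <;> simp <;> omega) (fun j => by
      fin_cases j
      · refine (D.la_nat (e₃ := e₃) (by simp; omega)).1 ?_
        convert h using 1 <;> simp
      · rfl) with h4 | ⟨κ, β, h4, h5, h6, h7⟩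
  · simpa using h4
  exfalso
  have e : ∀ j, β j = mo ((β j).coeff 0) 0 0 := fun j => by
    simpa [mo] using eq_C_of_natDegree_le_zero (h5 j)
  rw [Fin.sum_univ_two, e 0, e 1, mo_mul, mo_mul] at h7
  have := two_rel (by
    obtain ⟨j, hj⟩ := h6
    have : (β j).coeff 0 * κ j ≠ 0 := mul_ne_zero (fun h => hj (by rw [e j, h]; simp [mo])) (h4 j)
    fin_cases j
    exacts [Or.inl this, Or.inr this]) h7
  simp only [Matrix.cons_val_zero, Matrix.cons_val_one, add_zero] at this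
  omega

theorem strip {s w : ℕ} (hw : 0 < w) (H : w + s * p / w + s ^ 2 < s * S.card) :
    ∃ e₁ e₂ e₃ : ℤ, La x y z e₁ e₂ e₃ ∧ (e₁ ≠ 0 ∨ e₂ ≠ 0) ∧ 0 ≤ e₁ ∧ e₁ < w ∧
      |e₃| ≤ (s ^ 2 : ℕ) := by
  classical
  by_contra hne
  obtain ⟨ω, -, hω⟩ := exists_lt_card_fiber_of_mul_lt_card_of_maps_to
    (s := range w ×ˢ range (s * p / w + 1)) (t := (nthRoots p (1 : K)).toFinset)
    (f := fun u => (x / z) ^ u.1 * (y / z) ^ u.2) (n := s) (fun u _ => by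
      rw [Multiset.mem_toFinset, mem_nthRoots D.pr.pos, mul_pow, pow_right_comm,
        pow_right_comm (y / z), div_pow, div_pow y, D.px, D.py, div_self (pow_ne_zero _ D.z0),
        one_pow, one_pow, one_mul]) (by
      rw [card_product, card_range, card_range]
      refine lt_of_le_of_lt (Nat.mul_le_mul_right s
        ((Multiset.toFinset_card_le _).trans (card_nthRoots p 1))) ?_
      rw [mul_comm p]
      exact Nat.lt_mul_div_succ _ hw)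
  set T := (range w ×ˢ range (s * p / w + 1)).filter
    fun u => (x / z) ^ u.1 * (y / z) ^ u.2 = ω with hT
  have hm : ∀ u : T, u.1.1 < w ∧ u.1.2 < s * p / w + 1 ∧
      (x / z) ^ u.1.1 * (y / z) ^ u.1.2 = ω := fun u => by
    have := u.2
    simp only [hT, mem_filter, mem_product, mem_range] at this
    exact ⟨this.1.1, this.1.2, this.2⟩
  rcases D.bd (ι := T) s (s ^ 2) (w + s * p / w) (fun u => u.1.1) (fun u => u.1.2) ω (by
      rw [Fintype.card_coe]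
      have : ∑ r ∈ range s, (s ^ 2 + r + 1) ≤ s * (s ^ 2 + s) := by
        simpa using sum_le_card_nsmul (range s) (fun r => s ^ 2 + r + 1) (s ^ 2 + s)
          fun r hr => by have := mem_range.1 hr; omega
      nlinarith)
    (fun u => by have := hm u; omega) (fun u => (hm u).2.2) with h4 | ⟨κ, β, h4, h5, h6, h7⟩
  · omega
  refine no_rel h4 (fun j k hjk => ?_) h5 h6 h7
  have key : ∀ j k : T, j ≠ k → k.1.1 ≤ j.1.1 →
      j.1.1 + j.1.2 + s ^ 2 < k.1.1 + k.1.2 ∨ k.1.1 + k.1.2 + s ^ 2 < j.1.1 + j.1.2 := by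
    intro j k hjk hle
    by_contra hc
    have := (hm j).1
    refine hne ⟨(j.1.1 - k.1.1 : ℤ), (j.1.2 - k.1.2 : ℤ), (k.1.1 + k.1.2 - j.1.1 - j.1.2 : ℤ),
      (D.la_nat (by ring)).2 ((hm j).2.2.trans (hm k).2.2.symm), ?_, by omega, by omega, ?_⟩
    · by_contra h0
      exact hjk (Subtype.ext (Prod.ext (by omega) (by omega)))
    · rw [abs_le]
      omega
  rcases le_total k.1.1 j.1.1 with h | h
  exacts [key j k hjk h, (key k j hjk.symm h).symm]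

end Dat

end Pool.Agent.LinSidon
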