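import Pool.Agent.Lib.MP_982bd8_co.Act
import Pool.Agent.Lib.MP_982bd8_co.Fld

/-! A positive proportion of the points determines almost all lines. -/

namespace Pool.Agent.LinSidon

open Finset Matrix
open scoped Pointwise

theorem num3 {N w y k a ρ : ℕ} (h0 : 0 < y) (h1 : (N + 1) * w ≤ y * k) (h2 : a + w = y * k)
    (h3 : (N + 1) * k ≤ y) (h4 : a ^ 2 ≤ ρ * (y * k + y ^ 2)) :
    (N + 1) * k ^ 2 ≤ (N + 1) * ρ + 3 * k ^ 2 := by
  have c1 : N * (y * k) ≤ (N + 1) * a := by nlinarith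
  have c2 : (N + 1) * (y * k + y ^ 2) ≤ (N + 2) * y ^ 2 := by nlinarith
  have c3 : (N * k) ^ 2 * y ^ 2 ≤ (N + 1) * (N + 2) * ρ * y ^ 2 :=
    calc (N * k) ^ 2 * y ^ 2 = (N * (y * k)) ^ 2 := by ring
      _ ≤ ((N + 1) * a) ^ 2 := Nat.pow_le_pow_left c1 2
      _ = (N + 1) ^ 2 * a ^ 2 := by ring
      _ ≤ (N + 1) ^ 2 * (ρ * (y * k + y ^ 2)) := Nat.mul_le_mul_left _ h4
      _ = (N + 1) * ρ * ((N + 1) * (y * k + y ^ 2)) := by ring
      _ ≤ (N + 1) * ρ * ((N + 2) * y ^ 2) := Nat.mul_le_mul_left _ c2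
      _ = _ := by ring
  have c4 := Nat.le_of_mul_le_mul_right c3 (pow_pos h0 2)
  exact Nat.le_of_mul_le_mul_left (c := N + 2) (by nlinarith [Nat.zero_le (k ^ 2)]) (by omega)

theorem num4 {N k n y : ℕ} (hN : 6 ≤ N) (hk : 4 * N ≤ k) (h1 : N * n + 8 * k ^ 2 ≤ 2 * N * k ^ 2)
    (h2 : N * k ^ 2 ≤ N * y + 3 * k ^ 2) : N * n * 1 ≤ y * k ∧ N * k ≤ y := by
  have c1 : k ^ 2 ≤ 2 * y := Nat.le_of_mul_le_mul_left (c := N) (by nlinarith) (by omega)
  have c2 := Nat.mul_le_mul_right k c1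
  have c3 := Nat.mul_le_mul_right (k ^ 2) hk
  have c4 := Nat.mul_le_mul_right k hk
  constructor <;> nlinarith

theorem num5 {N k n y c : ℕ} (hN : 6 ≤ N) (hk : 4 * N ≤ k + 2)
    (h1 : N * n + 8 * (k + 2) ^ 2 ≤ 2 * N * (k + 2) ^ 2)
    (h2 : N * (k + 2) ^ 2 ≤ N * y + 3 * (k + 2) ^ 2) (h3 : y + c = n) : c < (k + 1) * k := by
  subst h3
  have c4 := Nat.mul_le_mul_right (k + 2) hk
  exact Nat.lt_of_mul_lt_mul_left (a := N) (by nlinarith)

variable {K : Type*} [Field K] {G : Type} [AddCommGroup G] [Fintype G] [DecidableEq G]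
  {S : Finset G} {P L P' L' : G → Fin 3 → K}

namespace Emb

variable (E : Emb S P L)
include E

omit [Fintype G] in
theorem dual : Emb (-S) L P :=
  ⟨E.ln, E.pt, fun t x h => by
    rw [dotProduct_comm]
    exact E.inc _ _ (by simpa using h)⟩

theorem many {Y : Finset G} {N r : ℕ} (h0 : 0 < Y.card) (hN : 0 < N)
    (h1 : N * Fintype.card G * r ≤ Y.card * S.card) (h2 : N * S.card ≤ Y.card) :
    N * S.card ^ 2 ≤ N * (univ.filter fun t => r < (Y.filter fun y => y - t ∈ S).card).card +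
      3 * S.card ^ 2 := by
  let f : G → ℕ := fun t => (Y.filter fun y => y - t ∈ S).card
  have c1 : ∑ t, f t = Y.card * S.card := by
    rw [sum_card_swap univ Y fun t y => y - t ∈ S, ← smul_eq_mul, ← sum_const]
    exact sum_congr rfl fun y _ => card_nbij' (y - ·) (y - ·) (fun t ht => by simpa using ht)
      (fun t ht => by simpa using ht) (fun _ _ => by simp) fun _ _ => by simp
  have c2 : ∑ t, f t ^ 2 ≤ Y.card * S.card + Y.card ^ 2 := by
    have e : ∀ t, f t ^ 2 = f t + (Y.filter fun y => y - t ∈ S).offDiag.card := fun t => by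
      rw [offDiag_card, sq]
      exact (Nat.add_sub_cancel' (Nat.le_mul_self _)).symm
    rw [sum_congr rfl fun t _ => e t, sum_add_distrib, c1, ← card_sigma, sq, ← card_product Y Y]
    refine add_le_add le_rfl (card_le_card_of_injOn (·.2) (fun x hx => ?_) fun x hx y hy e => ?_)
    · have := mem_offDiag.1 (mem_sigma.1 hx).2
      exact mem_product.2 ⟨(mem_filter.1 this.1).1, (mem_filter.1 this.2.1).1⟩
    · have a := mem_offDiag.1 (mem_sigma.1 hx).2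
      have b := mem_offDiag.1 (mem_sigma.1 hy).2
      have e' : x.2 = y.2 := e
      have := (E.sid (mem_filter.1 a.1).2 (mem_filter.1 a.2.1).2 (mem_filter.1 b.1).2
        (mem_filter.1 b.2.1).2 (by simpa using a.2.2) (by simp [e'])).1
      exact Sigma.ext (by simpa [e'] using this) (heq_of_eq e')
  have c3 := sum_filter_add_sum_filter_not univ (r < f ·) f
  have c4 : ∑ t ∈ univ.filter (¬ r < f ·), f t ≤ Fintype.card G * r :=
    (sum_le_card_nsmul _ _ r fun t ht => not_lt.1 (mem_filter.1 ht).2).trans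
      (Nat.mul_le_mul_right _ (card_le_univ _))
  obtain ⟨N, rfl⟩ : ∃ n, N = n + 1 := ⟨N - 1, by omega⟩
  exact num3 h0 ((Nat.mul_le_mul_left _ c4).trans (by rwa [← mul_assoc]))
    (c3.trans c1) h2 (sq_sum_le_card_mul_sum_sq.trans (Nat.mul_le_mul_left _
      ((sum_le_sum_of_subset (filter_subset _ _)).trans c2)))

theorem step (E' : Emb S P' L') {Y : Finset G} {N : ℕ} (h0 : 0 < Y.card) (hN : 0 < N)
    (h1 : N * Fintype.card G * 1 ≤ Y.card * S.card ∧ N * S.card ≤ Y.card)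
    (h : ∀ z ∈ Y, ∃ c : K, c ≠ 0 ∧ P z = c • P' z) : ∃ Y' : Finset G,
      N * S.card ^ 2 ≤ N * Y'.card + 3 * S.card ^ 2 ∧
        ∀ t ∈ Y', ∃ c : K, c ≠ 0 ∧ L t = c • L' t := by
  refine ⟨_, E.many h0 hN h1.1 h1.2, fun t ht => ?_⟩
  obtain ⟨y, a1, y', a2, a3⟩ := one_lt_card.1 (mem_filter.1 ht).2
  have b : ∀ y ∈ Y.filter fun y => y - t ∈ S, P' y ⬝ᵥ L t = 0 ∧ P' y ⬝ᵥ L' t = 0 := fun y hy => by
    obtain ⟨c, c0, hc⟩ := h _ (mem_filter.1 hy).1
    have := E.inc t y (mem_filter.1 hy).2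
    rw [hc, dotProduct_smul, smul_eq_zero, or_iff_right c0] at this
    exact ⟨by rwa [dotProduct_comm], E'.dual.inc _ _ (by simpa using (mem_filter.1 hy).2)⟩
  have ne : t ≠ t + (y - y') := by simpa [sub_eq_zero] using a3
  exact prop_of (E'.pt y y' a3) (E.ln _ _ ne).ne (E'.ln _ _ ne).ne (b y a1).1 (b y a1).2
    (b y' a2).1 (b y' a2).2

theorem ext2 (E' : Emb S P' L') {Y : Finset G} {N : ℕ} (hN : 6 ≤ N) (hk : 4 * N ≤ S.card)
    (hp : N * Fintype.card G + 8 * S.card ^ 2 ≤ 2 * N * S.card ^ 2)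
    (h1 : N * Fintype.card G * 1 ≤ Y.card * S.card ∧ N * S.card ≤ Y.card)
    (h : ∀ z ∈ Y, ∃ c : K, c ≠ 0 ∧ P z = c • P' z) (z : G) : ∃ c : K, c ≠ 0 ∧ P z = c • P' z := by
  have k0 : 0 < N * S.card := Nat.mul_pos (by omega) (by omega)
  obtain ⟨Y₁, a1, a2⟩ := E.step E' (k0.trans_le h1.2) (by omega) h1 h
  have a3 := num4 hN hk hp a1
  obtain ⟨Y₂, b1, b2⟩ := E.dual.step E'.dual (N := N) (k0.trans_le a3.2) (by omega)
    (by rwa [card_neg]) a2
  refine E.ext E' ?_ b2 z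
  obtain ⟨k, hk'⟩ : ∃ k, S.card = k + 2 := ⟨S.card - 2, by omega⟩
  rw [card_neg] at b1
  rw [hk'] at hk hp b1 ⊢
  exact num5 hN hk hp b1 (card_add_card_compl Y₂)

end Emb

end Pool.Agent.LinSidon
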