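import Pool.Agent.Lib.MP_982bd8_co.Step

/-! Three-term relations between monomials in `X` and `X - 1` come from the Frobenius map. -/

namespace Pool.Agent.LinSidon

open Polynomial Finset

variable {K : Type*} [Field K]

theorem le_of_dvd {ξ : K} {g : K[X]} {k A : ℕ} (hg : g.eval ξ ≠ 0)
    (h : (X - C ξ) ^ k ∣ (X - C ξ) ^ A * g) : k ≤ A := by
  by_contra hk
  have h1 : (X - C ξ) ^ A * (X - C ξ) ∣ (X - C ξ) ^ A * g := by
    rw [← pow_succ]
    exact (pow_dvd_pow _ (by omega)).trans h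
  exact hg (dvd_iff_isRoot.1 ((mul_dvd_mul_iff_left (pow_ne_zero _ (X_sub_C_ne_zero ξ))).1 h1))

theorem le0 {c : K} {k A B : ℕ} (hc : c ≠ 0) (h : X ^ k ∣ mo c A B) : k ≤ A :=
  le_of_dvd (ξ := 0) (g := C c * (X - 1) ^ B) (by simp [hc]) (by
    rw [C_0, sub_zero]
    convert h using 1
    rw [mo]
    ring)

theorem le1 {c : K} {k A B : ℕ} (hc : c ≠ 0) (h : (X - 1) ^ k ∣ mo c A B) : k ≤ B :=
  le_of_dvd (ξ := 1) (g := C c * X ^ A) (by simp [hc]) (by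
    rw [C_1]
    convert h using 1
    rw [mo]
    ring)

theorem dvd0 {c : K} {k A : ℕ} (B : ℕ) (h : c = 0 ∨ k ≤ A) : X ^ k ∣ mo c A B := by
  rcases h with rfl | h
  · simp [mo]
  · exact ((pow_dvd_pow _ h).mul_left _).mul_right _

theorem dvd1 {c : K} {k B : ℕ} (A : ℕ) (h : c = 0 ∨ k ≤ B) : (X - 1) ^ k ∣ mo c A B := by
  rcases h with rfl | h
  · simp [mo]
  · exact (pow_dvd_pow _ h).mul_left _

/-- `q` is a positive power of the (prime) characteristic. -/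
def Fr (K : Type*) [Field K] (q : ℕ) : Prop :=
  ∃ j, 0 < j ∧ (ringChar K).Prime ∧ q = ringChar K ^ j

theorem frob {c₀ c₁ c₂ : K} {P Q : ℕ} (h0 : c₀ ≠ 0) (h1 : c₁ ≠ 0) (hP : 2 ≤ P)
    (h : C c₀ * X ^ P + C c₁ * (X - 1) ^ Q + C c₂ = 0) : P = Q ∧ Fr K P := by
  have e : C c₁ * (X - 1) ^ Q = -(C c₀ * X ^ P + C c₂) := by linear_combination h
  have hPQ : P = Q := by
    have := congrArg natDegree e
    rw [natDegree_neg, natDegree_add_C, natDegree_C_mul h0, natDegree_C_mul h1, natDegree_pow,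
      natDegree_pow, natDegree_X, natDegree_X_sub_one] at this
    omega
  subst hPQ
  refine ⟨rfl, ?_⟩
  have key : ∀ q r : ℕ, 0 < q → P = q * r → (r : K) ≠ 0 → (X - 1 : K[X]) ^ q = X ^ q - 1 →
      r = 1 := by
    intro q r hq hr hr0 hX
    by_contra hr1
    obtain ⟨r, rfl⟩ : ∃ t, r = t + 2 := by
      refine ⟨r - 2, ?_⟩
      have : r ≠ 0 := fun h => hr0 (by simp [h])
      omega
    have e2 : (X - 1 : K[X]) ^ P = expand K q ((X + C (-1)) ^ (r + 2)) := by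
      rw [hr, pow_mul, hX]
      simp [sub_eq_add_neg]
    have := congrArg (coeff · ((r + 1) * q)) e
    simp only [e2, coeff_C_mul, coeff_expand_mul hq, coeff_X_add_C_pow, coeff_neg, coeff_add,
      coeff_X_pow, coeff_C] at this
    rw [if_neg (by nlinarith), if_neg (by positivity), Nat.choose_succ_self_right] at this
    simp only [mul_zero, add_zero, neg_zero, mul_eq_zero, h1, false_or, pow_eq_zero_iff',
      neg_eq_zero, one_ne_zero, false_and] at this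
    exact hr0 this
  obtain ⟨ℓ, hℓ⟩ := CharP.exists K
  rcases CharP.char_is_prime_or_zero K ℓ with hp | rfl
  · have := Fact.mk hp
    obtain ⟨j, r, hr, hj⟩ := Nat.exists_eq_pow_mul_and_not_dvd (n := P) (by omega) ℓ hp.ne_one
    have h2 := key (ℓ ^ j) r (pow_pos hp.pos j) hj (mt (CharP.cast_eq_zero_iff K ℓ r).1 hr)
      (by rw [sub_pow_char_pow, one_pow])
    rw [h2, mul_one] at hj
    refine ⟨j, Nat.pos_of_ne_zero fun h => ?_, by rwa [ringChar.eq K ℓ], by rwa [ringChar.eq K ℓ]⟩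
    rw [h, pow_zero] at hj
    omega
  · have := CharP.charP_to_charZero K
    have := key 1 P one_pos (one_mul P).symm (Nat.cast_ne_zero.2 (by omega)) (by simp)
    omega

theorem pure_rel {c₀ c₁ c₂ : K} {A₀ A₁ A₂ B₀ B₁ B₂ : ℕ} (hc : c₀ ≠ 0 ∨ c₁ ≠ 0 ∨ c₂ ≠ 0)
    (a1 : A₁ < A₀) (a2 : A₂ + 2 ≤ A₀) (b0 : B₀ < B₁) (b2 : B₂ < B₁)
    (h : mo c₀ A₀ B₀ + mo c₁ A₁ B₁ + mo c₂ A₂ B₂ = 0) :
    A₁ = A₂ ∧ B₀ = B₂ ∧ ∃ q, Fr K q ∧ A₀ = A₂ + q ∧ B₁ = B₂ + q := by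
  have i1 : c₁ ≠ 0 → ¬ (c₂ = 0 ∨ A₁ + 1 ≤ A₂) := fun h1 h2 => by
    have := le0 h1 (k := A₁ + 1) (A := A₁) (B := B₁) (by
      rw [show mo c₁ A₁ B₁ = -(mo c₀ A₀ B₀ + mo c₂ A₂ B₂) by linear_combination h, dvd_neg]
      exact dvd_add (dvd0 _ (Or.inr a1)) (dvd0 _ h2))
    omega
  have i2 : c₂ ≠ 0 → ¬ (c₁ = 0 ∨ A₂ + 1 ≤ A₁) := fun h1 h2 => by
    have := le0 h1 (k := A₂ + 1) (A := A₂) (B := B₂) (by
      rw [show mo c₂ A₂ B₂ = -(mo c₀ A₀ B₀ + mo c₁ A₁ B₁) by linear_combination h, dvd_neg]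
      exact dvd_add (dvd0 _ (Or.inr (by omega))) (dvd0 _ h2))
    omega
  have i3 : c₂ ≠ 0 → ¬ (c₀ = 0 ∨ B₂ + 1 ≤ B₀) := fun h1 h2 => by
    have := le1 h1 (k := B₂ + 1) (A := A₂) (B := B₂) (by
      rw [show mo c₂ A₂ B₂ = -(mo c₀ A₀ B₀ + mo c₁ A₁ B₁) by linear_combination h, dvd_neg]
      exact dvd_add (dvd1 _ h2) (dvd1 _ (Or.inr b2)))
    omega
  have i4 : c₀ ≠ 0 → ¬ (c₂ = 0 ∨ B₀ + 1 ≤ B₂) := fun h1 h2 => by
    have := le1 h1 (k := B₀ + 1) (A := A₀) (B := B₀) (by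
      rw [show mo c₀ A₀ B₀ = -(mo c₁ A₁ B₁ + mo c₂ A₂ B₂) by linear_combination h, dvd_neg]
      exact dvd_add (dvd1 _ (Or.inr b0)) (dvd1 _ h2))
    omega
  have h2 : c₂ ≠ 0 := by
    rcases hc with h' | h' | h'
    exacts [fun h0 => i4 h' (Or.inl h0), fun h0 => i1 h' (Or.inl h0), h']
  have h1 : c₁ ≠ 0 := fun h0 => i2 h2 (Or.inl h0)
  have h0 : c₀ ≠ 0 := fun h0 => i3 h2 (Or.inl h0)
  have j1 := (not_or.1 (i1 h1)).2
  have j2 := (not_or.1 (i2 h2)).2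
  have j3 := (not_or.1 (i3 h2)).2
  have j4 := (not_or.1 (i4 h0)).2
  obtain rfl : A₁ = A₂ := by omega
  obtain rfl : B₀ = B₂ := by omega
  obtain ⟨P, rfl⟩ := Nat.exists_eq_add_of_le a1.le
  obtain ⟨Q, rfl⟩ := Nat.exists_eq_add_of_le b0.le
  have e : C c₀ * X ^ P + C c₁ * (X - 1) ^ Q + C c₂ = 0 := by
    refine mul_left_cancel₀ (mo_ne one_ne_zero A₁ B₀) ?_
    simp only [mo, C_1] at h ⊢
    linear_combination h
  obtain ⟨rfl, hq⟩ := frob h0 h1 (by omega) e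
  exact ⟨rfl, rfl, P, hq, rfl, rfl⟩

theorem dvd_wr {q f : K[X]} (g : K[X]) {n : ℕ} (h : q ^ n ∣ f) : q ^ (n - 1) ∣ wronskian f g :=
  dvd_sub (((pow_dvd_pow _ (Nat.sub_le n 1)).trans h).mul_right _)
    ((pow_sub_one_dvd_derivative_of_pow_dvd h).mul_right _)

/-- One of the exponent pairs `(0,0)`, `(1,0)`, `(0,1)`. -/
def Un (a b : ℕ) : Prop := (a = 0 ∧ b = 0) ∨ (a = 1 ∧ b = 0) ∨ (a = 0 ∧ b = 1)

theorem shape {β : K[X]} (h : β.natDegree ≤ 1)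
    (hr : β ≠ 0 → ∀ ξ, β.eval ξ = 0 → ξ = 0 ∨ ξ = 1) : ∃ c a b, Un a b ∧ β = mo c a b := by
  obtain ⟨u, v, rfl⟩ := exists_eq_X_add_C_of_natDegree_le_one h
  by_cases hu : u = 0
  · exact ⟨v, 0, 0, Or.inl ⟨rfl, rfl⟩, by simp [mo, hu]⟩
  have h0 : C u * X + C v ≠ 0 := fun h0 => hu (by simpa using congrArg (coeff · 1) h0)
  rcases hr h0 (-v / u) (by simp; field_simp; ring) with h1 | h1
  · have : v = 0 := by simpa [hu] using h1
    exact ⟨u, 1, 0, Or.inr (Or.inl ⟨rfl, rfl⟩), by simp [mo, this]⟩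
  · have : v = -u := by
      field_simp at h1
      linear_combination -h1
    exact ⟨u, 0, 1, Or.inr (Or.inr ⟨rfl, rfl⟩), by simp [mo, this]; ring⟩

theorem mo_mul (c κ : K) (a b m n : ℕ) : mo c a b * mo κ m n = mo (c * κ) (m + a) (n + b) := by
  simp only [mo, C_mul]
  ring

theorem eval_mo_ne {κ ξ : K} (h : κ ≠ 0) (h0 : ξ ≠ 0) (h1 : ξ ≠ 1) (m n : ℕ) :
    (mo κ m n).eval ξ ≠ 0 := by
  simp [mo, h, h0, sub_ne_zero.2 h1]

theorem lin_rel {β : Fin 3 → K[X]} {κ : Fin 3 → K} {m n : Fin 3 → ℕ} {B : ℕ} (hκ : ∀ j, κ j ≠ 0)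
    (hβ : ∀ j, (β j).natDegree ≤ 1) (hn : ∃ j, β j ≠ 0) (m1 : m 1 ≤ B) (m2 : m 2 ≤ B)
    (n0 : n 0 ≤ B) (n2 : n 2 ≤ B) (m0 : B + 3 ≤ m 0) (n1 : 3 * B + 4 ≤ n 1)
    (h : ∑ j, β j * mo (κ j) (m j) (n j) = 0) :
    ∃ (a b : Fin 3 → ℕ) (q : ℕ), (∀ j, Un (a j) (b j)) ∧ Fr K q ∧ m 1 + a 1 = m 2 + a 2 ∧
      n 0 + b 0 = n 2 + b 2 ∧ m 0 + a 0 = m 2 + a 2 + q ∧ n 1 + b 1 = n 2 + b 2 + q := by
  suffices H : ∃ (c : Fin 3 → K) (a b : Fin 3 → ℕ), (∃ j, c j ≠ 0) ∧ (∀ j, Un (a j) (b j)) ∧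
      ∑ j, mo (c j) (a j) (b j) * mo (κ j) (m j) (n j) = 0 by
    obtain ⟨c, a, b, ⟨j, hj⟩, h2, h3⟩ := H
    simp only [mo_mul, Fin.sum_univ_three] at h3
    have u0 := h2 0
    have u1 := h2 1
    have u2 := h2 2
    unfold Un at u0 u1 u2
    obtain ⟨e1, e2, q, hq, e3, e4⟩ := pure_rel (by
      have := mul_ne_zero hj (hκ j)
      fin_cases j
      exacts [Or.inl this, Or.inr (Or.inl this), Or.inr (Or.inr this)])
      (by omega) (by omega) (by omega) (by omega) h3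
    exact ⟨a, b, q, h2, hq, e1, e2, e3, e4⟩
  by_cases hA : ∃ ξ, ξ ≠ 0 ∧ ξ ≠ 1 ∧ ∀ j, (β j).eval ξ = 0
  · obtain ⟨ξ, -, -, hξ⟩ := hA
    have e : ∀ j, β j = (X - C ξ) * mo ((β j).coeff 1) 0 0 := fun j => by
      have h1 := hξ j
      rw [eq_X_add_C_of_natDegree_le_one (hβ j)] at h1
      simp only [eval_add, eval_mul, eval_C, eval_X] at h1
      have h2 := congrArg C h1
      rw [C_add, C_mul, C_0] at h2
      simp only [mo, pow_zero, mul_one]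
      linear_combination eq_X_add_C_of_natDegree_le_one (hβ j) + h2
    refine ⟨fun j => (β j).coeff 1, 0, 0, ?_, fun _ => Or.inl ⟨rfl, rfl⟩, ?_⟩
    · obtain ⟨j, hj⟩ := hn
      exact ⟨j, fun h0 : (β j).coeff 1 = 0 => hj (by rw [e j, h0]; simp [mo])⟩
    · refine mul_left_cancel₀ (X_sub_C_ne_zero ξ) ?_
      rw [mul_zero, ← h, mul_sum]
      exact sum_congr rfl fun j _ => by rw [← mul_assoc, Pi.zero_apply, ← e j]
  set f : Fin 3 → K[X] := fun j => β j * mo (κ j) (m j) (n j) with hf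
  have h3 : f 0 + f 1 + f 2 = 0 := by rwa [Fin.sum_univ_three] at h
  have w1 := wronskian_eq_of_sum_zero h3
  have w2 := wronskian_eq_of_sum_zero (a := f 1) (b := f 2) (c := f 0) (by linear_combination h3)
  have w0 : wronskian (f 2) (f 0) = 0 := by
    by_contra hw
    have d0 : X ^ (m 0 - 1) ∣ wronskian (f 2) (f 0) := by
      rw [← w2, ← w1]
      exact dvd_wr _ ((dvd0 _ (Or.inr le_rfl)).mul_left _)
    have d1 : (X - 1) ^ (n 1 - 1) ∣ wronskian (f 2) (f 0) := by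
      rw [← w2]
      exact dvd_wr _ ((dvd1 _ (Or.inr le_rfl)).mul_left _)
    have hco : IsCoprime (X : K[X]) (X - 1) := ⟨1, -1, by ring⟩
    have d2 := natDegree_le_of_dvd (hco.pow.mul_dvd d0 d1) hw
    rw [natDegree_mul (pow_ne_zero _ X_ne_zero) (pow_ne_zero _ X_sub_one_ne), natDegree_pow,
      natDegree_pow, natDegree_X, natDegree_X_sub_one] at d2
    have d3 := natDegree_wronskian_lt_add hw
    have d4 : ∀ j, (f j).natDegree ≤ 1 + (m j + n j) := fun j =>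
      natDegree_mul_le.trans (add_le_add (hβ j) (natDegree_mo_le _ _ _))
    have := d4 0
    have := d4 2
    omega
  have hw : ∀ j k, wronskian (f j) (f k) = 0 := by
    have s : ∀ {a b : K[X]}, wronskian a b = 0 → wronskian b a = 0 := fun h => by
      rw [← wronskian_neg_eq, h, neg_zero]
    have w12 := w2.trans w0
    have w01 := w1.trans w12
    intro j k
    fin_cases j <;> fin_cases k
    exacts [wronskian_self_eq_zero _, w01, s w0, s w01, wronskian_self_eq_zero _, w12, w0, s w12,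
      wronskian_self_eq_zero _]
  have sh : ∀ j, ∃ c a b, Un a b ∧ β j = mo c a b := fun j => shape (hβ j) fun h0 ξ hξ => by
    by_contra hc
    obtain ⟨x0, x1⟩ := not_or.1 hc
    refine hA ⟨ξ, x0, x1, fun k => ?_⟩
    have e := congrArg (eval ξ) (hw j k)
    have hd : (derivative (β j)).eval ξ ≠ 0 := by
      obtain ⟨u, v, huv⟩ := exists_eq_X_add_C_of_natDegree_le_one (hβ j)
      rw [huv] at hξ h0 ⊢
      intro hu
      have hu' : u = 0 := by simpa using hu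
      have hv : v = 0 := by simpa [hu'] using hξ
      exact h0 (by simp [hu', hv])
    simp only [wronskian, hf, derivative_mul, eval_sub, eval_mul, eval_add, hξ, zero_mul,
      add_zero, zero_sub, eval_zero, neg_eq_zero, mul_eq_zero, hd, eval_mo_ne (hκ _) x0 x1,
      or_false, false_or] at e
    exact e
  choose c a b h1 h2 using sh
  refine ⟨c, a, b, ?_, h1, by simpa only [← h2] using h⟩
  obtain ⟨j, hj⟩ := hn
  exact ⟨j, fun h0 => hj (by rw [h2 j, h0]; simp [mo])⟩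

end Pool.Agent.LinSidon
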