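import Pool.Agent.Lib.MP_982bd8_co.Core

/-! Numerical form of the dichotomy, and the reduction from matrices to progressions. -/

namespace Pool.Agent.LinSidon

open Polynomial Finset

variable {K : Type*} [Field K]

theorem le_sq' {a b : ℝ} (hb : 0 ≤ b) (h : a ^ 2 ≤ b ^ 2) : a ≤ b :=
  le_of_pow_le_pow_left₀ two_ne_zero hb h

theorem Dat.num {p : ℕ} {a b c x y z : K} {S : Finset ℕ} (D : Dat p a b c x y z S)
    (hp : 4096 < p) {ρ : ℝ} (h0 : 0 ≤ ρ) (hρ : ρ ^ 3 = p) :
    (S.card : ℝ) ≤ √(p / 2) + 16 * ρ ∨ ∃ q, Fr K q ∧ p = q ^ 2 + q + 1 := by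
  refine (le_or_gt _ _).imp id fun H => ?_
  have ex : ∃ k : ℕ, p ≤ (k + 1) ^ 6 := ⟨p, (Nat.le_succ p).trans (Nat.le_self_pow (by omega) _)⟩
  obtain ⟨k, hk, hk'⟩ : ∃ k : ℕ, p ≤ (k + 1) ^ 6 ∧ k ^ 6 < p := by
    refine ⟨Nat.find ex, Nat.find_spec ex, ?_⟩
    rcases h : Nat.find ex with _ | k
    · omega
    · exact not_le.1 (Nat.find_min ex (by omega))
  have k4 : 4 ≤ k := by
    by_contra h
    have := Nat.pow_le_pow_left (show k + 1 ≤ 4 by omega) 6
    omega
  have k4' : (4 : ℝ) ≤ k := by exact_mod_cast k4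
  have hk1 : (p : ℝ) ≤ (k + 1) ^ 6 := by exact_mod_cast hk
  have hk2 : (k : ℝ) ^ 6 < p := by exact_mod_cast hk'
  have r1 : (k : ℝ) ^ 2 ≤ ρ := le_of_lt (lt_of_pow_lt_pow_left₀ 3 h0 (by rw [hρ]; linarith))
  set R := √((p : ℝ) / 2) with hR
  have R0 : 0 ≤ R := Real.sqrt_nonneg _
  have R2 : R ^ 2 = p / 2 := Real.sq_sqrt (by positivity)
  set τ : ℝ := (k + 1) ^ 2 with hτ
  have t1 : τ ≤ 2 * ρ := by nlinarith
  have t2 : τ + 1 ≤ R := by
    refine le_sq' R0 ?_
    have h1 : τ + 1 ≤ 2 * k ^ 2 := by nlinarith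
    have h2 : (τ + 1) ^ 2 ≤ (2 * k ^ 2) ^ 2 := pow_le_pow_left₀ (by positivity) h1 2
    have h3 : (16 : ℝ) ≤ k ^ 2 := by nlinarith
    have h4 : (0 : ℝ) ≤ k ^ 4 := by positivity
    nlinarith
  have t3 : R ≤ (k + 1) ^ 3 := le_sq' (by positivity) (by nlinarith)
  have t4 : (25 : ℝ) ≤ τ := by nlinarith
  have W1 : Nat.sqrt (2 * p - 1) ^ 2 < 2 * p := (Nat.sqrt_le' _).trans_lt (by omega)
  have W2 : 2 * p ≤ (Nat.sqrt (2 * p - 1) + 1) ^ 2 := by
    have := Nat.lt_succ_sqrt' (2 * p - 1)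
    rw [Nat.succ_eq_add_one] at this
    omega
  generalize Nat.sqrt (2 * p - 1) = W at W1 W2
  have W3 : (W : ℝ) ≤ 2 * R := le_sq' (by positivity) (by
    have : (W : ℝ) ^ 2 < 2 * p := by exact_mod_cast W1
    nlinarith)
  have W4 : 2 * R ≤ W + 1 := le_sq' (by positivity) (by
    have : (2 : ℝ) * p ≤ (W + 1) ^ 2 := by exact_mod_cast W2
    nlinarith)
  have W5 : (k + 1) ^ 2 < W := by
    have : (((k + 1) ^ 2 : ℕ) : ℝ) < W := by push_cast; linarith
    exact_mod_cast this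
  obtain ⟨w, rfl⟩ := Nat.exists_eq_add_of_le' W5.le
  have w0 : 0 < w := by omega
  have w0' : (0 : ℝ) < w := by exact_mod_cast w0
  push_cast at W3 W4
  refine D.core (s := k + 1) w0 W1 ?_ ?_ ?_
  · have h1 : (((k + 1) * p / w : ℕ) : ℝ) ≤ (k + 1) * (R + τ + 1) := by
      refine Nat.cast_div_le.trans ?_
      rw [div_le_iff₀ w0']
      push_cast
      rw [mul_assoc]
      refine mul_le_mul_of_nonneg_left ?_ (by positivity)
      have : (R + τ + 1) * (2 * R - (τ + 1)) ≤ (R + τ + 1) * w :=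
        mul_le_mul_of_nonneg_left (by linarith) (by positivity)
      nlinarith
    have : ((w + (k + 1) * p / w + (k + 1) ^ 2 : ℕ) : ℝ) < ((k + 1) * S.card : ℕ) := by
      rw [Nat.cast_add, Nat.cast_add]
      push_cast
      have h2 : ((k : ℝ) + 1) * (R + 8 * τ) < (k + 1) * S.card :=
        mul_lt_mul_of_pos_left (by linarith) (by positivity)
      have h3 : ((k : ℝ) + 1) ^ 3 = (k + 1) * τ := by rw [hτ]; ring
      nlinarith
    exact_mod_cast this
  · have : ((7 * (k + 1) ^ 2 + 4 : ℕ) : ℝ) ≤ S.card := by push_cast; linarith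
    exact_mod_cast this
  · have : ((w + 3 * (k + 1) ^ 2 + 1 : ℕ) : ℝ) < (2 * S.card : ℕ) := by push_cast; linarith
    exact_mod_cast this

theorem card_le_one_of_two {p : ℕ} (hp : p.Prime) {a b x y : K} (y0 : y ≠ 0)
    (xy : x ≠ y) (h : x ^ p = y ^ p) (hab : a ≠ 0 ∨ b ≠ 0) {S : Finset ℕ} (lt : ∀ i ∈ S, i < p)
    (eq : ∀ i ∈ S, a * x ^ i + b * y ^ i = 0) : S.card ≤ 1 := by
  refine card_le_one.2 fun i hi j hj => (prim hp y0 xy h).pow_inj (lt i hi) (lt j hj) ?_
  have a0 : a ≠ 0 := fun h0 => by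
    have := eq i hi
    rw [h0, zero_mul, zero_add] at this
    exact mul_ne_zero (hab.resolve_left fun h => h h0) (pow_ne_zero _ y0) this
  rw [div_pow, div_pow, div_eq_div_iff (pow_ne_zero _ y0) (pow_ne_zero _ y0)]
  refine mul_left_cancel₀ a0 ?_
  linear_combination y ^ j * eq i hi - y ^ i * eq j hj

/-- The dichotomy for a linear functional on polynomials killing the multiples of `μ`. -/
theorem fun_bound [IsAlgClosed K] {p : ℕ} (hp : p.Prime) (hp' : 4096 < p) {c : K} (hc : c ≠ 0)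
    (L : K[X] →ₗ[K] K) {μ : K[X]} (h1 : μ ∣ X ^ p - C c) (h2 : μ.natDegree ≤ 3)
    (h3 : ∀ f, μ ∣ f → L f = 0) (h4 : ∃ i, L (X ^ i) ≠ 0) {S : Finset ℕ} (lt : ∀ i ∈ S, i < p)
    (eq : ∀ i ∈ S, L (X ^ i) = 0) {ρ : ℝ} (h0 : 1 ≤ ρ) (hρ : ρ ^ 3 = p) :
    (S.card : ℝ) ≤ √(p / 2) + 16 * ρ ∨ ∃ q, Fr K q ∧ p = q ^ 2 + q + 1 := by
  classical
  have small : S.card ≤ 2 → (S.card : ℝ) ≤ √(p / 2) + 16 * ρ := fun h => by
    have : (S.card : ℝ) ≤ 2 := by exact_mod_cast h
    linarith [Real.sqrt_nonneg ((p : ℝ) / 2)]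
  have hne := X_pow_sub_C_ne_zero hp.pos c
  have hμ : μ ≠ 0 := ne_zero_of_dvd_ne_zero hne h1
  by_cases hK : (p : K) = 0
  · have := Fact.mk hp
    have := (CharP.charP_iff_prime_eq_zero (R := K) hp).2 hK
    obtain ⟨d, rfl⟩ := IsAlgClosed.exists_pow_nat_eq c hp.pos
    have d0 : d ≠ 0 := fun h => hc (by rw [h, zero_pow hp.ne_zero])
    rw [C_pow, ← sub_pow_char] at h1
    obtain ⟨k, -, hk⟩ := (dvd_prime_pow (prime_X_sub_C d) p).1 h1
    have hk3 : μ ∣ (X - C d) ^ 3 := hk.dvd.trans (pow_dvd_pow _ (by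
      have := natDegree_le_of_dvd hk.symm.dvd hμ
      rw [natDegree_pow, natDegree_X_sub_C] at this
      omega))
    have key : ∀ i : ℕ, (X - C d) ^ 3 ∣ C (2 * d ^ 2) * X ^ i - (C (d ^ i * (2 * d ^ 2)) * 1 +
        C (d ^ i * (2 * d * i)) * (X - C d) + C (d ^ i * (i * (i - 1))) * (X - C d) ^ 2) := by
      intro i
      induction i with
      | zero => simp
      | succ i ih =>
        have := dvd_add (ih.mul_left X)
          (dvd_mul_left ((X - C d) ^ 3) (C (d ^ i * (i * (i - 1)))))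
        convert this using 1
        simp only [Nat.cast_succ, map_mul, map_pow, map_add, map_sub, map_one, map_ofNat]
        ring
    have val : ∀ i : ℕ, 2 * d ^ 2 * L (X ^ i) = d ^ i * (C (L ((X - C d) ^ 2)) * X ^ 2 +
        C (2 * d * L (X - C d) - L ((X - C d) ^ 2)) * X + C (2 * d ^ 2 * L 1)).eval (i : K) := by
      intro i
      have := h3 _ (hk3.trans (key i))
      simp only [← smul_eq_C_mul, map_sub L (_ • _), map_add, map_smul, smul_eq_mul] at this
      simp only [eval_add, eval_mul, eval_C, eval_X, eval_pow]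
      linear_combination this
    generalize hQ : C (L ((X - C d) ^ 2)) * X ^ 2 +
      C (2 * d * L (X - C d) - L ((X - C d) ^ 2)) * X + C (2 * d ^ 2 * L 1) = Q at val
    have two : (2 : K) ≠ 0 := fun h => by
      have := Nat.le_of_dvd two_pos ((CharP.cast_eq_zero_iff K p 2).1 (by exact_mod_cast h))
      omega
    have Q0 : Q ≠ 0 := fun h => by
      obtain ⟨i, hi⟩ := h4
      have := val i
      rw [h, eval_zero, mul_zero] at this
      exact mul_ne_zero (mul_ne_zero two (pow_ne_zero _ d0)) hi this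
    refine Or.inl (small ?_)
    rw [← card_image_of_injOn (f := fun i : ℕ => (i : K)) fun i hi j hj h =>
      CharP.natCast_injOn_Iio K p (lt i hi) (lt j hj) h]
    refine (card_le_degree_of_subset_roots (p := Q) fun t ht => ?_).trans
      (hQ ▸ natDegree_quadratic_le)
    obtain ⟨i, hi, rfl⟩ := mem_image.1 ht
    have := val i
    rw [eq i hi, mul_zero] at this
    exact (mem_roots Q0).2 ((mul_eq_zero.1 this.symm).resolve_left (pow_ne_zero _ d0))
  have hs := separable_X_pow_sub_C c hK hc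
  obtain ⟨T, hT1, hT2, hT3⟩ := exists_subsuperset_card_eq (n := 3) (s := μ.roots.toFinset)
    (t := (X ^ p - C c).roots.toFinset)
    (Multiset.toFinset_subset.2 (Multiset.subset_of_le (roots.le_of_dvd hne h1)))
    ((Multiset.toFinset_card_le _).trans ((card_roots' μ).trans h2)) (by
      rw [Multiset.toFinset_card_of_nodup (nodup_roots hs),
        ← (IsAlgClosed.splits _).natDegree_eq_card_roots, natDegree_X_pow_sub_C]
      omega)
  obtain ⟨x, y, z, xy, xz, yz, rfl⟩ := card_eq_three.1 hT3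
  have rt : ∀ t ∈ ({x, y, z} : Finset K), t ^ p = c := fun t ht => by
    have := (mem_roots hne).1 (Multiset.mem_toFinset.1 (hT2 ht))
    simpa [sub_eq_zero] using this
  have hx := rt x (by simp)
  have hy := rt y (by simp)
  have hz := rt z (by simp)
  have nz : ∀ t : K, t ^ p = c → t ≠ 0 := fun t ht h => hc (by rw [← ht, h, zero_pow hp.ne_zero])
  obtain ⟨a, b, e, val⟩ : ∃ a b e : K, ∀ i : ℕ, L (X ^ i) = a * x ^ i + b * y ^ i + e * z ^ i := by
    refine ⟨L (C ((x - y) * (x - z))⁻¹ * ((X - C y) * (X - C z))),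
      L (C ((y - x) * (y - z))⁻¹ * ((X - C x) * (X - C z))),
      L (C ((z - x) * (z - y))⁻¹ * ((X - C x) * (X - C y))), fun i => ?_⟩
    have := h3 (X ^ i - (x ^ i • (C ((x - y) * (x - z))⁻¹ * ((X - C y) * (X - C z))) +
      y ^ i • (C ((y - x) * (y - z))⁻¹ * ((X - C x) * (X - C z))) +
      z ^ i • (C ((z - x) * (z - y))⁻¹ * ((X - C x) * (X - C y))))) ?_
    · rw [map_sub, map_add, map_add, map_smul, map_smul, map_smul] at this
      simp only [smul_eq_mul] at this
      linear_combination this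
    generalize hf : (X ^ i - (x ^ i • _ + y ^ i • _ + z ^ i • _) : K[X]) = f
    by_cases f0 : f = 0
    · rw [f0]
      exact dvd_zero _
    refine (IsAlgClosed.splits μ).dvd_of_roots_le_roots hμ ((Multiset.le_iff_subset
      (nodup_roots (hs.of_dvd h1))).2 fun t ht => (mem_roots f0).2 ?_)
    have := hT1 (Multiset.mem_toFinset.2 ht)
    have := sub_ne_zero.2 xy
    have := sub_ne_zero.2 xz
    have := sub_ne_zero.2 yz
    have := sub_ne_zero.2 xy.symm
    have := sub_ne_zero.2 xz.symm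
    have := sub_ne_zero.2 yz.symm
    rw [← hf]
    simp only [mem_insert, mem_singleton] at *
    rcases ‹t = x ∨ t = y ∨ t = z› with rfl | rfl | rfl <;> simp <;> field_simp <;> ring
  simp only [val] at h4 eq
  obtain ⟨i₀, h4⟩ := h4
  by_cases a0 : a = 0
  · refine Or.inl (small ((card_le_one_of_two (a := b) (b := e) hp (nz z hz) yz
      (hy.trans hz.symm) ?_ lt fun i hi => by simpa [a0] using eq i hi).trans one_le_two))
    by_contra h
    push Not at h
    simp [a0, h.1, h.2] at h4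
  by_cases b0 : b = 0
  · exact Or.inl (small ((card_le_one_of_two (a := a) (b := e) hp (nz z hz) xz
      (hx.trans hz.symm) (Or.inl a0) lt fun i hi => by simpa [b0] using eq i hi).trans one_le_two))
  by_cases e0 : e = 0
  · exact Or.inl (small ((card_le_one_of_two (a := a) (b := b) hp (nz y hy) xy
      (hx.trans hy.symm) (Or.inl a0) lt fun i hi => by
        simpa only [e0, zero_mul, add_zero] using eq i hi).trans one_le_two))
  exact Dat.num ⟨hp, a0, b0, e0, nz x hx, nz y hy, nz z hz, xy, yz, xz.symm, hx.trans hz.symm,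
    hy.trans hz.symm, lt, eq⟩ hp' (by linarith) hρ

end Pool.Agent.LinSidon
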