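import Mathlib

/-! An auxiliary polynomial built from monomials in `X` and `X - 1`, and three-term relations. -/

namespace Pool.Agent.LinSidon

open Polynomial Finset

variable {K : Type*} [Field K]

/-- The coefficient of index `r` has degree at most `r`. -/
def Gd (F : K[X][X]) : Prop := ∀ r, (F.coeff r).natDegree ≤ r

theorem Gd.mul {F G : K[X][X]} (hF : Gd F) (hG : Gd G) : Gd (F * G) := fun r => by
  rw [coeff_mul]
  refine natDegree_sum_le_of_forall_le _ _ fun x hx => natDegree_mul_le.trans ?_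
  rw [← mem_antidiagonal.1 hx]
  exact add_le_add (hF _) (hG _)

theorem gd_one : Gd (1 : K[X][X]) := fun r => by
  rw [coeff_one]
  split_ifs <;> simp

theorem Gd.pow {F : K[X][X]} (hF : Gd F) (n : ℕ) : Gd (F ^ n) := by
  induction n with
  | zero => simpa using gd_one
  | succ n ih => rw [pow_succ]; exact ih.mul hF

theorem gd_lin {a : K[X]} (ha : a.natDegree ≤ 1) : Gd (1 + C a * X) := fun r => by
  rw [coeff_add, coeff_one, coeff_C_mul_X]
  rcases r with _ | _ | r <;> simp [ha]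

/-- The monomial `κ X ^ m (X - 1) ^ n`. -/
noncomputable def mo (κ : K) (m n : ℕ) : K[X] := C κ * X ^ m * (X - 1) ^ n

theorem natDegree_X_sub_one : (X - 1 : K[X]).natDegree = 1 := by
  simpa using natDegree_X_sub_C (x := (1 : K))

theorem X_sub_one_ne : (X - 1 : K[X]) ≠ 0 := by
  simpa using X_sub_C_ne_zero (1 : K)

theorem mo_ne {κ : K} (h : κ ≠ 0) (m n : ℕ) : mo κ m n ≠ 0 :=
  mul_ne_zero (mul_ne_zero (C_ne_zero.2 h) (pow_ne_zero _ X_ne_zero)) (pow_ne_zero _ X_sub_one_ne)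

theorem natDegree_mo {κ : K} (h : κ ≠ 0) (m n : ℕ) : (mo κ m n).natDegree = m + n := by
  rw [mo, natDegree_mul (mul_ne_zero (C_ne_zero.2 h) (pow_ne_zero _ X_ne_zero))
    (pow_ne_zero _ X_sub_one_ne), natDegree_C_mul h, natDegree_pow, natDegree_pow,
    natDegree_X_sub_one, natDegree_X, mul_one, mul_one]

theorem natDegree_mo_le (κ : K) (m n : ℕ) : (mo κ m n).natDegree ≤ m + n := by
  by_cases h : κ = 0
  · simp [mo, h]
  · exact (natDegree_mo h m n).le

theorem stepanov {ι : Type} [Fintype ι] (s τ : ℕ) (m n : ι → ℕ) (κ : ι → K)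
    (hc : ∑ r ∈ range s, (τ + r + 1) < Fintype.card ι * (τ + 1)) :
    ∃ β : ι → K[X], (∀ j, (β j).natDegree ≤ τ) ∧ (∃ j, β j ≠ 0) ∧
      ∀ ξ c : K, ξ ≠ 0 → ξ ≠ 1 → (∀ j, κ j * ξ ^ m j * (ξ - 1) ^ n j = c) →
        (X - C ξ) ^ s ∣ ∑ j, β j * mo (κ j) (m j) (n j) := by
  classical
  let E : ι × Fin (τ + 1) → K[X][X] := fun u =>
    C (X ^ (u.2 : ℕ)) * ((1 + C (X - 1) * X) ^ (m u.1 + u.2) * (1 + C X * X) ^ n u.1)
  have hE : ∀ u r, ((E u).coeff r).natDegree ≤ τ + r := fun u r => by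
    simp only [E, coeff_C_mul]
    refine natDegree_mul_le.trans (add_le_add ?_ ?_)
    · rw [natDegree_X_pow]
      exact Nat.lt_succ_iff.1 u.2.2
    · exact (((gd_lin natDegree_X_sub_one.le).pow _).mul ((gd_lin natDegree_X_le).pow _)) r
  let A : Matrix (Σ r : Fin s, Fin (τ + r + 1)) (ι × Fin (τ + 1)) K :=
    fun x u => ((E u).coeff x.1).coeff x.2
  obtain ⟨c, hc0, hc1⟩ := (Submodule.ne_bot_iff _).1 (LinearMap.ker_ne_bot_of_finrank_lt
    (f := A.mulVecLin) (by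
      simp only [Module.finrank_fintype_fun_eq_card, Fintype.card_sigma, Fintype.card_fin,
        Fintype.card_prod]
      rwa [Fin.sum_univ_eq_sum_range (fun r => τ + r + 1) s]))
  have hΨ : (X : K[X][X]) ^ s ∣ ∑ u, C (C (c u)) * E u := by
    refine X_pow_dvd_iff.2 fun r hr => ?_
    rw [finsetSum_coeff]
    ext d
    rw [finsetSum_coeff, coeff_zero]
    simp only [coeff_C_mul]
    by_cases hd : d < τ + r + 1
    · have := congrFun (LinearMap.mem_ker.1 hc0) ⟨⟨r, hr⟩, ⟨d, hd⟩⟩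
      simpa [A, Matrix.mulVec, dotProduct, mul_comm] using this
    · exact sum_eq_zero fun u _ => by
        rw [coeff_eq_zero_of_natDegree_lt ((hE u r).trans_lt (by omega)), mul_zero]
  refine ⟨fun j => ∑ t : Fin (τ + 1), C (c (j, t)) * X ^ (t : ℕ), fun j =>
    natDegree_sum_le_of_forall_le _ _ fun t _ => (natDegree_C_mul_X_pow_le _ _).trans
      (Nat.lt_succ_iff.1 t.2), ?_, fun ξ c₀ h0 h1 hj => ?_⟩
  · obtain ⟨⟨j, t⟩, h⟩ := Function.ne_iff.1 hc1
    refine ⟨j, fun h' => h ?_⟩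
    have := congrArg (coeff · t) h'
    simp only [finsetSum_coeff, coeff_C_mul, coeff_X_pow, coeff_zero, Fin.val_inj] at this
    simpa using this
  · have hu : ξ * (ξ - 1) ≠ 0 := mul_ne_zero h0 (sub_ne_zero.2 h1)
    have h2 := map_dvd (mapRingHom (evalRingHom ξ)) hΨ
    have h3 := map_dvd (compRingHom (C (ξ * (ξ - 1))⁻¹ * (X - C ξ))) h2
    have e1 : 1 + C (ξ - 1) * (C (ξ * (ξ - 1))⁻¹ * (X - C ξ)) = C ξ⁻¹ * X := by
      have : C (ξ - 1) * C (ξ * (ξ - 1))⁻¹ = C ξ⁻¹ := by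
        rw [← C_mul]
        congr 1
        field_simp
      have h4 : C ξ⁻¹ * C ξ = 1 := by rw [← C_mul, inv_mul_cancel₀ h0, C_1]
      linear_combination (X - C ξ) * this - h4
    have e2 : 1 + C ξ * (C (ξ * (ξ - 1))⁻¹ * (X - C ξ)) = C (ξ - 1)⁻¹ * (X - 1) := by
      have : C ξ * C (ξ * (ξ - 1))⁻¹ = C (ξ - 1)⁻¹ := by
        rw [← C_mul]
        congr 1
        field_simp
      have h4 : C (ξ - 1)⁻¹ * (C ξ - 1) = 1 := by
        rw [← C_1, ← C_sub, ← C_mul, inv_mul_cancel₀ (sub_ne_zero.2 h1)]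
      linear_combination (X - C ξ) * this - h4
    have e3 : ∑ j, (∑ t : Fin (τ + 1), C (c (j, t)) * X ^ (t : ℕ)) * mo (κ j) (m j) (n j) =
        C c₀ * compRingHom (C (ξ * (ξ - 1))⁻¹ * (X - C ξ))
          (mapRingHom (evalRingHom ξ) (∑ u, C (C (c u)) * E u)) := by
      rw [map_sum, map_sum, mul_sum, Fintype.sum_prod_type]
      refine sum_congr rfl fun j _ => ?_
      rw [sum_mul]
      refine sum_congr rfl fun t _ => ?_
      simp only [E, map_mul, map_pow, map_add, map_one, map_sub, coe_mapRingHom, map_C, map_X,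
        coe_evalRingHom, eval_C, eval_X, coe_compRingHom_apply, C_comp, X_comp]
      rw [← C_1 (R := K), ← C_sub, C_1, e1, e2, ← hj j, mo]
      have a1 : C ξ * C ξ⁻¹ = 1 := by rw [← C_mul, mul_inv_cancel₀ h0, C_1]
      have a2 : C (ξ - 1) * C (ξ - 1)⁻¹ = 1 := by
        rw [← C_mul, mul_inv_cancel₀ (sub_ne_zero.2 h1), C_1]
      have a3 : (C ξ * C ξ⁻¹) ^ (m j + t) * (C (ξ - 1) * C (ξ - 1)⁻¹) ^ n j = 1 := by
        rw [a1, a2, one_pow, one_pow, one_mul]
      simp only [map_mul, map_pow, mul_pow] at a3 ⊢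
      linear_combination (-(C (c (j, t)) * X ^ (t : ℕ) * C (κ j) * X ^ m j * (X - 1) ^ n j)) * a3
    rw [e3]
    refine Dvd.dvd.mul_left (Dvd.dvd.trans ?_ h3) _
    simp only [map_pow, coe_mapRingHom, map_X, coe_compRingHom_apply, X_comp]
    exact pow_dvd_pow_of_dvd (Dvd.intro_left _ rfl) s

/-- Either a relation with small coefficients or a bound for the number of points. -/
theorem bound {ι : Type} [Fintype ι] (s τ δ : ℕ) (m n : ι → ℕ) (κ : ι → K) (T : Finset K)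
    (hc : ∑ r ∈ range s, (τ + r + 1) < Fintype.card ι * (τ + 1)) (hδ : ∀ j, m j + n j ≤ δ)
    (hT : ∀ ξ ∈ T, ξ ≠ 0 ∧ ξ ≠ 1 ∧ ∃ c, ∀ j, κ j * ξ ^ m j * (ξ - 1) ^ n j = c) :
    s * T.card ≤ δ + τ ∨ ∃ β : ι → K[X], (∀ j, (β j).natDegree ≤ τ) ∧ (∃ j, β j ≠ 0) ∧
      ∑ j, β j * mo (κ j) (m j) (n j) = 0 := by
  obtain ⟨β, h1, h2, h3⟩ := stepanov s τ m n κ hc
  by_cases h0 : ∑ j, β j * mo (κ j) (m j) (n j) = 0
  · exact Or.inr ⟨β, h1, h2, h0⟩
  left
  have h4 : ∏ ξ ∈ T, (X - C ξ) ^ s ∣ ∑ j, β j * mo (κ j) (m j) (n j) :=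
    prod_dvd_of_coprime (fun a _ b _ hab => (isCoprime_X_sub_C_of_isUnit_sub
      (sub_ne_zero.2 hab).isUnit).pow) fun ξ hξ => by
      obtain ⟨a0, a1, c, a2⟩ := hT ξ hξ
      exact h3 ξ c a0 a1 a2
  have h5 := natDegree_le_of_dvd h4 h0
  rw [natDegree_prod_of_monic _ _ fun ξ _ => (monic_X_sub_C ξ).pow s] at h5
  simp only [natDegree_pow, natDegree_X_sub_C, mul_one, sum_const, smul_eq_mul] at h5
  rw [mul_comm]
  refine h5.trans (natDegree_sum_le_of_forall_le _ _ fun j _ => natDegree_mul_le.trans ?_)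
  have := natDegree_mo_le (κ j) (m j) (n j)
  have := h1 j
  have := hδ j
  omega

/-- No relation when the degrees are far apart. -/
theorem no_rel {ι : Type} [Fintype ι] {τ : ℕ} {m n : ι → ℕ} {κ : ι → K} (hκ : ∀ j, κ j ≠ 0)
    (h : ∀ j k, j ≠ k → m j + n j + τ < m k + n k ∨ m k + n k + τ < m j + n j) {β : ι → K[X]}
    (h1 : ∀ j, (β j).natDegree ≤ τ) (h2 : ∃ j, β j ≠ 0) :
    ∑ j, β j * mo (κ j) (m j) (n j) ≠ 0 := by
  classical
  obtain ⟨j, hj, hm⟩ := exists_max_image (univ.filter fun j => β j ≠ 0) (fun j => m j + n j)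
    (by obtain ⟨j, hj⟩ := h2; exact ⟨j, by simpa using hj⟩)
  have hj' : β j ≠ 0 := (mem_filter.1 hj).2
  have hn := mul_ne_zero hj' (mo_ne (hκ j) (m j) (n j))
  intro h0
  have := congrArg (coeff · (β j * mo (κ j) (m j) (n j)).natDegree) h0
  simp only [finsetSum_coeff, coeff_zero] at this
  rw [sum_eq_single j (fun k _ hk => ?_) (by simp)] at this
  · exact hn (leadingCoeff_eq_zero.1 this)
  · by_cases hk' : β k = 0
    · simp [hk']
    refine coeff_eq_zero_of_natDegree_lt (natDegree_mul_le.trans_lt ?_)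
    rw [natDegree_mul hj' (mo_ne (hκ j) _ _), natDegree_mo (hκ j), natDegree_mo (hκ k)]
    have := hm k (by simpa using hk')
    have := h k j hk
    have := h1 k
    omega

end Pool.Agent.LinSidon
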