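import Pool.Agent.Lib.MP_982bd8_co.Bsg

/-! A set with small doubling and many commensurable dilates gives a finite subring. -/

namespace Pool.Agent.LinSidon

open Finset
open scoped Pointwise

variable {R : Type*} [CommRing R] [DecidableEq R]

theorem pr8 {A B T : Finset R} {K : ℕ} (hA : A.Nonempty) (h : (A - B).card ≤ K * A.card) (s : R)
    (hT : ∀ x ∈ T, ∃ b₁ ∈ B, ∃ b₂ ∈ B, ∃ b₃ ∈ B, ∃ b₄ ∈ B, ∃ b₅ ∈ B, ∃ b₆ ∈ B, ∃ b₇ ∈ B, ∃ b₈ ∈ B,
      x + s = b₁ + b₂ + b₃ + b₄ - (b₅ + b₆ + b₇ + b₈)) : T.card ≤ K ^ 8 * A.card := by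
  have e : (4 • B : Finset R) = B + B + B + B := by
    rw [show 4 = 1 + 1 + 1 + 1 from rfl, add_nsmul, add_nsmul, add_nsmul, one_nsmul]
  have h1 : T.card ≤ (4 • B - 4 • B).card := card_le_card_of_injOn (· + s) (fun x hx => by
    obtain ⟨b₁, h₁, b₂, h₂, b₃, h₃, b₄, h₄, b₅, h₅, b₆, h₆, b₇, h₇, b₈, h₈, h⟩ := hT x hx
    simp only [h, e, mem_coe]
    exact sub_mem_sub (add_mem_add (add_mem_add (add_mem_add h₁ h₂) h₃) h₄)
      (add_mem_add (add_mem_add (add_mem_add h₅ h₆) h₇) h₈)) (add_left_injective s).injOn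
  have h2 := pluennecke_ruzsa_inequality_nsmul_sub_nsmul_sub hA B 4 4
  have h3 : ((A - B).card / A.card : ℚ≥0) ≤ K := by
    rw [div_le_iff₀ (by exact_mod_cast hA.card_pos)]
    exact_mod_cast h
  have h4 := h2.trans (mul_le_mul_left (pow_le_pow_left₀ (by positivity) h3 _) _)
  exact h1.trans (by exact_mod_cast h4)

/-- The dilate `ξ A` is commensurable with `A`. -/
def Cm (A : Finset R) (Q j : ℕ) (ξ : R) : Prop :=
  (A - A.image (ξ * ·)).card ≤ Q ^ j * A.card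

variable {A : Finset R} {Q j : ℕ} {ξ η : R}

theorem Cm.mono (h : Cm A Q j ξ) (hQ : 3 ≤ Q) {i : ℕ} (hi : j ≤ i) : Cm A Q i ξ :=
  h.trans (Nat.mul_le_mul_right _ (Nat.pow_le_pow_right (by omega) hi))

theorem Cm.union (hQ : 3 ≤ Q) (h1 : Cm A Q j 1) (h2 : Cm A Q j ξ) (h3 : Cm A Q j η) :
    (A - (A.image (1 * ·) ∪ A.image (ξ * ·) ∪ A.image (η * ·))).card ≤ Q ^ (j + 1) * A.card := by
  rw [sub_union, sub_union]
  refine (card_union_le _ _).trans ((add_le_add (card_union_le _ _) le_rfl).trans ?_)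
  unfold Cm at *
  have := Nat.mul_le_mul_right (Q ^ j * A.card) hQ
  rw [pow_succ]
  nlinarith

theorem Cm.sub (hA : A.Nonempty) (hQ : 3 ≤ Q) (h1 : Cm A Q j 1) (h2 : Cm A Q j ξ)
    (h3 : Cm A Q j η) : Cm A Q ((j + 1) * 8) (ξ - η) := by
  obtain ⟨a₀, h0⟩ := id hA
  rw [Cm, pow_mul]
  refine pr8 hA (Cm.union hQ h1 h2 h3) (-a₀) fun x hx => ?_
  obtain ⟨a, ha, _, hb', rfl⟩ := mem_sub.1 hx
  obtain ⟨b, hb, rfl⟩ := mem_image.1 hb'
  have m1 : ∀ a ∈ A, a ∈ A.image (1 * ·) ∪ A.image (ξ * ·) ∪ A.image (η * ·) := fun a ha =>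
    mem_union_left _ (mem_union_left _ (mem_image.2 ⟨a, ha, one_mul a⟩))
  exact ⟨a, m1 a ha, η * b, mem_union_right _ (mem_image_of_mem _ hb), a₀, m1 _ h0, a₀, m1 _ h0,
    ξ * b, mem_union_left _ (mem_union_right _ (mem_image_of_mem _ hb)), a₀, m1 _ h0, a₀, m1 _ h0,
    a₀, m1 _ h0, by ring⟩

theorem card_dil (hξ : IsUnit ξ) (X Y : Finset R) :
    (X.image (ξ * ·) - Y.image (ξ * ·)).card = (X - Y).card := by
  rw [← card_image_of_injective (X - Y) hξ.mul_right_injective]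
  congr 1
  ext x
  simp only [mem_sub, mem_image, exists_exists_and_eq_and]
  constructor
  · rintro ⟨a, ha, b, hb, rfl⟩
    exact ⟨_, ⟨a, ha, b, hb, rfl⟩, mul_sub _ _ _⟩
  · rintro ⟨_, ⟨a, ha, b, hb, rfl⟩, rfl⟩
    exact ⟨a, ha, b, hb, (mul_sub _ _ _).symm⟩

theorem card_sub_comm (X Y : Finset R) : (X - Y).card = (Y - X).card := by
  rw [← card_neg, neg_sub]

theorem Cm.mul (hA : A.Nonempty) (hξ : IsUnit ξ) (h2 : Cm A Q j ξ) (h3 : Cm A Q j η) :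
    Cm A Q (2 * j) (ξ * η) := by
  have e : A.image (ξ * η * ·) = (A.image (η * ·)).image (ξ * ·) := by
    rw [image_image]
    exact image_congr fun x _ => mul_assoc _ _ _
  have h := ruzsa_triangle_inequality_sub_sub_sub A (A.image (ξ * ·)) (A.image (ξ * η * ·))
  rw [card_image_of_injective _ hξ.mul_right_injective] at h
  nth_rw 2 [e] at h
  rw [card_dil hξ, card_sub_comm _ A] at h
  refine Nat.le_of_mul_le_mul_right ((h.trans (Nat.mul_le_mul h2 h3)).trans_eq ?_) hA.card_pos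
  ring

theorem Cm.inv (h : ξ * η = 1) (h2 : Cm A Q j ξ) : Cm A Q j η := by
  have e : (A.image (η * ·)).image (ξ * ·) = A := by
    rw [image_image]
    exact (image_congr fun x _ => by simp [← mul_assoc, h]).trans image_id
  rwa [Cm, ← card_dil (IsUnit.of_mul_eq_one η h), e, card_sub_comm]

open scoped Classical in
theorem cosets {W : AddSubgroup R} {E V : Finset R} (hV : ∀ v ∈ V, v ∈ W) :
    (E.image (QuotientAddGroup.mk : R → R ⧸ W)).card * V.card ≤ (E + V).card := by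
  choose! r r1 r2 using fun c (hc : c ∈ E.image (QuotientAddGroup.mk : R → R ⧸ W)) =>
    mem_image.1 hc
  rw [← card_product]
  refine card_le_card_of_injOn (fun x => r x.1 + x.2) (fun x hx =>
    add_mem_add (r1 _ (mem_product.1 hx).1) (mem_product.1 hx).2) fun x hx y hy e => ?_
  have h : ∀ x ∈ E.image (QuotientAddGroup.mk : R → R ⧸ W) ×ˢ V,
      (QuotientAddGroup.mk (r x.1 + x.2) : R ⧸ W) = x.1 := fun x hx => by
    rw [QuotientAddGroup.mk_add, r2 _ (mem_product.1 hx).1,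
      (QuotientAddGroup.eq_zero_iff _).2 (hV _ (mem_product.1 hx).2), add_zero]
  have e1 : x.1 = y.1 := by rw [← h x hx, ← h y hy]; exact congrArg _ e
  exact Prod.ext e1 (add_left_cancel (a := r x.1) (by simpa [e1] using e))

theorem gap {Λ : Finset R} {h₀ : R} (hA : A.Nonempty) (hQ : 3 ≤ Q) (h1 : Cm A Q j 1)
    (u0 : IsUnit h₀) (hΛ : ∀ l ∈ Λ, l * h₀ ∈ A - A - (A - A))
    (hs : 2 * (Q ^ (j + 1)) ^ 8 * A.card ≤ Λ.card ^ 2) (h2 : Cm A Q j ξ) :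
    Λ.card ^ 4 ≤ 2 * (Q ^ (j + 1)) ^ 8 * A.card * (((Λ ×ˢ Λ) ×ˢ Λ ×ˢ Λ).filter
      fun x => x.1.2 ≠ x.2.2 ∧ x.1.1 - x.2.1 = ξ * (x.1.2 - x.2.2)).card := by
  have c1 := fiber_cs (s := Λ ×ˢ Λ) (f := fun x => x.1 * h₀ - ξ * (x.2 * h₀))
    fun x hx => mem_image_of_mem _ hx
  have c2 := pr8 (T := (Λ ×ˢ Λ).image fun x => x.1 * h₀ - ξ * (x.2 * h₀)) hA
    (Cm.union hQ h1 h2 h2) 0 fun x' hx' => by
      obtain ⟨x, hx, rfl⟩ := mem_image.1 hx'
      have a := hΛ _ (mem_product.1 hx).1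
      have b := hΛ _ (mem_product.1 hx).2
      simp only [mem_sub, exists_exists_and_exists_and_eq_and] at a b
      obtain ⟨a₁, p1, a₂, p2, a₃, p3, a₄, p4, a⟩ := a
      obtain ⟨b₁, q1, b₂, q2, b₃, q3, b₄, q4, b⟩ := b
      have m1 : ∀ a ∈ A, a ∈ A.image (1 * ·) ∪ A.image (ξ * ·) ∪ A.image (ξ * ·) := fun a ha =>
        mem_union_left _ (mem_union_left _ (mem_image.2 ⟨a, ha, one_mul a⟩))
      have m2 : ∀ a ∈ A, ξ * a ∈ A.image (1 * ·) ∪ A.image (ξ * ·) ∪ A.image (ξ * ·) :=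
        fun a ha => mem_union_right _ (mem_image_of_mem _ ha)
      exact ⟨_, m1 _ p1, _, m1 _ p4, _, m2 _ q2, _, m2 _ q3, _, m1 _ p2, _, m1 _ p3, _, m2 _ q1, _,
        m2 _ q4, by rw [← a, ← b]; ring⟩
  have c3 : (((Λ ×ˢ Λ) ×ˢ Λ ×ˢ Λ).filter fun x =>
      x.1.1 * h₀ - ξ * (x.1.2 * h₀) = x.2.1 * h₀ - ξ * (x.2.2 * h₀)).card ≤ (Λ ×ˢ Λ).card +
      (((Λ ×ˢ Λ) ×ˢ Λ ×ˢ Λ).filter
        fun x => x.1.2 ≠ x.2.2 ∧ x.1.1 - x.2.1 = ξ * (x.1.2 - x.2.2)).card := by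
    rw [← diag_card (Λ ×ˢ Λ)]
    refine (card_le_card fun x hx => ?_).trans (card_union_le _ _)
    obtain ⟨x1, x2⟩ := mem_filter.1 hx
    have e : x.1.1 - x.2.1 = ξ * (x.1.2 - x.2.2) := u0.mul_left_injective (by
      linear_combination x2)
    by_cases h : x.1.2 = x.2.2
    · exact mem_union_left _ (mem_diag.2 ⟨(mem_product.1 x1).1,
        Prod.ext (by rwa [h, sub_self, mul_zero, sub_eq_zero] at e) h⟩)
    · exact mem_union_right _ (mem_filter.2 ⟨x1, h, e⟩)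
  have c4 := c1.trans (Nat.mul_le_mul c2 c3)
  have c5 := Nat.mul_le_mul_right (Λ.card ^ 2) hs
  rw [card_product] at c4
  nlinarith

end Pool.Agent.LinSidon
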